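import Pool.Agent.SRC68.Stm

/-!
# Project SRC, piece BL (helper15): smooth three term binary forms over `F_p`
-/

set_option autoImplicit false

open Polynomial

noncomputable section

namespace Pool.Agent.SRC68

theorem BL_sm (p : ℕ) [Fact p.Prime] (a b : ℕ) (α ε γ : ZMod p) (ha : 2 ≤ a) (hb : 2 ≤ b)
    (hd : ((a + b : ℕ) : ZMod p) ≠ 0) (hα : α ≠ 0) (hγ : γ ≠ 0) (g a' b' : ℕ) (ha' : a = g * a')
    (hb' : b = g * b')
    (h : (((a + b : ℕ) : ZMod p) * α) ^ a' * (((a + b : ℕ) : ZMod p) * γ) ^ b' ≠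
      (-(ε * a)) ^ a' * (-(ε * b)) ^ b') : Sm p a b α ε γ := by
  intro x y h1 h2
  set φ := algebraMap (ZMod p) (AlgebraicClosure (ZMod p)) with hφ
  have hinj : Function.Injective φ := (algebraMap (ZMod p) (AlgebraicClosure (ZMod p))).injective
  have hA0 : φ (((a + b : ℕ) : ZMod p) * α) ≠ 0 := by
    rw [Ne, map_eq_zero]
    exact mul_ne_zero hd hα
  have hG0 : φ (((a + b : ℕ) : ZMod p) * γ) ≠ 0 := by
    rw [Ne, map_eq_zero]
    exact mul_ne_zero hd hγ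
  obtain ⟨A, hA⟩ : ∃ A, A = φ (((a + b : ℕ) : ZMod p) * α) := ⟨_, rfl⟩
  obtain ⟨G, hG⟩ : ∃ G, G = φ (((a + b : ℕ) : ZMod p) * γ) := ⟨_, rfl⟩
  obtain ⟨B, hB⟩ : ∃ B, B = φ (ε * a) := ⟨_, rfl⟩
  obtain ⟨E, hE⟩ : ∃ E, E = φ (ε * b) := ⟨_, rfl⟩
  rw [← hA] at h1 hA0
  rw [← hB] at h1
  rw [← hG] at h2 hG0
  rw [← hE] at h2
  by_cases hx : x = 0
  · subst hx
    refine ⟨rfl, ?_⟩
    rw [zero_pow (by omega), mul_zero, zero_mul, zero_add] at h2
    exact eq_zero_of_pow_eq_zero ((mul_eq_zero.1 h2).resolve_left hG0)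
  by_cases hy : y = 0
  · subst hy
    refine ⟨?_, rfl⟩
    rw [zero_pow (by omega), mul_zero, add_zero] at h1
    exact eq_zero_of_pow_eq_zero ((mul_eq_zero.1 h1).resolve_left hA0)
  exfalso
  have e1 : A * x ^ (a + b) = -B * (x ^ a * y ^ b) := by
    have hx1 : x ^ (a + b) = x ^ (a + b - 1) * x := by
      rw [← pow_succ]; congr 1; omega
    have hx2 : x ^ a = x ^ (a - 1) * x := by
      rw [← pow_succ]; congr 1; omega
    rw [hx1, hx2]
    linear_combination x * h1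
  have e2 : G * y ^ (a + b) = -E * (x ^ a * y ^ b) := by
    have hx1 : y ^ (a + b) = y ^ (a + b - 1) * y := by
      rw [← pow_succ]; congr 1; omega
    have hx2 : y ^ b = y ^ (b - 1) * y := by
      rw [← pow_succ]; congr 1; omega
    rw [hx1, hx2]
    linear_combination y * h2
  have e3 : (A * x ^ (a + b)) ^ a' * (G * y ^ (a + b)) ^ b' =
      (-B * (x ^ a * y ^ b)) ^ a' * (-E * (x ^ a * y ^ b)) ^ b' := by rw [e1, e2]
  have e4 : (x ^ (a + b)) ^ a' * (y ^ (a + b)) ^ b' = (x ^ a * y ^ b) ^ (a' + b') := by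
    rw [mul_pow, ← pow_mul, ← pow_mul, ← pow_mul, ← pow_mul]
    congr 2
    · rw [ha', hb']; ring
    · rw [ha', hb']; ring
  have e5 : (A ^ a' * G ^ b') * (x ^ a * y ^ b) ^ (a' + b') =
      ((-B) ^ a' * (-E) ^ b') * (x ^ a * y ^ b) ^ (a' + b') := by
    have l1 : (A * x ^ (a + b)) ^ a' * (G * y ^ (a + b)) ^ b' =
        (A ^ a' * G ^ b') * ((x ^ (a + b)) ^ a' * (y ^ (a + b)) ^ b') := by
      rw [mul_pow, mul_pow]; ring
    have l2 : (-B * (x ^ a * y ^ b)) ^ a' * (-E * (x ^ a * y ^ b)) ^ b' =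
        ((-B) ^ a' * (-E) ^ b') * (x ^ a * y ^ b) ^ (a' + b') := by
      rw [mul_pow (-B), mul_pow (-E), pow_add]; ring
    rw [← e4, ← l1, e3, l2, e4]
  have hM : (x ^ a * y ^ b) ^ (a' + b') ≠ 0 :=
    pow_ne_zero _ (mul_ne_zero (pow_ne_zero _ hx) (pow_ne_zero _ hy))
  have e6 := mul_right_cancel₀ hM e5
  apply h
  apply hinj
  rw [map_mul, map_mul, map_pow, map_pow, map_pow, map_pow, map_neg, map_neg, ← hA, ← hG, ← hB,
    ← hE]
  exact e6

theorem BL_exists (p : ℕ) [Fact p.Prime] (hp : 5 ≤ p) (m : ℕ) (hm : ¬ p - 1 ∣ m)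
    (κ γ' : ZMod p) : ∃ γ : ZMod p, γ ≠ 0 ∧ γ ≠ γ' ∧ γ ^ m ≠ κ := by
  by_contra hcon
  push Not at hcon
  apply hm
  have hcard : Fintype.card (ZMod p) = p := ZMod.card p
  rw [← hcard, ← FiniteField.forall_pow_eq_one_iff (ZMod p) m]
  intro z
  -- choose `γ ≠ 0, γ', γ' / z`
  have hz : (z : ZMod p) ≠ 0 := z.ne_zero
  obtain ⟨γ, hγ⟩ : ∃ γ : ZMod p, γ ∉ ({0, γ', γ' / z} : Finset (ZMod p)) := by
    by_contra hall
    push Not at hall
    have h1 : (Finset.univ : Finset (ZMod p)) ⊆ {0, γ', γ' / z} := fun x _ => hall x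
    have h2 := (Finset.card_le_card h1).trans Finset.card_le_three
    rw [Finset.card_univ, hcard] at h2
    omega
  simp only [Finset.mem_insert, Finset.mem_singleton, not_or] at hγ
  obtain ⟨g0, g1, g2⟩ := hγ
  have h1 := hcon γ g0 g1
  have h2 := hcon (z * γ) (mul_ne_zero hz g0) (fun h => g2 (by
    rw [eq_div_iff hz, mul_comm]
    exact h))
  rw [mul_pow, h1] at h2
  have hκ : κ ≠ 0 := by
    rw [← h1]
    exact pow_ne_zero _ g0
  have h3 : (z : ZMod p) ^ m = 1 := by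
    have : (z : ZMod p) ^ m * κ = 1 * κ := by rw [h2, one_mul]
    exact mul_right_cancel₀ hκ this
  ext
  push_cast
  exact h3

theorem BL_ndvd {p a b : ℕ} (hp : 5 ≤ p) (ha : 2 ≤ a) (hb : 2 ≤ b) (h : b + 2 ≤ p ∨ a = b) :
    ¬ p - 1 ∣ b / Nat.gcd a b := by
  intro hd
  have hg : 0 < Nat.gcd a b := Nat.gcd_pos_of_pos_left _ (by omega)
  have hpos : 0 < b / Nat.gcd a b := Nat.div_pos (Nat.le_of_dvd (by omega) (Nat.gcd_dvd_right a b)) hg
  have h1 := Nat.le_of_dvd hpos hd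
  rcases h with h | h
  · have h2 : b / Nat.gcd a b ≤ b := Nat.div_le_self _ _
    omega
  · subst h
    rw [Nat.gcd_self, Nat.div_self (by omega)] at h1
    omega

theorem t_BL : S_BL := by
  intro p _ a b ε hp ha hap hb hbp hpd hε
  have hd : ((a + b : ℕ) : ZMod p) ≠ 0 := by
    rw [Ne, ZMod.natCast_eq_zero_iff]
    exact hpd
  have ha' : a = Nat.gcd a b * (a / Nat.gcd a b) := (Nat.mul_div_cancel' (Nat.gcd_dvd_left a b)).symm
  have hb' : b = Nat.gcd a b * (b / Nat.gcd a b) := (Nat.mul_div_cancel' (Nat.gcd_dvd_right a b)).symm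
  constructor
  · intro h α γ' hα
    obtain ⟨γ, h0, h1, h2⟩ := BL_exists p hp (b / Nat.gcd a b) (BL_ndvd hp ha hb h)
      ((-(ε * a)) ^ (a / Nat.gcd a b) * (-(ε * b)) ^ (b / Nat.gcd a b) /
        ((((a + b : ℕ) : ZMod p) * α) ^ (a / Nat.gcd a b) *
          ((a + b : ℕ) : ZMod p) ^ (b / Nat.gcd a b))) γ'
    refine ⟨γ, h0, h1, BL_sm p a b α ε γ ha hb hd hα h0 _ _ _ ha' hb' fun h3 => h2 ?_⟩
    rw [eq_div_iff (mul_ne_zero (pow_ne_zero _ (mul_ne_zero hd hα)) (pow_ne_zero _ hd)), ← h3,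
      mul_pow _ γ]
    ring
  · intro h γ α' hγ
    have h' : a + 2 ≤ p ∨ b = a := h.imp_right Eq.symm
    obtain ⟨α, h0, h1, h2⟩ := BL_exists p hp (a / Nat.gcd a b) (by
        have := BL_ndvd hp hb ha h'
        rwa [Nat.gcd_comm] at this)
      ((-(ε * a)) ^ (a / Nat.gcd a b) * (-(ε * b)) ^ (b / Nat.gcd a b) /
        (((a + b : ℕ) : ZMod p) ^ (a / Nat.gcd a b) *
          (((a + b : ℕ) : ZMod p) * γ) ^ (b / Nat.gcd a b))) α'
    refine ⟨α, h0, h1, BL_sm p a b α ε γ ha hb hd h0 hγ _ _ _ ha' hb' fun h3 => h2 ?_⟩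
    rw [eq_div_iff (mul_ne_zero (pow_ne_zero _ hd) (pow_ne_zero _ (mul_ne_zero hd hγ))), ← h3,
      mul_pow _ α]
    ring

end Pool.Agent.SRC68

end
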