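import Pool.Agent.SRC68.Stm

set_option autoImplicit false
set_option linter.unusedSimpArgs false

open Polynomial

noncomputable section

namespace Pool.Agent.SRC68

namespace C1

/-- the coefficient -/
def ec (p d k : ℕ) : ZMod p := if k + 4 ≤ d then 1 else 0

/-- the hypersurface -/
def F (p m d : ℕ) : MvPolynomial (Fin 3 ⊕ Fin (m + 1)) (ZMod p) :=
  MvPolynomial.X (Sum.inr 0) ^ (d - 1) * MvPolynomial.X (Sum.inl 0)
  + MvPolynomial.X (Sum.inl 1) *
    (MvPolynomial.X (Sum.inr 0) ^ (d - 1) + MvPolynomial.X (Sum.inl 0) ^ (d - 1))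
  + MvPolynomial.X (Sum.inl 2) * MvPolynomial.X (Sum.inl 1) ^ (d - 1)
  + MvPolynomial.X (Sum.inl 2) ^ d
  + ∑ k : Fin m, MvPolynomial.C (ec p d k) * (MvPolynomial.X (Sum.inr k.succ) *
      MvPolynomial.X (Sum.inl 1) ^ (d - 2 - k) * MvPolynomial.X (Sum.inr 0) ^ ((k : ℕ) + 1))
  + ∑ k : Fin m, MvPolynomial.X (Sum.inr k.castSucc) * MvPolynomial.X (Sum.inr k.succ) ^ (d - 1)

variable {p m d : ℕ} {R : Type} [CommRing R] [Algebra (ZMod p) R] (c : Fin 3 ⊕ Fin (m + 1) → R)

lemma ev : MvPolynomial.aeval c (F p m d) =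
    c (Sum.inr 0) ^ (d - 1) * c (Sum.inl 0) +
    c (Sum.inl 1) * (c (Sum.inr 0) ^ (d - 1) + c (Sum.inl 0) ^ (d - 1)) +
    c (Sum.inl 2) * c (Sum.inl 1) ^ (d - 1) + c (Sum.inl 2) ^ d +
    ∑ k : Fin m, algebraMap (ZMod p) R (ec p d k) * (c (Sum.inr k.succ) *
      c (Sum.inl 1) ^ (d - 2 - k) * c (Sum.inr 0) ^ ((k : ℕ) + 1)) +
    ∑ k : Fin m, c (Sum.inr k.castSucc) * c (Sum.inr k.succ) ^ (d - 1) := by
  simp [F]

lemma dY : MvPolynomial.aeval c (MvPolynomial.pderiv (Sum.inl 0) (F p m d)) =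
    c (Sum.inr 0) ^ (d - 1) + c (Sum.inl 1) * ((d - 1 : ℕ) * c (Sum.inl 0) ^ (d - 1 - 1)) := by
  simp [F, MvPolynomial.pderiv_X, Pi.single_apply, MvPolynomial.pderiv_mul, MvPolynomial.pderiv_pow]

lemma dZ : MvPolynomial.aeval c (MvPolynomial.pderiv (Sum.inl 1) (F p m d)) =
    c (Sum.inr 0) ^ (d - 1) + c (Sum.inl 0) ^ (d - 1) +
    c (Sum.inl 2) * ((d - 1 : ℕ) * c (Sum.inl 1) ^ (d - 1 - 1)) +
    ∑ k : Fin m, algebraMap (ZMod p) R (ec p d k) * (c (Sum.inr k.succ) *
      ((d - 2 - k : ℕ) * c (Sum.inl 1) ^ (d - 2 - k - 1)) * c (Sum.inr 0) ^ ((k : ℕ) + 1)) := by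
  simp [F, MvPolynomial.pderiv_X, Pi.single_apply, MvPolynomial.pderiv_mul, MvPolynomial.pderiv_pow]
  refine Finset.sum_congr rfl fun k _ => ?_
  ring

lemma dW : MvPolynomial.aeval c (MvPolynomial.pderiv (Sum.inl 2) (F p m d)) =
    c (Sum.inl 1) ^ (d - 1) + (d : ℕ) * c (Sum.inl 2) ^ (d - 1) := by
  simp [F, MvPolynomial.pderiv_X, Pi.single_apply, MvPolynomial.pderiv_mul, MvPolynomial.pderiv_pow]

lemma dU (j : Fin (m + 1)) : MvPolynomial.aeval c (MvPolynomial.pderiv (Sum.inr j) (F p m d)) =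
    (if 0 = j then 1 else 0) * (((d - 1 : ℕ) * c (Sum.inr 0) ^ (d - 1 - 1)) *
      (c (Sum.inl 0) + c (Sum.inl 1))) +
    ∑ k : Fin m, algebraMap (ZMod p) R (ec p d k) * (
      (if k.succ = j then 1 else 0) * (c (Sum.inl 1) ^ (d - 2 - k) * c (Sum.inr 0) ^ ((k : ℕ) + 1)) +
      (if 0 = j then 1 else 0) * (c (Sum.inr k.succ) * c (Sum.inl 1) ^ (d - 2 - k) *
        (((k : ℕ) + 1 : ℕ) * c (Sum.inr 0) ^ (k : ℕ)))) +
    ∑ k : Fin m, ((if k.castSucc = j then 1 else 0) * c (Sum.inr k.succ) ^ (d - 1) +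
      (if k.succ = j then 1 else 0) *
        (c (Sum.inr k.castSucc) * ((d - 1 : ℕ) * c (Sum.inr k.succ) ^ (d - 1 - 1)))) := by
  have h : ∀ i : Fin (m + 1), MvPolynomial.aeval c (MvPolynomial.pderiv (Sum.inr j)
      (MvPolynomial.X (R := ZMod p) (Sum.inr i : Fin 3 ⊕ Fin (m + 1)))) = if i = j then 1 else 0 := by
    intro i
    rw [MvPolynomial.pderiv_X, Pi.single_apply]
    by_cases hi : i = j
    · simp [hi]
    · simp [hi]
  have h' : ∀ i : Fin 3, MvPolynomial.aeval c (MvPolynomial.pderiv (Sum.inr j)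
      (MvPolynomial.X (R := ZMod p) (Sum.inl i : Fin 3 ⊕ Fin (m + 1)))) = 0 := by
    intro i
    rw [MvPolynomial.pderiv_X, Pi.single_apply]
    simp
  simp only [F, map_add, map_sum, MvPolynomial.pderiv_mul, MvPolynomial.pderiv_pow, map_mul, map_pow,
    MvPolynomial.aeval_X, h, h', MvPolynomial.pderiv_C, map_zero, MvPolynomial.aeval_C, map_natCast]
  have e1 : ∀ k : Fin m, (0 : R) * (c (Sum.inr k.succ) * c (Sum.inl 1) ^ (d - 2 - k) *
      c (Sum.inr 0) ^ ((k : ℕ) + 1)) + algebraMap (ZMod p) R (ec p d k) *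
      (((if k.succ = j then 1 else 0) * c (Sum.inl 1) ^ (d - 2 - (k : ℕ)) +
        c (Sum.inr k.succ) * (((d - 2 - (k : ℕ) : ℕ) : R) * c (Sum.inl 1) ^ (d - 2 - (k : ℕ) - 1) * 0)) *
        c (Sum.inr 0) ^ ((k : ℕ) + 1) + c (Sum.inr k.succ) * c (Sum.inl 1) ^ (d - 2 - (k : ℕ)) *
        ((((k : ℕ) + 1 : ℕ) : R) * c (Sum.inr 0) ^ ((k : ℕ) + 1 - 1) * if 0 = j then 1 else 0)) =
      algebraMap (ZMod p) R (ec p d k) * (
      (if k.succ = j then 1 else 0) * (c (Sum.inl 1) ^ (d - 2 - k) * c (Sum.inr 0) ^ ((k : ℕ) + 1)) +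
      (if 0 = j then 1 else 0) * (c (Sum.inr k.succ) * c (Sum.inl 1) ^ (d - 2 - k) *
        (((k : ℕ) + 1 : ℕ) * c (Sum.inr 0) ^ (k : ℕ)))) := by
    intro k
    rw [Nat.add_sub_cancel]
    ring
  rw [Finset.sum_congr rfl fun k _ => e1 k]
  have e2 : ∀ k : Fin m, (if k.castSucc = j then 1 else 0) * c (Sum.inr k.succ) ^ (d - 1) +
      c (Sum.inr k.castSucc) * (((d - 1 : ℕ) : R) * c (Sum.inr k.succ) ^ (d - 1 - 1) *
      if k.succ = j then 1 else 0) = (if k.castSucc = j then 1 else 0) * c (Sum.inr k.succ) ^ (d - 1) +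
      (if k.succ = j then 1 else 0) *
        (c (Sum.inr k.castSucc) * ((d - 1 : ℕ) * c (Sum.inr k.succ) ^ (d - 1 - 1))) := by
    intro k
    ring
  rw [Finset.sum_congr rfl fun k _ => e2 k]
  ring

lemma hom (hd : 3 ≤ d) : (F p m d).IsHomogeneous d := by
  have hX : ∀ i : Fin 3 ⊕ Fin (m + 1), (MvPolynomial.X (R := ZMod p) i).IsHomogeneous 1 :=
    fun i => MvPolynomial.isHomogeneous_X _ i
  have hXp : ∀ (i : Fin 3 ⊕ Fin (m + 1)) (k : ℕ),
      (MvPolynomial.X (R := ZMod p) i ^ k).IsHomogeneous k := by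
    intro i k
    have := (hX i).pow k
    rwa [one_mul] at this
  have cast : ∀ {f : MvPolynomial (Fin 3 ⊕ Fin (m + 1)) (ZMod p)} {a b : ℕ}, f.IsHomogeneous a →
      a = b → f.IsHomogeneous b := by
    intro f a b h e
    rwa [← e]
  unfold F
  refine (((((?_ : MvPolynomial.IsHomogeneous _ d).add ?_).add ?_).add ?_).add ?_).add ?_
  · exact cast ((hXp _ _).mul (hX _)) (by omega)
  · exact cast ((hX _).mul ((hXp _ _).add (hXp _ _))) (by omega)
  · exact cast ((hX _).mul (hXp _ _)) (by omega)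
  · exact hXp _ _
  · refine MvPolynomial.IsHomogeneous.sum _ _ _ fun k _ => ?_
    by_cases h : (k : ℕ) + 4 ≤ d
    · refine cast ((MvPolynomial.isHomogeneous_C _ _).mul (((hX _).mul (hXp _ _)).mul (hXp _ _))) ?_
      omega
    · have : ec p d k = 0 := if_neg h
      rw [this, map_zero, zero_mul]
      exact MvPolynomial.isHomogeneous_zero _ _ _
  · refine MvPolynomial.IsHomogeneous.sum _ _ _ fun k _ => ?_
    exact cast ((hX _).mul (hXp _ _)) (by omega)

lemma smooth [Fact p.Prime] (hd : 3 ≤ d) (hp : p ∣ d) :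
    IsSmooth (AlgebraicClosure (ZMod p)) (F p m d) := by
  intro c hF hD
  have hd0 : ((d : ℕ) : AlgebraicClosure (ZMod p)) = 0 := (CharP.cast_eq_zero_iff _ p d).2 hp
  have hz : c (Sum.inl 1) = 0 := by
    have := hD (Sum.inl 2)
    rw [dW, hd0, zero_mul, add_zero] at this
    exact (pow_eq_zero_iff (by omega)).1 this
  have hx : c (Sum.inr 0) = 0 := by
    have := hD (Sum.inl 0)
    rw [dY, hz, zero_mul, add_zero] at this
    exact (pow_eq_zero_iff (by omega)).1 this
  have z1 : (0 : AlgebraicClosure (ZMod p)) ^ (d - 1) = 0 := zero_pow (by omega)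
  have z2 : (0 : AlgebraicClosure (ZMod p)) ^ (d - 1 - 1) = 0 := zero_pow (by omega)
  have hy : c (Sum.inl 0) = 0 := by
    have := hD (Sum.inl 1)
    rw [dZ, hz, hx, z1, z2, mul_zero, mul_zero, add_zero, zero_add, Finset.sum_eq_zero, add_zero]
      at this
    · exact (pow_eq_zero_iff (by omega)).1 this
    · intro k _
      rw [zero_pow (Nat.succ_ne_zero _), mul_zero, mul_zero]
  have hu : ∀ j : Fin (m + 1), c (Sum.inr j) = 0 := by
    intro j
    induction j using Fin.induction with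
    | zero => exact hx
    | succ k ih =>
      have := hD (Sum.inr k.castSucc)
      rw [dU, hz, hx, z2, mul_zero, zero_mul, mul_zero, zero_add,
        Finset.sum_eq_zero (s := Finset.univ) (f := fun k' : Fin m =>
          algebraMap (ZMod p) (AlgebraicClosure (ZMod p)) (ec p d k') * _), zero_add,
        Finset.sum_eq_single k] at this
      · rw [if_pos rfl, one_mul, if_neg, zero_mul, add_zero] at this
        · exact (pow_eq_zero_iff (by omega)).1 this
        · intro h
          have := congrArg Fin.val h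
          simp at this
      · intro k' _ hk'
        rw [if_neg (fun h => hk' (Fin.castSucc_injective _ h)), zero_mul, zero_add]
        by_cases h : k'.succ = k.castSucc
        · rw [h, ih, z2, mul_zero, mul_zero, mul_zero]
        · rw [if_neg h, zero_mul]
      · intro h
        exact absurd (Finset.mem_univ _) h
      · intro k' _
        by_cases h : (k' : ℕ) + 4 ≤ d
        · rw [zero_pow (show d - 2 - (k' : ℕ) ≠ 0 by omega)]
          ring
        · have : ec p d k' = 0 := if_neg h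
          rw [this, map_zero, zero_mul]
  have hw : c (Sum.inl 2) = 0 := by
    rw [ev, hz, hx, hy, z1, mul_zero, zero_mul, mul_zero, zero_add, zero_add, zero_add,
      Finset.sum_eq_zero, Finset.sum_eq_zero, add_zero, add_zero] at hF
    · exact (pow_eq_zero_iff (by omega)).1 hF
    · intro k _
      rw [hu, zero_mul]
    · intro k _
      rw [zero_pow (Nat.succ_ne_zero _), mul_zero, mul_zero]
  funext i
  rcases i with i | i
  · fin_cases i
    · exact hy
    · exact hz
    · exact hw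
  · exact hu i

lemma dU' (hd : 3 ≤ d) (hc : ∀ k : Fin m, c (Sum.inr k.succ) = 0) (k : Fin m) :
    MvPolynomial.aeval c (MvPolynomial.pderiv (Sum.inr k.succ) (F p m d)) =
      algebraMap (ZMod p) R (ec p d k) *
        (c (Sum.inl 1) ^ (d - 2 - (k : ℕ)) * c (Sum.inr 0) ^ ((k : ℕ) + 1)) := by
  have z1 : (0 : R) ^ (d - 1) = 0 := zero_pow (by omega)
  have z2 : (0 : R) ^ (d - 1 - 1) = 0 := zero_pow (by omega)
  rw [dU, if_neg (Fin.succ_ne_zero k).symm, zero_mul, zero_add, Finset.sum_eq_single k,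
    Finset.sum_eq_zero (s := Finset.univ), if_pos rfl, one_mul, zero_mul, add_zero, add_zero]
  · intro k' _
    rw [hc, z1, z2]
    ring
  · intro k' _ hk'
    rw [if_neg (fun h => hk' (Fin.succ_injective _ h))]
    ring
  · intro h
    exact absurd (Finset.mem_univ _) h

/-- the indices of the basis -/
def g (m d : ℕ) (hd : 3 ≤ d) (hm : d ≤ m + 3) :
    Fin 3 ⊕ (Fin (d - 2) ⊕ Fin (m + 3 - d)) → Fin 3 ⊕ Fin (m + 1) :=
  Sum.elim ![Sum.inr 0, Sum.inl 0, Sum.inl 1]
    (Sum.elim (fun j => if (j : ℕ) = 0 then Sum.inl 2 else Sum.inr ⟨(j : ℕ), by omega⟩)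
      (fun i => Sum.inr ⟨d - 2 + i, by omega⟩))

lemma g_inj (m d : ℕ) (hd : 3 ≤ d) (hm : d ≤ m + 3) : Function.Injective (g m d hd hm) := by
  have h3 : ∀ i : Fin 3, g m d hd hm (Sum.inl i) = ![Sum.inr 0, Sum.inl 0, Sum.inl 1] i := fun i => rfl
  have hj : ∀ j : Fin (d - 2), g m d hd hm (Sum.inr (Sum.inl j)) =
    if (j : ℕ) = 0 then Sum.inl 2 else Sum.inr ⟨(j : ℕ), by omega⟩ := fun i => rfl
  have hn : ∀ i : Fin (m + 3 - d), g m d hd hm (Sum.inr (Sum.inr i)) =
    Sum.inr ⟨d - 2 + i, by omega⟩ := fun i => rfl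
  intro a b hab
  rcases a with a | a | a <;> rcases b with b | b | b
  · rw [h3, h3] at hab
    fin_cases a <;> fin_cases b <;> simp_all
  · rw [h3, hj] at hab
    split_ifs at hab with h
    · fin_cases a <;> simp at hab
    · fin_cases a
      · simp only [Fin.zero_eta, Matrix.cons_val_zero, Sum.inr.injEq] at hab
        have := congrArg Fin.val hab
        simp at this
        omega
      · simp at hab
      · simp at hab
  · rw [h3, hn] at hab
    fin_cases a
    · simp only [Fin.zero_eta, Matrix.cons_val_zero, Sum.inr.injEq] at hab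
      have := congrArg Fin.val hab
      simp at this
      omega
    · simp at hab
    · simp at hab
  · rw [h3, hj] at hab
    split_ifs at hab with h
    · fin_cases b <;> simp at hab
    · fin_cases b
      · simp only [Fin.zero_eta, Matrix.cons_val_zero, Sum.inr.injEq] at hab
        have := congrArg Fin.val hab
        simp at this
        omega
      · simp at hab
      · simp at hab
  · rw [hj, hj] at hab
    split_ifs at hab with h h' h'
    · have : a = b := Fin.ext (by omega)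
      rw [this]
    · simp only [Sum.inr.injEq, Fin.mk.injEq] at hab
      have : a = b := Fin.ext hab
      rw [this]
  · rw [hj, hn] at hab
    split_ifs at hab with h
    simp only [Sum.inr.injEq, Fin.mk.injEq] at hab
    omega
  · rw [h3, hn] at hab
    fin_cases b
    · simp only [Fin.zero_eta, Matrix.cons_val_zero, Sum.inr.injEq] at hab
      have := congrArg Fin.val hab
      simp at this
      omega
    · simp at hab
    · simp at hab
  · rw [hj, hn] at hab
    split_ifs at hab with h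
    simp only [Sum.inr.injEq, Fin.mk.injEq] at hab
    omega
  · rw [hn, hn] at hab
    simp only [Sum.inr.injEq, Fin.mk.injEq] at hab
    have : a = b := Fin.ext (by omega)
    rw [this]

/-- unit vectors -/
def un {ι : Type} [DecidableEq ι] (K : Type) [Field K] (i : ι) : ι → K := Pi.single i 1

lemma D_un {ι k K : Type} [Fintype ι] [DecidableEq ι] [Field k] [Field K] [Algebra k K]
    (F : MvPolynomial ι k) (f : ι → K[X]) (i : ι) :
    D F f (un K i) = MvPolynomial.aeval f (MvPolynomial.pderiv i F) := by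
  unfold D un
  rw [Finset.sum_eq_single i]
  · rw [Pi.single_eq_same, C_1, one_mul]
  · intro j _ hj
    rw [Pi.single_eq_of_ne hj, C_0, zero_mul]
  · intro h
    exact absurd (Finset.mem_univ _) h

end C1

theorem t_C1 (h1 : S_VF) (h2 : S_TR) : S_C1 := by
  intro p _ n d hd hdn hp
  obtain ⟨m, rfl⟩ : ∃ m, n = m + 3 := ⟨n - 3, by omega⟩
  let K := AlgebraicClosure (ZMod p)
  refine h2 p (m + 3) d (Fin 3 ⊕ Fin (m + 1)) (C1.F p m d)
    (by rw [Fintype.card_sum, Fintype.card_fin, Fintype.card_fin]; omega) (C1.hom hd)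
    (C1.smooth hd hp) ?_
  have hd0 : ((d : ℕ) : K[X]) = 0 := (CharP.cast_eq_zero_iff _ p d).2 hp
  have hd1 : ((d - 1 : ℕ) : K[X]) = -1 := by
    rw [Nat.cast_sub (by omega), hd0]
    simp
  set b : K[X] := X ^ (d - 1) + 1 with hb
  set ex : Fin 3 ⊕ Fin (m + 1) → K := C1.un K (Sum.inr 0) with hex
  set ey : Fin 3 ⊕ Fin (m + 1) → K := C1.un K (Sum.inl 0) with hey
  set ez : Fin 3 ⊕ Fin (m + 1) → K := C1.un K (Sum.inl 1) with hez
  have hb' : derivative b = - X ^ (d - 2) := by
    rw [hb, derivative_add, derivative_X_pow, derivative_one, add_zero]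
    rw [show (C (((d - 1 : ℕ) : K)) : K[X]) = ((d - 1 : ℕ) : K[X]) from map_natCast C _, hd1,
      show d - 1 - 1 = d - 2 by omega]
    ring
  have hcop : IsCoprime X b := by
    refine ⟨- X ^ (d - 2), 1, ?_⟩
    rw [hb]
    have : (X : K[X]) ^ (d - 1) = X ^ (d - 2) * X := by
      rw [← pow_succ]
      congr 1
      omega
    rw [this]
    ring
  -- the curve
  have c0 : crv X b ex ey ez (Sum.inr 0) = b := by
    simp [crv, hex, hey, hez, C1.un]
  have c1 : crv X b ex ey ez (Sum.inl 0) = X * b := by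
    simp [crv, hex, hey, hez, C1.un]
  have c2 : crv X b ex ey ez (Sum.inl 1) = - X := by
    simp [crv, hex, hey, hez, C1.un]
  have c3 : crv X b ex ey ez (Sum.inl 2) = 0 := by
    simp [crv, hex, hey, hez, C1.un, Pi.single_apply]
  have c4 : ∀ k : Fin m, crv X b ex ey ez (Sum.inr k.succ) = 0 := by
    intro k
    simp [crv, hex, hey, hez, C1.un, Pi.single_apply, Fin.succ_ne_zero]
  have e1 : d - 1 - 1 = d - 2 := by omega
  have z2 : (0 : K[X]) ^ (d - 2) = 0 := zero_pow (by omega)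
  have z1 : (0 : K[X]) ^ (d - 1) = 0 := zero_pow (by omega)
  have zd : (0 : K[X]) ^ d = 0 := zero_pow (by omega)
  have pb : b ^ (d - 1) = b ^ (d - 2) * b := by
    rw [← pow_succ]
    congr 1
    omega
  have pd : b ^ d = b ^ (d - 2) * b * b := by
    rw [← pb, ← pow_succ]
    congr 1
    omega
  have pX : (X : K[X]) ^ (d - 1) = X ^ (d - 2) * X := by
    rw [← pow_succ]
    congr 1
    omega
  refine ⟨d, crv X b ex ey ez, h1 (ZMod p) K (Fin 3 ⊕ Fin (m + 1)) (Fin (m + 3 - d)) (C1.F p m d) d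
    X b ex ey ez (fun j => C1.un K (if (j : ℕ) = 0 then Sum.inl 2 else Sum.inr ⟨(j : ℕ), by omega⟩))
    (fun i => C1.un K (Sum.inr ⟨d - 2 + i, by omega⟩)) (fun j => (- X) ^ (d - 1 - (j : ℕ)))
    hd (C1.hom hd) ?_ ?_ hcop ?_ ?_ ?_ ?_ ?_ ?_ ?_ ?_ ?_⟩
  · -- degree of b
    rw [hb]
    exact natDegree_X_pow_add_C (n := d - 1) (r := (1 : K))
  · exact degree_X_le.trans (by exact_mod_cast (show 1 ≤ d by omega))
  · rw [hb']
    exact (hcop.symm.pow_right).neg_right
  · rw [Fintype.card_sum, Fintype.card_fin, Fintype.card_fin, Fintype.card_fin]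
    omega
  · have := (Pi.basisFun K (Fin 3 ⊕ Fin (m + 1))).linearIndependent.comp (C1.g m d hd hdn)
      (C1.g_inj m d hd hdn)
    convert this using 1
    funext i
    rcases i with i | i | i
    · fin_cases i <;> simp [C1.g, C1.un, hex, hey, hez]
    · simp [C1.g, C1.un]
    · simp [C1.g, C1.un]
  · rw [C1.ev, c0, c1, c2, c3, zero_mul, zd, mul_pow, Finset.sum_eq_zero, Finset.sum_eq_zero]
    · rw [hb]
      ring
    · intro k _
      rw [c4, z1, mul_zero]
    · intro k _
      rw [c4]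
      ring
  · rw [C1.D_un, C1.dU, c0, c1, c2, if_pos rfl, Finset.sum_eq_zero, Finset.sum_eq_zero, hb', hd1, e1,
      derivative_X]
    · rw [hb, pX]
      ring
    · intro k _
      rw [c4, z1, if_neg (Fin.succ_ne_zero k)]
      ring
    · intro k _
      rw [c4, if_neg (Fin.succ_ne_zero k)]
      ring
  · rw [C1.D_un, C1.dY, c0, c1, c2, hb', hd1, e1, derivative_X, mul_pow, pb]
    rw [hb, pX]
    ring
  · rw [C1.D_un, C1.dZ, c0, c1, c2, c3, Finset.sum_eq_zero]
    · rw [pd, mul_pow, pb, hb]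
      ring
    · intro k _
      rw [c4]
      ring
  · intro j
    refine ⟨?_, ?_⟩
    · rw [C1.D_un]
      by_cases hj : (j : ℕ) = 0
      · rw [if_pos hj, C1.dW, c2, c3, z1, mul_zero, add_zero, hj, pow_zero, one_mul, Nat.sub_zero]
      · rw [if_neg hj]
        have hjm : (j : ℕ) - 1 < m := by omega
        have e : (⟨(j : ℕ), by omega⟩ : Fin (m + 1)) = Fin.succ ⟨(j : ℕ) - 1, hjm⟩ := by
          refine Fin.ext ?_
          rw [Fin.val_succ]
          change (j : ℕ) = (j : ℕ) - 1 + 1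
          omega
        rw [e, C1.dU' _ hd c4, c0, c2]
        have e2 : C1.ec p d ((⟨(j : ℕ) - 1, hjm⟩ : Fin m) : ℕ) = 1 := if_pos (by
          change (j : ℕ) - 1 + 4 ≤ d
          omega)
        rw [e2, map_one, one_mul]
        change (-X) ^ (d - 2 - ((j : ℕ) - 1)) * b ^ ((j : ℕ) - 1 + 1) = _
        rw [show (j : ℕ) - 1 + 1 = j by omega, show d - 2 - ((j : ℕ) - 1) = d - 1 - j by omega]
        ring
    · exact (hcop.neg_left.pow_left)
  · intro i
    rw [C1.D_un]
    have him : d - 3 + (i : ℕ) < m := by omega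
    have e : (⟨d - 2 + (i : ℕ), by omega⟩ : Fin (m + 1)) = Fin.succ ⟨d - 3 + (i : ℕ), him⟩ := by
      refine Fin.ext ?_
      rw [Fin.val_succ]
      change d - 2 + (i : ℕ) = d - 3 + (i : ℕ) + 1
      omega
    rw [e, C1.dU' _ hd c4]
    have e2 : C1.ec p d ((⟨d - 3 + (i : ℕ), him⟩ : Fin m) : ℕ) = 0 := if_neg (by
      change ¬ (d - 3 + (i : ℕ) + 4 ≤ d)
      omega)
    rw [e2, map_zero, zero_mul]

end Pool.Agent.SRC68

end
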