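import Pool.Agent.SRC68.Stm

/-! # Project SRC (helper68): piece C2 (helper32) -/

set_option autoImplicit false

open Polynomial

noncomputable section

namespace Pool.Agent.SRC68

namespace C2P

/-- the index type -/
abbrev I (n m : ℕ) : Type := Fin 3 ⊕ Fin (m + 1) ⊕ Fin (n - (m + 3))

/-- `x, y, z` -/
def vx {n m : ℕ} : I n m := Sum.inl 0
def vy {n m : ℕ} : I n m := Sum.inl 1
def vz {n m : ℕ} : I n m := Sum.inl 2
def vw {n m : ℕ} (k : Fin (m + 1)) : I n m := Sum.inr (Sum.inl k)
def vv {n m : ℕ} (k : Fin (n - (m + 3))) : I n m := Sum.inr (Sum.inr k)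

/-- the form -/
def F (p n m : ℕ) : MvPolynomial (I n m) (ZMod p) :=
  MvPolynomial.X vx ^ (m + 3) +
    MvPolynomial.X vz * (MvPolynomial.X vy ^ (m + 2) + MvPolynomial.X vy * MvPolynomial.X vx ^ (m + 1)) +
  ∑ k : Fin (m + 1), MvPolynomial.X (vw k) * MvPolynomial.X vz ^ (m + 2 - (k : ℕ)) *
    MvPolynomial.X vx ^ (k : ℕ) +
  MvPolynomial.X (vw 0) ^ (m + 2) * MvPolynomial.X vy +
  ∑ k : Fin m, MvPolynomial.X (vw k.succ) ^ (m + 3) +
  ∑ k : Fin (n - (m + 3)), MvPolynomial.X (vv k) ^ (m + 3)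

theorem hom (p n m : ℕ) : (F p n m).IsHomogeneous (m + 3) := by
  have hX : ∀ i : I n m, (MvPolynomial.X i : MvPolynomial (I n m) (ZMod p)).IsHomogeneous 1 :=
    fun i => MvPolynomial.isHomogeneous_X _ i
  have hP : ∀ (i : I n m) (k : ℕ),
      ((MvPolynomial.X i : MvPolynomial (I n m) (ZMod p)) ^ k).IsHomogeneous k := by
    intro i k
    simpa using (hX i).pow k
  unfold F
  refine ((((MvPolynomial.IsHomogeneous.add ?_ ?_).add ?_).add ?_).add ?_).add ?_
  · exact hP _ _
  · have h1 := (hX (vy (n := n) (m := m))).mul (hP (vx (n := n) (m := m)) (m + 1))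
    rw [show 1 + (m + 1) = m + 2 by omega] at h1
    have h2 := (hX (vz (n := n) (m := m))).mul ((hP (vy (n := n) (m := m)) (m + 2)).add h1)
    rwa [show 1 + (m + 2) = m + 3 by omega] at h2
  · refine MvPolynomial.IsHomogeneous.sum _ _ _ fun k _ => ?_
    have h2 := ((hX (vw (n := n) k)).mul (hP (vz (n := n) (m := m)) (m + 2 - (k : ℕ)))).mul
      (hP (vx (n := n) (m := m)) (k : ℕ))
    rwa [show 1 + (m + 2 - (k : ℕ)) + (k : ℕ) = m + 3 by have := k.2; omega] at h2
  · exact (hP _ _).mul (hX _)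
  · exact MvPolynomial.IsHomogeneous.sum _ _ _ fun k _ => hP _ _
  · exact MvPolynomial.IsHomogeneous.sum _ _ _ fun k _ => hP _ _

section deriv

variable {p n m : ℕ} {A : Type} [CommRing A] [Algebra (ZMod p) A] (P : I n m → A)

theorem aF : MvPolynomial.aeval P (F p n m) =
    P vx ^ (m + 3) + P vz * (P vy ^ (m + 2) + P vy * P vx ^ (m + 1)) +
      ∑ k : Fin (m + 1), P (vw k) * P vz ^ (m + 2 - (k : ℕ)) * P vx ^ (k : ℕ) +
      P (vw 0) ^ (m + 2) * P vy + ∑ k : Fin m, P (vw k.succ) ^ (m + 3) +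
      ∑ k : Fin (n - (m + 3)), P (vv k) ^ (m + 3) := by
  simp [F]

theorem dx : MvPolynomial.aeval P (MvPolynomial.pderiv vx (F p n m)) =
    ((m + 3 : ℕ) : A) * P vx ^ (m + 2) + P vz * (P vy * (((m + 1 : ℕ) : A) * P vx ^ m)) +
      ∑ k : Fin (m + 1), P (vw k) * P vz ^ (m + 2 - (k : ℕ)) * (((k : ℕ) : A) * P vx ^ ((k : ℕ) - 1)) := by
  simp [F, MvPolynomial.pderiv_X, vx, vy, vz, vw, vv]

theorem dy : MvPolynomial.aeval P (MvPolynomial.pderiv vy (F p n m)) =
    P vz * (((m + 2 : ℕ) : A) * P vy ^ (m + 1) + P vx ^ (m + 1)) + P (vw 0) ^ (m + 2) := by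
  simp [F, MvPolynomial.pderiv_X, vx, vy, vz, vw, vv]

theorem dz : MvPolynomial.aeval P (MvPolynomial.pderiv vz (F p n m)) =
    P vy ^ (m + 2) + P vy * P vx ^ (m + 1) +
      ∑ k : Fin (m + 1), P vx ^ (k : ℕ) *
        (P (vw k) * (((m + 2 - (k : ℕ) : ℕ) : A) * P vz ^ (m + 2 - (k : ℕ) - 1))) := by
  simp [F, MvPolynomial.pderiv_X, vx, vy, vz, vw, vv]

theorem dw0 : MvPolynomial.aeval P (MvPolynomial.pderiv (vw 0) (F p n m)) =
    P vz ^ (m + 2) + P vy * (((m + 2 : ℕ) : A) * P (vw 0) ^ (m + 1)) := by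
  simp [F, MvPolynomial.pderiv_X, Pi.single_apply, vx, vy, vz, vw, vv]

theorem dws (k : Fin m) : MvPolynomial.aeval P (MvPolynomial.pderiv (vw k.succ) (F p n m)) =
    P vx ^ ((k : ℕ) + 1) * P vz ^ (m + 1 - (k : ℕ)) + ((m + 3 : ℕ) : A) * P (vw k.succ) ^ (m + 2) := by
  simp [F, MvPolynomial.pderiv_X, Pi.single_apply, vx, vy, vz, vw, vv]

theorem dv (k : Fin (n - (m + 3))) : MvPolynomial.aeval P (MvPolynomial.pderiv (vv k) (F p n m)) =
    ((m + 3 : ℕ) : A) * P (vv k) ^ (m + 2) := by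
  simp [F, MvPolynomial.pderiv_X, Pi.single_apply, vx, vy, vz, vw, vv]

end deriv

section smooth

variable {p n m : ℕ} [Fact p.Prime]

theorem smooth (hp : p ∣ m + 2) : IsSmooth (AlgebraicClosure (ZMod p)) (F p n m) := by
  intro P hF hd
  have h2 : ((m + 2 : ℕ) : AlgebraicClosure (ZMod p)) = 0 :=
    (CharP.cast_eq_zero_iff (AlgebraicClosure (ZMod p)) p (m + 2)).2 hp
  have h3 : ((m + 3 : ℕ) : AlgebraicClosure (ZMod p)) = 1 := by
    have : ((m + 3 : ℕ) : AlgebraicClosure (ZMod p)) = ((m + 2 : ℕ) : AlgebraicClosure (ZMod p)) + 1 := by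
      push_cast; ring
    rw [this, h2, zero_add]
  -- `z = 0`
  have hz : P vz = 0 := by
    have h := hd (vw 0)
    rw [dw0, h2, zero_mul, mul_zero, add_zero] at h
    exact pow_eq_zero_iff (by omega) |>.1 h
  have hws : ∀ k : Fin m, P (vw k.succ) = 0 := by
    intro k
    have h := hd (vw k.succ)
    rw [dws, hz, zero_pow (by have := k.2; omega), mul_zero, zero_add, h3, one_mul] at h
    exact pow_eq_zero_iff (by omega) |>.1 h
  have hvs : ∀ k, P (vv k) = 0 := by
    intro k
    have h := hd (vv k)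
    rw [dv, h3, one_mul] at h
    exact pow_eq_zero_iff (by omega) |>.1 h
  have hx : P vx = 0 := by
    have h := hd vx
    rw [dx, hz, zero_mul, add_zero, h3, one_mul] at h
    rw [Finset.sum_eq_zero, add_zero] at h
    · exact pow_eq_zero_iff (by omega) |>.1 h
    · intro k _
      rw [zero_pow (by have := k.2; omega)]
      ring
  have hy : P vy = 0 := by
    have h := hd vy
    have h' := hd vz
    rw [dz, hx, zero_pow (by omega : m + 1 ≠ 0), mul_zero, add_zero] at h'
    rw [Finset.sum_eq_zero, add_zero] at h'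
    · exact pow_eq_zero_iff (by omega) |>.1 h'
    · intro k _
      rw [hz, zero_pow (show m + 2 - (k : ℕ) - 1 ≠ 0 by have := k.2; omega)]
      ring
  have hw0 : P (vw 0) = 0 := by
    have h := hd vy
    rw [dy, hz, zero_mul, zero_add] at h
    exact pow_eq_zero_iff (by omega) |>.1 h
  funext i
  rcases i with i | k | k
  · fin_cases i
    · exact hx
    · exact hy
    · exact hz
  · refine Fin.cases ?_ ?_ k
    · exact hw0
    · exact hws
  · exact hvs k

end smooth

section curve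

theorem alg1 {A : Type} [CommRing A] (x b : A) (m : ℕ) (h : b = x ^ (m + 2) + x) :
    b ^ (m + 3) + -1 * ((x * b) ^ (m + 2) + x * b * b ^ (m + 1)) = 0 := by
  linear_combination (b ^ (m + 2)) * h

theorem alg2 {A : Type} [CommRing A] (x b : A) (m : ℕ) (h : b = x ^ (m + 2) + x) :
    (x * b) ^ (m + 2) + x * b * b ^ (m + 1) = b ^ (m + 3) := by
  linear_combination -(b ^ (m + 2)) * h

variable {p n m : ℕ} [Fact p.Prime]

theorem vfree (h1 : S_VF) (hn : m + 3 ≤ n) (hp : p ∣ m + 2) :
    SRC (AlgebraicClosure (ZMod p)) (F p n m) := by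
  set K := AlgebraicClosure (ZMod p) with hK
  have h2 : ((m + 2 : ℕ) : K) = 0 :=
    (CharP.cast_eq_zero_iff (AlgebraicClosure (ZMod p)) p (m + 2)).2 hp
  have h2' : ((m + 2 : ℕ) : K[X]) = 0 := by
    rw [← Polynomial.C_eq_natCast, h2, C_0]
  have h3' : ((m + 3 : ℕ) : K[X]) = 1 := by
    have : ((m + 3 : ℕ) : K[X]) = ((m + 2 : ℕ) : K[X]) + 1 := by
      push_cast; ring
    rw [this, h2', zero_add]
  have h1' : ((m + 1 : ℕ) : K[X]) = -1 := by
    have : ((m + 2 : ℕ) : K[X]) = ((m + 1 : ℕ) : K[X]) + 1 := by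
      push_cast; ring
    rw [h2'] at this
    linear_combination - this
  set b : K[X] := X ^ (m + 2) + X with hb
  have hbd : b.natDegree = m + 2 := by
    rw [hb]
    rw [Polynomial.natDegree_add_eq_left_of_natDegree_lt]
    · simp
    · simp
  have hb' : derivative b = 1 := by
    rw [hb, derivative_add, derivative_X_pow, derivative_X, h2, C_0, zero_mul, zero_add]
  set ex : I n m → K := Pi.single vx 1 with hex
  set ey : I n m → K := Pi.single vy 1 with hey
  set ez : I n m → K := Pi.single vz 1 with hez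
  set f := crv (1 : K[X]) b ex ey ez with hf
  have fx : f vx = b := by
    simp [hf, crv, hex, hey, hez, Pi.single_apply, vx, vy, vz]
  have fy : f vy = X * b := by
    simp [hf, crv, hex, hey, hez, Pi.single_apply, vx, vy, vz]
  have fz : f vz = -1 := by
    simp [hf, crv, hex, hey, hez, Pi.single_apply, vx, vy, vz]
  have fw : ∀ k, f (vw k) = 0 := by
    intro k
    simp [hf, crv, hex, hey, hez, Pi.single_apply, vx, vy, vz, vw]
  have fv : ∀ k, f (vv k) = 0 := by
    intro k
    simp [hf, crv, hex, hey, hez, Pi.single_apply, vx, vy, vz, vv]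
  have hD : ∀ i : I n m, D (F p n m) f (Pi.single i 1) =
      MvPolynomial.aeval f (MvPolynomial.pderiv i (F p n m)) := by
    intro i
    rw [D, Finset.sum_eq_single i]
    · simp
    · intro j _ hj
      simp [Pi.single_apply, hj]
    · intro h
      exact absurd (Finset.mem_univ _) h
  have hb0 : b ≠ 0 := by
    intro h
    rw [h] at hbd
    simp at hbd
  have e1 : m + 3 - 2 = m + 1 := rfl
  have key : ∀ k : Fin (m + 1), D (F p n m) f (Pi.single (vw k) 1) =
      b ^ (k : ℕ) * (-1) ^ (m + 2 - (k : ℕ)) := by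
    intro k
    rw [hD]
    refine Fin.cases ?_ (fun j => ?_) k
    · rw [dw0, fz, h2', zero_mul, mul_zero, add_zero]
      simp
    · rw [dws, fz, fx, fw, zero_pow (by omega), mul_zero, add_zero, Fin.val_succ]
      congr 2
      have := j.2
      omega
  refine ⟨m + 3, f, h1 (ZMod p) K (I n m) (Fin (n - (m + 3))) (F p n m) (m + 3) 1 b ex ey ez
    (fun k => Pi.single (vw k) 1) (fun k => Pi.single (vv k) 1) (fun k => (-1) ^ (m + 2 - (k : ℕ)))
    (by omega) (hom p n m) hbd ?_ isCoprime_one_left ?_ ?_ ?_ ?_ ?_ ?_ ?_ ?_ ?_⟩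
  · exact le_trans Polynomial.degree_one_le (by positivity)
  · rw [hb']; exact isCoprime_one_right
  · simp only [Fintype.card_sum, Fintype.card_fin]
    omega
  · have hli : LinearIndependent K (fun i : I n m => (Pi.single i (1 : K) : I n m → K)) :=
      Pi.linearIndependent_single_one (I n m) K
    have e : (Sum.elim ![ex, ey, ez] (Sum.elim (fun k : Fin (m + 1) => Pi.single (vw k) 1)
        (fun k => Pi.single (vv k) 1)) : I n m → I n m → K) = fun i => Pi.single i 1 := by
      funext i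
      rcases i with i | k | k
      · fin_cases i
        · rfl
        · rfl
        · rfl
      · rfl
      · rfl
    change LinearIndependent K (Sum.elim ![ex, ey, ez] (Sum.elim (fun k : Fin (m + 1) => Pi.single (vw k) 1)
        (fun k => Pi.single (vv k) 1)) : I n m → I n m → K)
    rw [e]
    exact hli
  · rw [← hf, aF, fx, fy, fz, fw, zero_pow (by omega), zero_mul, add_zero, Finset.sum_eq_zero,
      Finset.sum_eq_zero, Finset.sum_eq_zero]
    · simpa using alg1 X b m hb
    · intro k _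
      rw [fv, zero_pow (by omega)]
    · intro k _
      rw [fw, zero_pow (by omega)]
    · intro k _
      rw [fw, zero_mul, zero_mul]
  · rw [← hf, hex, hD, dx, fx, fy, fz, h3', h1', hb', derivative_one, Finset.sum_eq_zero]
    · rw [e1]; ring
    · intro k _
      rw [fw, zero_mul, zero_mul]
  · rw [← hf, hey, hD, dy, fx, fy, fz, h2', fw, zero_pow (by omega), hb', derivative_one,
      e1]
    ring
  · rw [← hf, hez, hD, dz, fx, fy, fz, Finset.sum_eq_zero]
    · simpa using alg2 X b m hb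
    · intro k _
      rw [fw, zero_mul, mul_zero]
  · intro k
    rw [← hf]
    exact ⟨key k, IsCoprime.pow_left (isCoprime_one_left.neg_left)⟩
  · intro k
    rw [← hf, hD, dv, fv, zero_pow (by omega), mul_zero]

end curve

end C2P

theorem t_C2 (h1 : S_VF) (h2 : S_TR) : S_C2 := by
  intro p _ n d hd hn hp
  obtain ⟨m, rfl⟩ : ∃ m, d = m + 3 := ⟨d - 3, by omega⟩
  exact h2 p n (m + 3) (C2P.I n m) (C2P.F p n m)
    (by simp only [Fintype.card_sum, Fintype.card_fin]; omega) (C2P.hom p n m)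
    (C2P.smooth (by simpa using hp)) (C2P.vfree h1 hn (by simpa using hp))

end Pool.Agent.SRC68

end
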