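import Pool.Agent.SRC68.Stm

set_option autoImplicit false
set_option linter.unusedSimpArgs false
set_option linter.unusedSectionVars false

open Polynomial

noncomputable section

namespace Pool.Agent.SRC68

namespace C3P

section gen

/-- homogeneity -/
theorem aeval_smul' {σ k A : Type} [CommRing k] [CommRing A] [Algebra k A] (Q : MvPolynomial σ k) (N : ℕ)
    (hQ : Q.IsHomogeneous N) (c : A) (g : σ → A) :
    MvPolynomial.aeval (fun i => c * g i) Q = c ^ N * MvPolynomial.aeval g Q := by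
  rw [MvPolynomial.aeval_def, MvPolynomial.aeval_def, MvPolynomial.eval₂_eq, MvPolynomial.eval₂_eq,
    Finset.mul_sum]
  refine Finset.sum_congr rfl fun s hs => ?_
  have h1 : s.degree = N := by
    exact (hQ.degree_eq_sum_deg_support hs).symm
  have h2 : ∏ i ∈ s.support, (c * g i) ^ s i = c ^ N * ∏ i ∈ s.support, g i ^ s i := by
    simp only [mul_pow]
    rw [Finset.prod_mul_distrib, Finset.prod_pow_eq_pow_sum, ← h1]
    rfl
  rw [h2]
  ring

/-- the chain rule -/
theorem chain {β k : Type} [Fintype β] [DecidableEq β] [Field k] (g : β → k[X]) (H : MvPolynomial β k) :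
    derivative (MvPolynomial.aeval g H) =
      ∑ i, derivative (g i) * MvPolynomial.aeval g (MvPolynomial.pderiv i H) := by
  induction H using MvPolynomial.induction_on with
  | C a => simp
  | add p q hp hq =>
    simp only [map_add, hp, hq, mul_add, Finset.sum_add_distrib]
  | mul_X p j hp =>
    simp only [map_mul, MvPolynomial.aeval_X, derivative_mul, hp, MvPolynomial.pderiv_mul, map_add,
      MvPolynomial.pderiv_X, mul_add, Finset.sum_add_distrib, Finset.sum_mul]
    congr 1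
    · refine Finset.sum_congr rfl fun i _ => ?_
      ring
    · rw [Finset.sum_eq_single j]
      · simp
        ring
      · intro i _ hi
        simp [Pi.single_apply, hi.symm]
      · intro h
        exact absurd (Finset.mem_univ _) h

theorem pd_rename {β ι k : Type} [CommRing k] [DecidableEq ι] (vb : β → ι) (hv : Function.Injective vb)
    (H : MvPolynomial β k) (i : β) : MvPolynomial.pderiv (vb i) (MvPolynomial.rename vb H) =
      MvPolynomial.rename vb (MvPolynomial.pderiv i H) := by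
  classical
  induction H using MvPolynomial.induction_on with
  | C a => simp
  | add p q hp hq => simp only [map_add, hp, hq]
  | mul_X p j hp =>
    simp only [map_mul, MvPolynomial.rename_X, MvPolynomial.pderiv_mul, hp, map_add,
      MvPolynomial.pderiv_X]
    by_cases h : j = i
    · subst h; simp
    · have h' : vb j ≠ vb i := fun h' => h (hv h')
      simp [Pi.single_apply, h, h']

theorem pd_rename' {β ι k : Type} [CommRing k] [DecidableEq ι] (vb : β → ι)
    (H : MvPolynomial β k) (j : ι) (hj : ∀ i, vb i ≠ j) :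
    MvPolynomial.pderiv j (MvPolynomial.rename vb H) = 0 := by
  classical
  induction H using MvPolynomial.induction_on with
  | C a => simp
  | add p q hp hq => simp only [map_add, hp, hq, add_zero]
  | mul_X p i hp =>
    simp only [map_mul, MvPolynomial.rename_X, MvPolynomial.pderiv_mul, hp, zero_mul, zero_add,
      MvPolynomial.pderiv_X]
    simp [Pi.single_apply, hj i]

end gen

section defs

variable (p n d : ℕ) (β : Type) (K₁ K₂ : Finset ℕ)

/-- the index type -/
abbrev I : Type := Fin 3 ⊕ ({k // k ∈ K₁} ⊕ {k // k ∈ K₂}) ⊕ (β ⊕ Fin (n - d))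

variable {p n d β K₁ K₂}

/-- `x`, `y`, `z`, `w`, the joined variables and the `v` -/
def vx : I n d β K₁ K₂ := Sum.inl 0
def vy : I n d β K₁ K₂ := Sum.inl 1
def vz : I n d β K₁ K₂ := Sum.inl 2
def w1 (k : {k // k ∈ K₁}) : I n d β K₁ K₂ := Sum.inr (Sum.inl (Sum.inl k))
def w2 (k : {k // k ∈ K₂}) : I n d β K₁ K₂ := Sum.inr (Sum.inl (Sum.inr k))
def vb (i : β) : I n d β K₁ K₂ := Sum.inr (Sum.inr (Sum.inl i))
def vv (i : Fin (n - d)) : I n d β K₁ K₂ := Sum.inr (Sum.inr (Sum.inr i))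

variable (p n d K₁ K₂)

/-- the form -/
def F (h : (ZMod p)[X]) (H : MvPolynomial β (ZMod p)) (θ : β) : MvPolynomial (I n d β K₁ K₂) (ZMod p) :=
  MvPolynomial.X vz * MvPolynomial.X vy ^ (d - 1) +
  ∑ i ∈ Finset.range (d + 1), MvPolynomial.C (h.coeff i) *
    (MvPolynomial.X vx ^ i * MvPolynomial.X vz ^ (d - i)) +
  ∑ k : {k // k ∈ K₁}, MvPolynomial.X (w1 k) * (MvPolynomial.X (vb θ) ^ p *
    (MvPolynomial.X vx ^ (k : ℕ) * MvPolynomial.X vz ^ (d - 1 - (k : ℕ) - p))) +
  ∑ k : {k // k ∈ K₁}, MvPolynomial.X (w1 k) ^ d +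
  ∑ k : {k // k ∈ K₂}, MvPolynomial.X (w2 k) * (MvPolynomial.X vy ^ p *
    (MvPolynomial.X vx ^ ((k : ℕ) - p) * MvPolynomial.X vz ^ (d - 1 - (k : ℕ)))) +
  ∑ k : {k // k ∈ K₂}, MvPolynomial.X (w2 k) ^ d +
  MvPolynomial.rename vb H + ∑ k : Fin (n - d), MvPolynomial.X (vv k) ^ d

variable {p n d K₁ K₂}

variable [Fintype β] [DecidableEq β] {A : Type} [CommRing A] [Algebra (ZMod p) A]
  (P : I n d β K₁ K₂ → A) (h : (ZMod p)[X]) (H : MvPolynomial β (ZMod p)) (θ : β)

theorem vb_inj : Function.Injective (vb : β → I n d β K₁ K₂) := by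
  intro i j hij
  simpa [vb] using hij

theorem aF : MvPolynomial.aeval P (F p n d K₁ K₂ h H θ) =
    P vz * P vy ^ (d - 1) +
    ∑ i ∈ Finset.range (d + 1), algebraMap (ZMod p) A (h.coeff i) * (P vx ^ i * P vz ^ (d - i)) +
    ∑ k : {k // k ∈ K₁}, P (w1 k) * (P (vb θ) ^ p * (P vx ^ (k : ℕ) * P vz ^ (d - 1 - (k : ℕ) - p))) +
    ∑ k : {k // k ∈ K₁}, P (w1 k) ^ d +
    ∑ k : {k // k ∈ K₂}, P (w2 k) * (P vy ^ p * (P vx ^ ((k : ℕ) - p) * P vz ^ (d - 1 - (k : ℕ)))) +
    ∑ k : {k // k ∈ K₂}, P (w2 k) ^ d +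
    MvPolynomial.aeval (fun i => P (vb i)) H + ∑ k : Fin (n - d), P (vv k) ^ d := by
  simp only [F, map_add, map_sum, map_mul, map_pow, MvPolynomial.aeval_X, MvPolynomial.aeval_C,
    MvPolynomial.aeval_rename]
  rfl

theorem aX (i j : I n d β K₁ K₂) : MvPolynomial.aeval P (MvPolynomial.pderiv i
    (MvPolynomial.X j : MvPolynomial (I n d β K₁ K₂) (ZMod p))) = if i = j then 1 else 0 := by
  rw [MvPolynomial.pderiv_X, Pi.single_apply]
  by_cases h : i = j
  · subst h; simp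
  · have h' : j ≠ i := fun e => h e.symm
    simp [h, h']

theorem dx (hp : (p : A) = 0) : MvPolynomial.aeval P (MvPolynomial.pderiv vx (F p n d K₁ K₂ h H θ)) =
    ∑ i ∈ Finset.range (d + 1), algebraMap (ZMod p) A (h.coeff i) *
      ((i : A) * P vx ^ (i - 1) * P vz ^ (d - i)) +
    ∑ k : {k // k ∈ K₁}, P (w1 k) * (P (vb θ) ^ p * (((k : ℕ) : A) * P vx ^ ((k : ℕ) - 1) *
      P vz ^ (d - 1 - (k : ℕ) - p))) +
    ∑ k : {k // k ∈ K₂}, P (w2 k) * (P vy ^ p * (((k - p : ℕ) : A) * P vx ^ ((k : ℕ) - p - 1) *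
      P vz ^ (d - 1 - (k : ℕ)))) := by
  have hr : MvPolynomial.pderiv (vx : I n d β K₁ K₂) (MvPolynomial.rename vb H) = 0 :=
    pd_rename' vb H vx (by intro i; simp [vb, vx])
  simp only [F, map_add, map_sum, MvPolynomial.pderiv_mul, MvPolynomial.pderiv_pow, map_mul, map_pow,
    MvPolynomial.aeval_X, hr, aX, MvPolynomial.pderiv_C, map_zero, MvPolynomial.aeval_C, map_natCast, hp]
  simp [vx, vy, vz, w1, w2, vb, vv]


theorem dy (hp : (p : A) = 0) : MvPolynomial.aeval P (MvPolynomial.pderiv vy (F p n d K₁ K₂ h H θ)) =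
    P vz * (((d - 1 : ℕ) : A) * P vy ^ (d - 1 - 1)) := by
  have hr : MvPolynomial.pderiv (vy : I n d β K₁ K₂) (MvPolynomial.rename vb H) = 0 :=
    pd_rename' vb H vy (by intro i; simp [vb, vy])
  simp only [F, map_add, map_sum, MvPolynomial.pderiv_mul, MvPolynomial.pderiv_pow, map_mul, map_pow,
    MvPolynomial.aeval_X, hr, aX, MvPolynomial.pderiv_C, map_zero, MvPolynomial.aeval_C, map_natCast, hp]
  simp [vx, vy, vz, w1, w2, vb, vv]

theorem dz (hp : (p : A) = 0) : MvPolynomial.aeval P (MvPolynomial.pderiv vz (F p n d K₁ K₂ h H θ)) =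
    P vy ^ (d - 1) + ∑ i ∈ Finset.range (d + 1), algebraMap (ZMod p) A (h.coeff i) *
      (P vx ^ i * (((d - i : ℕ) : A) * P vz ^ (d - i - 1))) +
    ∑ k : {k // k ∈ K₁}, P (w1 k) * (P (vb θ) ^ p * (P vx ^ (k : ℕ) *
      (((d - 1 - k - p : ℕ) : A) * P vz ^ (d - 1 - (k : ℕ) - p - 1)))) +
    ∑ k : {k // k ∈ K₂}, P (w2 k) * (P vy ^ p * (P vx ^ ((k : ℕ) - p) *
      (((d - 1 - k : ℕ) : A) * P vz ^ (d - 1 - (k : ℕ) - 1)))) := by
  have hr : MvPolynomial.pderiv (vz : I n d β K₁ K₂) (MvPolynomial.rename vb H) = 0 :=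
    pd_rename' vb H vz (by intro i; simp [vb, vz])
  simp only [F, map_add, map_sum, MvPolynomial.pderiv_mul, MvPolynomial.pderiv_pow, map_mul, map_pow,
    MvPolynomial.aeval_X, hr, aX, MvPolynomial.pderiv_C, map_zero, MvPolynomial.aeval_C, map_natCast, hp]
  simp [vx, vy, vz, w1, w2, vb, vv]

theorem dw1 (hp : (p : A) = 0) (k : {k // k ∈ K₁}) :
    MvPolynomial.aeval P (MvPolynomial.pderiv (w1 k) (F p n d K₁ K₂ h H θ)) =
    P (vb θ) ^ p * (P vx ^ (k : ℕ) * P vz ^ (d - 1 - (k : ℕ) - p)) + (d : A) * P (w1 k) ^ (d - 1) := by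
  have hr : MvPolynomial.pderiv (w1 k : I n d β K₁ K₂) (MvPolynomial.rename vb H) = 0 :=
    pd_rename' vb H (w1 k) (by intro i; simp [vb, w1])
  simp only [F, map_add, map_sum, MvPolynomial.pderiv_mul, MvPolynomial.pderiv_pow, map_mul, map_pow,
    MvPolynomial.aeval_X, hr, aX, MvPolynomial.pderiv_C, map_zero, MvPolynomial.aeval_C, map_natCast, hp]
  simp [vx, vy, vz, w1, w2, vb, vv]

theorem dw2 (hp : (p : A) = 0) (k : {k // k ∈ K₂}) :
    MvPolynomial.aeval P (MvPolynomial.pderiv (w2 k) (F p n d K₁ K₂ h H θ)) =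
    P vy ^ p * (P vx ^ ((k : ℕ) - p) * P vz ^ (d - 1 - (k : ℕ))) + (d : A) * P (w2 k) ^ (d - 1) := by
  have hr : MvPolynomial.pderiv (w2 k : I n d β K₁ K₂) (MvPolynomial.rename vb H) = 0 :=
    pd_rename' vb H (w2 k) (by intro i; simp [vb, w2])
  simp only [F, map_add, map_sum, MvPolynomial.pderiv_mul, MvPolynomial.pderiv_pow, map_mul, map_pow,
    MvPolynomial.aeval_X, hr, aX, MvPolynomial.pderiv_C, map_zero, MvPolynomial.aeval_C, map_natCast, hp]
  simp [vx, vy, vz, w1, w2, vb, vv]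

theorem dv (hp : (p : A) = 0) (k : Fin (n - d)) :
    MvPolynomial.aeval P (MvPolynomial.pderiv (vv k) (F p n d K₁ K₂ h H θ)) =
    (d : A) * P (vv k) ^ (d - 1) := by
  have hr : MvPolynomial.pderiv (vv k : I n d β K₁ K₂) (MvPolynomial.rename vb H) = 0 :=
    pd_rename' vb H (vv k) (by intro i; simp [vb, vv])
  simp only [F, map_add, map_sum, MvPolynomial.pderiv_mul, MvPolynomial.pderiv_pow, map_mul, map_pow,
    MvPolynomial.aeval_X, hr, aX, MvPolynomial.pderiv_C, map_zero, MvPolynomial.aeval_C, map_natCast, hp]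
  simp [vx, vy, vz, w1, w2, vb, vv]

theorem db (hp : (p : A) = 0) (i : β) :
    MvPolynomial.aeval P (MvPolynomial.pderiv (vb i) (F p n d K₁ K₂ h H θ)) =
    MvPolynomial.aeval (fun i => P (vb i)) (MvPolynomial.pderiv i H) := by
  have hr : MvPolynomial.pderiv (vb i : I n d β K₁ K₂) (MvPolynomial.rename vb H) =
    MvPolynomial.rename vb (MvPolynomial.pderiv i H) := pd_rename vb vb_inj H i
  simp only [F, map_add, map_sum, MvPolynomial.pderiv_mul, MvPolynomial.pderiv_pow, map_mul, map_pow,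
    MvPolynomial.aeval_X, hr, aX, MvPolynomial.pderiv_C, map_zero, MvPolynomial.aeval_C, map_natCast, hp,
    MvPolynomial.aeval_rename]
  simp [vx, vy, vz, w1, w2, vb, vv, Function.comp_def]

theorem hom (hd : 3 ≤ d) (h1 : ∀ k ∈ K₁, 1 ≤ k ∧ k + p + 1 ≤ d) (h2 : ∀ k ∈ K₂, p ≤ k ∧ k + 3 ≤ d)
    (hH : H.IsHomogeneous d) : (F p n d K₁ K₂ h H θ).IsHomogeneous d := by
  have hX : ∀ i : I n d β K₁ K₂, (MvPolynomial.X i :
      MvPolynomial (I n d β K₁ K₂) (ZMod p)).IsHomogeneous 1 :=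
    fun i => MvPolynomial.isHomogeneous_X _ i
  have hP : ∀ (i : I n d β K₁ K₂) (k : ℕ),
      ((MvPolynomial.X i : MvPolynomial (I n d β K₁ K₂) (ZMod p)) ^ k).IsHomogeneous k := by
    intro i k
    simpa using (hX i).pow k
  have cast : ∀ {f : MvPolynomial (I n d β K₁ K₂) (ZMod p)} {a b : ℕ}, f.IsHomogeneous a →
      a = b → f.IsHomogeneous b := by
    intro f a b hf e
    rwa [← e]
  unfold F
  refine (((((((?_ : MvPolynomial.IsHomogeneous _ d).add ?_).add ?_).add ?_).add ?_).add ?_).add ?_).add ?_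
  · exact cast ((hX _).mul (hP _ _)) (by omega)
  · refine MvPolynomial.IsHomogeneous.sum _ _ _ fun k hk => ?_
    have := Finset.mem_range.1 hk
    exact cast ((MvPolynomial.isHomogeneous_C _ _).mul ((hP _ _).mul (hP _ _))) (by omega)
  · refine MvPolynomial.IsHomogeneous.sum _ _ _ fun k hk => ?_
    have := h1 k k.2
    exact cast ((hX _).mul ((hP _ _).mul ((hP _ _).mul (hP _ _)))) (by omega)
  · exact MvPolynomial.IsHomogeneous.sum _ _ _ fun k _ => hP _ _
  · refine MvPolynomial.IsHomogeneous.sum _ _ _ fun k hk => ?_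
    have := h2 k k.2
    exact cast ((hX _).mul ((hP _ _).mul ((hP _ _).mul (hP _ _)))) (by omega)
  · exact MvPolynomial.IsHomogeneous.sum _ _ _ fun k _ => hP _ _
  · exact hH.rename_isHomogeneous
  · exact MvPolynomial.IsHomogeneous.sum _ _ _ fun k _ => hP _ _


theorem ae0 (hdeg : h.natDegree ≤ d) (s : A) : aeval s h =
    ∑ i ∈ Finset.range (d + 1), algebraMap (ZMod p) A (h.coeff i) * s ^ i := by
  conv_lhs => rw [h.as_sum_range_C_mul_X_pow' (Nat.lt_succ_of_le hdeg)]
  simp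

theorem ae1 (hdeg : h.natDegree ≤ d) (s : A) : aeval s (derivative h) =
    ∑ i ∈ Finset.range (d + 1), algebraMap (ZMod p) A (h.coeff i) * ((i : A) * s ^ (i - 1)) := by
  conv_lhs => rw [h.as_sum_range_C_mul_X_pow' (Nat.lt_succ_of_le hdeg)]
  simp [derivative_X_pow]

theorem ho0 (hdeg : h.natDegree ≤ d) (x z s : A) (hx : x = z * s) :
    ∑ i ∈ Finset.range (d + 1), algebraMap (ZMod p) A (h.coeff i) * (x ^ i * z ^ (d - i)) =
      z ^ d * aeval s h := by
  rw [ae0 h hdeg, Finset.mul_sum]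
  refine Finset.sum_congr rfl fun i hi => ?_
  obtain ⟨j, hj⟩ : ∃ j, d = i + j := ⟨d - i, by have := Finset.mem_range.1 hi; omega⟩
  subst hj
  rw [hx, Nat.add_sub_cancel_left]
  ring

theorem ho1 (hdeg : h.natDegree ≤ d) (x z s : A) (hx : x = z * s) :
    ∑ i ∈ Finset.range (d + 1), algebraMap (ZMod p) A (h.coeff i) *
      ((i : A) * x ^ (i - 1) * z ^ (d - i)) = z ^ (d - 1) * aeval s (derivative h) := by
  rw [ae1 h hdeg, Finset.mul_sum]
  refine Finset.sum_congr rfl fun i hi => ?_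
  rcases i with _ | i
  · simp
  obtain ⟨j, hj⟩ : ∃ j, d = i + 1 + j := ⟨d - (i + 1), by have := Finset.mem_range.1 hi; omega⟩
  subst hj
  rw [hx, Nat.add_sub_cancel_left, show i + 1 + j - 1 = i + j by omega, Nat.add_sub_cancel]
  ring

theorem ho2 (hdeg : h.natDegree ≤ d) (x z s : A) (hx : x = z * s) :
    ∑ i ∈ Finset.range (d + 1), algebraMap (ZMod p) A (h.coeff i) *
      (x ^ i * (((d - i : ℕ) : A) * z ^ (d - i - 1))) =
      z ^ (d - 1) * ((d : A) * aeval s h - s * aeval s (derivative h)) := by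
  rw [ae1 h hdeg, ae0 h hdeg, Finset.mul_sum, Finset.mul_sum, ← Finset.sum_sub_distrib, Finset.mul_sum]
  refine Finset.sum_congr rfl fun i hi => ?_
  have e1 : s * (algebraMap (ZMod p) A (h.coeff i) * ((i : A) * s ^ (i - 1))) =
      algebraMap (ZMod p) A (h.coeff i) * ((i : A) * s ^ i) := by
    rcases i with _ | i
    · simp
    · rw [Nat.add_sub_cancel]; ring
  rw [e1]
  obtain ⟨j, hj⟩ : ∃ j, d = i + j := ⟨d - i, by have := Finset.mem_range.1 hi; omega⟩
  subst hj
  rw [hx, Nat.add_sub_cancel_left]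
  rcases j with _ | j
  · rw [Nat.cast_zero, zero_mul, mul_zero, mul_zero, Nat.add_zero]
    ring
  · rw [Nat.add_sub_cancel, show i + (j + 1) - 1 = i + j by omega]
    push_cast
    ring

theorem smooth [Fact p.Prime] (hd : 3 ≤ d) (h0 : ¬ p ∣ d) (h0' : ¬ p ∣ d - 1)
    (h2 : ∀ k ∈ K₂, p ≤ k ∧ k + 3 ≤ d)
    (hH : ∀ c : β → AlgebraicClosure (ZMod p),
      (∀ i, MvPolynomial.aeval c (MvPolynomial.pderiv i H) = 0) → c = 0)
    (hdeg : h.natDegree = d) (hs : h.Separable) :
    IsSmooth (AlgebraicClosure (ZMod p)) (F p n d K₁ K₂ h H θ) := by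
  intro P _ hP
  have hp0 : (p : AlgebraicClosure (ZMod p)) = 0 := CharP.cast_eq_zero _ p
  have hd0 : (d : AlgebraicClosure (ZMod p)) ≠ 0 :=
    fun e => h0 ((CharP.cast_eq_zero_iff (AlgebraicClosure (ZMod p)) p d).1 e)
  have hd1 : ((d - 1 : ℕ) : AlgebraicClosure (ZMod p)) ≠ 0 :=
    fun e => h0' ((CharP.cast_eq_zero_iff (AlgebraicClosure (ZMod p)) p (d - 1)).1 e)
  have hppos : p ≠ 0 := (Fact.out : p.Prime).ne_zero
  have hd' : d - 1 ≠ 0 := by omega
  have hb : ∀ i, P (vb i) = 0 := by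
    have h3 := hH (fun i => P (vb i)) fun i => by rw [← db P h H θ hp0 i]; exact hP _
    intro i
    exact congrFun h3 i
  have hv : ∀ i, P (vv i) = 0 := by
    intro i
    have h3 := hP (vv i)
    rw [dv P h H θ hp0] at h3
    exact (pow_eq_zero_iff hd').1 ((mul_eq_zero.1 h3).resolve_left hd0)
  have hw1 : ∀ k, P (w1 k) = 0 := by
    intro k
    have h3 := hP (w1 k)
    rw [dw1 P h H θ hp0, hb, zero_pow hppos, zero_mul, zero_add] at h3
    exact (pow_eq_zero_iff hd').1 ((mul_eq_zero.1 h3).resolve_left hd0)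
  have hx0 := hP vx
  rw [dx P h H θ hp0] at hx0
  have hy0 := hP vy
  rw [dy P h H θ hp0] at hy0
  have hz0 := hP vz
  rw [dz P h H θ hp0] at hz0
  have hw2 : P vz = 0 ∨ P vy = 0 → ∀ k, P (w2 k) = 0 := by
    intro h4 k
    have h3 := hP (w2 k)
    have := h2 k k.2
    rw [dw2 P h H θ hp0] at h3
    have h5 : P vy ^ p * (P vx ^ ((k : ℕ) - p) * P vz ^ (d - 1 - (k : ℕ))) = 0 := by
      rcases h4 with h4 | h4
      · rw [h4, zero_pow (by omega : d - 1 - (k : ℕ) ≠ 0)]; ring
      · rw [h4, zero_pow hppos]; ring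
    rw [h5, zero_add] at h3
    exact (pow_eq_zero_iff hd').1 ((mul_eq_zero.1 h3).resolve_left hd0)
  have hzy : P vz = 0 ∨ P vy = 0 := by
    rcases mul_eq_zero.1 hy0 with h3 | h3
    · exact Or.inl h3
    · exact Or.inr ((pow_eq_zero_iff (by omega)).1 ((mul_eq_zero.1 h3).resolve_left hd1))
  have hw := hw2 hzy
  simp only [hw1, hw, zero_mul, Finset.sum_const_zero, add_zero] at hx0 hz0
  have hz : P vz = 0 := by
    by_contra hz
    have hy : P vy = 0 := hzy.resolve_left hz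
    have hxs : P vx = P vz * (P vx / P vz) := by field_simp
    rw [hy, zero_pow hd', zero_add, ho2 h hdeg.le _ _ _ hxs] at hz0
    rw [ho1 h hdeg.le _ _ _ hxs] at hx0
    have e1 := (mul_eq_zero.1 hx0).resolve_left (pow_ne_zero _ hz)
    have e2 := (mul_eq_zero.1 hz0).resolve_left (pow_ne_zero _ hz)
    rw [e1, mul_zero, sub_zero] at e2
    have e3 := (mul_eq_zero.1 e2).resolve_left hd0
    obtain ⟨u, v, e4⟩ := hs
    have e5 := congrArg (aeval (P vx / P vz)) e4
    rw [map_add, map_mul, map_mul, e1, e3] at e5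
    simp at e5
  have hlc : algebraMap (ZMod p) (AlgebraicClosure (ZMod p)) (h.coeff d) ≠ 0 := by
    intro e
    have e1 : h.coeff d = 0 := by
      apply (algebraMap (ZMod p) (AlgebraicClosure (ZMod p))).injective
      rw [e, map_zero]
    have e2 : h.leadingCoeff = 0 := by rw [leadingCoeff, hdeg, e1]
    rw [leadingCoeff_eq_zero] at e2
    rw [e2] at hdeg
    simp at hdeg
    omega
  have hx : P vx = 0 := by
    rw [Finset.sum_eq_single d] at hx0
    · rw [Nat.sub_self, pow_zero, mul_one] at hx0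
      have e1 := (mul_eq_zero.1 hx0).resolve_left hlc
      exact (pow_eq_zero_iff hd').1 ((mul_eq_zero.1 e1).resolve_left hd0)
    · intro i hi hid
      have := Finset.mem_range.1 hi
      rw [hz, zero_pow (by omega : d - i ≠ 0)]
      ring
    · intro h6
      exact absurd (Finset.mem_range.2 (Nat.lt_succ_self d)) h6
  have hy : P vy = 0 := by
    rw [Finset.sum_eq_zero, add_zero] at hz0
    · exact (pow_eq_zero_iff hd').1 hz0
    · intro i hi
      rcases Nat.lt_or_ge i (d - 1) with h6 | h6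
      · rw [hz, zero_pow (by omega : d - i - 1 ≠ 0)]
        ring
      · rw [hx, zero_pow (by omega : i ≠ 0)]
        ring
  funext i
  rcases i with i | (k | k) | (i | i)
  · fin_cases i
    · exact hx
    · exact hy
    · exact hz
  · exact hw1 k
  · exact hw k
  · exact hb i
  · exact hv i

end defs


section curve

variable {p n d : ℕ} {β : Type} {K₁ K₂ : Finset ℕ} [Fact p.Prime] [Fintype β] [DecidableEq β]
  {K : Type} [Field K] [Algebra (ZMod p) K]

theorem Dsplit (G : MvPolynomial (I n d β K₁ K₂) (ZMod p)) (f : I n d β K₁ K₂ → K[X])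
    (e : I n d β K₁ K₂ → K) : D G f e =
    C (e vx) * MvPolynomial.aeval f (MvPolynomial.pderiv vx G) +
    C (e vy) * MvPolynomial.aeval f (MvPolynomial.pderiv vy G) +
    C (e vz) * MvPolynomial.aeval f (MvPolynomial.pderiv vz G) +
    ((∑ k, C (e (w1 k)) * MvPolynomial.aeval f (MvPolynomial.pderiv (w1 k) G) +
      ∑ k, C (e (w2 k)) * MvPolynomial.aeval f (MvPolynomial.pderiv (w2 k) G)) +
    (∑ k, C (e (vb k)) * MvPolynomial.aeval f (MvPolynomial.pderiv (vb k) G) +
      ∑ k, C (e (vv k)) * MvPolynomial.aeval f (MvPolynomial.pderiv (vv k) G))) := by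
  rw [D, Fintype.sum_sum_type, Fintype.sum_sum_type, Fintype.sum_sum_type, Fintype.sum_sum_type,
    Fin.sum_univ_three]
  rfl

/-- `D` at a unit vector -/
theorem Dsingle (G : MvPolynomial (I n d β K₁ K₂) (ZMod p)) (f : I n d β K₁ K₂ → K[X])
    (i : I n d β K₁ K₂) : D G f (Pi.single i 1) = MvPolynomial.aeval f (MvPolynomial.pderiv i G) := by
  rw [D, Finset.sum_eq_single i]
  · simp
  · intro j _ hj
    simp [Pi.single_apply, hj]
  · intro h
    exact absurd (Finset.mem_univ _) h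

/-- independence from the valuations -/
theorem indep {ι : Type} [Fintype ι] (G : MvPolynomial ι (ZMod p)) (f : ι → K[X]) (m : ℕ) (b : K[X])
    (hb : 0 < b.natDegree) (lam : Fin m → ι → K) (r : Fin m → K[X])
    (hD : ∀ j, D G f (lam j) = b ^ (j : ℕ) * r j ∧ IsCoprime (r j) b) (g : Fin m → K)
    (hg : ∑ j, g j • lam j = 0) : ∀ j, g j = 0 := by
  have hb0 : b ≠ 0 := by
    intro h
    rw [h] at hb
    simp at hb
  have h1 : ∑ j, C (g j) * (b ^ (j : ℕ) * r j) = 0 := by
    have h2 : ∀ e : ι → K, D G f e = ∑ i, C (e i) * MvPolynomial.aeval f (MvPolynomial.pderiv i G) :=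
      fun e => rfl
    calc ∑ j, C (g j) * (b ^ (j : ℕ) * r j) = ∑ j, C (g j) * D G f (lam j) := by
          refine Finset.sum_congr rfl fun j _ => ?_
          rw [(hD j).1]
      _ = D G f (∑ j, g j • lam j) := by
          simp only [h2, Finset.mul_sum, Finset.sum_apply, Pi.smul_apply, smul_eq_mul, map_sum,
            Finset.sum_mul, C_mul]
          rw [Finset.sum_comm]
          refine Finset.sum_congr rfl fun i _ => Finset.sum_congr rfl fun j _ => ?_
          ring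
      _ = 0 := by rw [hg, h2]; simp
  have key : ∀ N : ℕ, ∀ j : Fin m, (j : ℕ) < N → g j = 0 := by
    intro N
    induction N with
    | zero => intro j hj; omega
    | succ N ih =>
      intro j hj
      by_cases hjN : (j : ℕ) < N
      · exact ih j hjN
      have hjN' : (j : ℕ) = N := by omega
      by_contra hgj
      have h3 : b ^ ((j : ℕ) + 1) ∣ C (g j) * (b ^ (j : ℕ) * r j) := by
        rw [← Finset.add_sum_erase _ _ (Finset.mem_univ j)] at h1
        rw [eq_neg_of_add_eq_zero_left h1, dvd_neg]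
        refine Finset.dvd_sum fun i hi => ?_
        have hij := Finset.ne_of_mem_erase hi
        rcases lt_trichotomy (i : ℕ) (j : ℕ) with h4 | h4 | h4
        · rw [ih i (by omega), C_0, zero_mul]
          exact dvd_zero _
        · exact absurd (Fin.ext h4) hij
        · exact Dvd.dvd.mul_left (Dvd.dvd.mul_right (pow_dvd_pow _ (by omega)) _) _
      have h4 : b ∣ C (g j) * r j := by
        have h5 : C (g j) * (b ^ (j : ℕ) * r j) = b ^ (j : ℕ) * (C (g j) * r j) := by ring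
        rw [h5, pow_succ] at h3
        exact (mul_dvd_mul_iff_left (pow_ne_zero _ hb0)).1 h3
      have h5 : b ∣ C (g j) := ((hD j).2.symm.dvd_of_dvd_mul_right h4)
      have h6 : IsUnit b := isUnit_of_dvd_unit h5 (isUnit_C.2 (IsUnit.mk0 _ hgj))
      rw [natDegree_eq_zero_of_isUnit h6] at hb
      exact lt_irrefl _ hb
  intro j
  exact key (j + 1) j (Nat.lt_succ_self _)

end curve


section fin

variable {p n d : ℕ} {β : Type} {K₁ K₂ : Finset ℕ} [Fact p.Prime] [Fintype β] [DecidableEq β]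
  {K : Type} [Field K] [Algebra (ZMod p) K] [CharP K p]

/-- the vector of `x` -/
def ux (ex : β → ZMod p) : I n d β K₁ K₂ → K :=
  Sum.elim ![1, 0, 0] (Sum.elim (fun _ => 0) (Sum.elim (fun i => algebraMap (ZMod p) K (ex i)) (fun _ => 0)))

/-- the vector of `z` -/
def uz (ez : β → ZMod p) : I n d β K₁ K₂ → K :=
  Sum.elim ![0, 0, 1] (Sum.elim (fun _ => 0) (Sum.elim (fun i => algebraMap (ZMod p) K (ez i)) (fun _ => 0)))

/-- the vector of `y` -/
def uy : I n d β K₁ K₂ → K := Sum.elim ![0, 1, 0] (fun _ => 0)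

/-- a vector on `β` -/
def ub (l : β → ZMod p) : I n d β K₁ K₂ → K :=
  Sum.elim (fun _ => 0) (Sum.elim (fun _ => 0) (Sum.elim (fun i => algebraMap (ZMod p) K (l i)) (fun _ => 0)))

theorem vfree (hVF : S_VF) (hd : 3 ≤ d) (hdn : d ≤ n) (h0' : ¬ p ∣ d - 1)
    (H : MvPolynomial β (ZMod p)) (ex ez : β → ZMod p) (θ : β) (h : (ZMod p)[X]) (A₀ : ZMod p)
    (hcard : Fintype.card β + K₁.card + K₂.card = d - 2)
    (h1 : ∀ k ∈ K₁, 1 ≤ k ∧ k + p + 1 ≤ d) (h2 : ∀ k ∈ K₂, p ≤ k ∧ k + 3 ≤ d)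
    (hHh : H.IsHomogeneous d)
    (hexθ : ex θ = 0) (hezθ : ez θ = 1) (hA₀ : A₀ ≠ 0) (hdeg : h.natDegree = d)
    (hid : h + MvPolynomial.aeval (fun i => C (ex i) * X + C (ez i)) H = C A₀ * X ^ d + X ^ (d - 1))
    (hlev : ∀ k < d - 2, k ∉ K₁ → k ∉ K₂ → ∃ lam : β → ZMod p,
      X ^ k ∣ D H (fun i => C (ex i) * X + C (ez i)) lam ∧
      (D H (fun i => C (ex i) * X + C (ez i)) lam).coeff k ≠ 0) :
    SRC K (F p n d K₁ K₂ h H θ) := by
  have hppos : p ≠ 0 := (Fact.out : p.Prime).ne_zero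
  have hp0 : (p : K[X]) = 0 := CharP.cast_eq_zero _ p
  obtain ⟨A, hA⟩ : ∃ A : K, A = algebraMap (ZMod p) K A₀ := ⟨_, rfl⟩
  have hA0 : A ≠ 0 := by
    rw [hA]
    exact (_root_.map_ne_zero _).2 hA₀
  obtain ⟨b, hb⟩ : ∃ b : K[X], b = X ^ (d - 1) + 1 := ⟨_, rfl⟩
  obtain ⟨c, hc⟩ : ∃ c : K[X], c = -C A := ⟨_, rfl⟩
  obtain ⟨t, ht⟩ : ∃ t : K[X], t = -(C A⁻¹ * b) := ⟨_, rfl⟩
  have hAA : C A * C A⁻¹ = (1 : K[X]) := by rw [← C_mul, mul_inv_cancel₀ hA0, C_1]
  have hbt : b = c * t := by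
    rw [hc, ht]
    linear_combination (-b) * hAA
  have hb' : derivative b = ((d - 1 : ℕ) : K[X]) * X ^ (d - 1 - 1) := by
    rw [hb]
    simp [derivative_X_pow]
  have hbd : b.natDegree = d - 1 := by
    rw [hb]
    have := natDegree_X_pow_add_C (n := d - 1) (r := (1 : K))
    simpa using this
  obtain ⟨f, hf⟩ : ∃ f : I n d β K₁ K₂ → K[X], f = crv (C A) b (ux ex) uy (uz ez) := ⟨_, rfl⟩
  have fx : f vx = b := by
    simp [hf, crv, ux, uy, uz, vx]
  have fy : f vy = X * b := by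
    simp [hf, crv, ux, uy, uz, vy]
  have fz : f vz = c := by
    simp [hf, crv, ux, uy, uz, vz, hc]
  have fw1 : ∀ k, f (w1 k) = 0 := by
    intro k
    simp [hf, crv, ux, uy, uz, w1]
  have fw2 : ∀ k, f (w2 k) = 0 := by
    intro k
    simp [hf, crv, ux, uy, uz, w2]
  have fv : ∀ k, f (vv k) = 0 := by
    intro k
    simp [hf, crv, ux, uy, uz, vv]
  have fb : ∀ i, f (vb i) = c * aeval t (C (ex i) * X + C (ez i) : (ZMod p)[X]) := by
    intro i
    have e1 : f (vb i) = C (algebraMap (ZMod p) K (ex i)) * b -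
        C (algebraMap (ZMod p) K (ez i)) * C A := by
      simp [hf, crv, ux, uy, uz, vb]
    rw [e1, map_add, map_mul, aeval_X, aeval_C, aeval_C, Polynomial.algebraMap_apply,
      Polynomial.algebraMap_apply]
    nth_rewrite 1 [hbt]
    rw [hc]
    ring
  have keyQ : ∀ (Q : MvPolynomial β (ZMod p)) (N : ℕ), Q.IsHomogeneous N →
      MvPolynomial.aeval (fun i => f (vb i)) Q =
        c ^ N * aeval t (MvPolynomial.aeval (fun i => C (ex i) * X + C (ez i)) Q) := by
    intro Q N hQ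
    rw [show (fun i => f (vb i)) = fun i => c * aeval t (C (ex i) * X + C (ez i) : (ZMod p)[X]) from
      funext fb, aeval_smul' Q N hQ, MvPolynomial.comp_aeval_apply]
  have hpd : ∀ i, (MvPolynomial.pderiv i H).IsHomogeneous (d - 1) := fun i => hHh.pderiv
  -- sums
  have hDb : ∀ l : β → ZMod p, ∑ i, C (algebraMap (ZMod p) K (l i)) *
      MvPolynomial.aeval f (MvPolynomial.pderiv (vb i) (F p n d K₁ K₂ h H θ)) =
      c ^ (d - 1) * aeval t (D H (fun i => C (ex i) * X + C (ez i)) l) := by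
    intro l
    rw [D, map_sum, Finset.mul_sum]
    refine Finset.sum_congr rfl fun i _ => ?_
    rw [db f h H θ hp0, keyQ _ _ (hpd i), map_mul, aeval_C, Polynomial.algebraMap_apply]
    ring
  have hDx : MvPolynomial.aeval f (MvPolynomial.pderiv vx (F p n d K₁ K₂ h H θ)) =
      c ^ (d - 1) * aeval t (derivative h) := by
    rw [dx f h H θ hp0]
    simp only [fw1, fw2, zero_mul, Finset.sum_const_zero, add_zero, fx, fz]
    exact ho1 h hdeg.le b c t hbt
  have hDy : MvPolynomial.aeval f (MvPolynomial.pderiv vy (F p n d K₁ K₂ h H θ)) =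
      c * (((d - 1 : ℕ) : K[X]) * (X * b) ^ (d - 1 - 1)) := by
    rw [dy f h H θ hp0, fy, fz]
  have hder : derivative h + D H (fun i => C (ex i) * X + C (ez i)) ex =
      derivative (C A₀ * X ^ d + X ^ (d - 1)) := by
    rw [← hid, derivative_add, chain, D]
    congr 1
    refine Finset.sum_congr rfl fun i _ => ?_
    simp
  have hctp : ∀ j : ℕ, c ^ j * t ^ j = b ^ j := by
    intro j
    rw [hbt, mul_pow]
  have D1 : D (F p n d K₁ K₂ h H θ) f (ux ex) =
      b ^ (d - 2) * (C A * b - X * (b * derivative (C A) - C A * derivative b)) := by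
    have e1 : D (F p n d K₁ K₂ h H θ) f (ux ex) =
        c ^ (d - 1) * aeval t (derivative (C A₀ * X ^ d + X ^ (d - 1))) := by
      rw [← hder, map_add, mul_add, ← hDx, ← hDb, Dsplit]
      simp [ux, vx, vy, vz, w1, w2, vb, vv]
    rw [e1, derivative_C, hb']
    obtain ⟨m, hm⟩ : ∃ m, d = m + 3 := ⟨d - 3, by omega⟩
    have e2 : d - 1 = m + 2 := by omega
    have e3 : d - 2 = m + 1 := by omega
    have e4 : X ^ (m + 2) = b - 1 := by rw [hb, e2]; ring
    have e5 := hctp (m + 2)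
    have e6 := hctp (m + 1)
    rw [e2, e3, hm]
    simp only [derivative_add, derivative_C_mul, derivative_X_pow, map_add, map_mul, aeval_C, map_pow,
      aeval_X, Polynomial.algebraMap_apply, ← hA, Nat.add_sub_cancel, map_natCast]
    have e7 : ((m + 3 : ℕ) : K[X]) = ((m + 2 : ℕ) : K[X]) + 1 := by push_cast; ring
    rw [show m + 3 - 1 = m + 2 by omega, show m + 2 - 1 = m + 1 by omega, e7]
    have e8 : c ^ (m + 2) * (C A * ((((m + 2 : ℕ) : K[X]) + 1) * t ^ (m + 2)) +
        ((m + 2 : ℕ) : K[X]) * t ^ (m + 1)) = C A * (((m + 2 : ℕ) : K[X]) + 1) * b ^ (m + 2) +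
        ((m + 2 : ℕ) : K[X]) * (c * b ^ (m + 1)) := by
      rw [← e5, ← e6]; ring
    have e9 : b ^ (m + 1) * (C A * b - X * (b * 0 - C A * (((m + 2 : ℕ) : K[X]) * X ^ (m + 1)))) =
        C A * b ^ (m + 2) + C A * b ^ (m + 1) * ((m + 2 : ℕ) : K[X]) * X ^ (m + 2) := by
      ring
    rw [e9, e4, e8, hc]
    ring
  have D2 : D (F p n d K₁ K₂ h H θ) f uy = b ^ (d - 2) * (b * derivative (C A) - C A * derivative b) := by
    have e1 : D (F p n d K₁ K₂ h H θ) f uy =
        MvPolynomial.aeval f (MvPolynomial.pderiv vy (F p n d K₁ K₂ h H θ)) := by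
      rw [Dsplit]
      simp [uy, vx, vy, vz, w1, w2, vb, vv]
    rw [e1, hDy, derivative_C, hb', hc, show d - 1 - 1 = d - 2 by omega]
    ring
  have hon : MvPolynomial.aeval f (F p n d K₁ K₂ h H θ) = 0 := by
    rw [aF]
    simp only [fw1, fw2, fv, fx, fy, fz, zero_mul, zero_pow (show d ≠ 0 by omega),
      Finset.sum_const_zero, add_zero]
    rw [ho0 h hdeg.le b c t hbt, keyQ H d hHh, add_assoc, ← mul_add, ← map_add, hid, map_add, map_mul,
      aeval_C, map_pow, map_pow, aeval_X, Polynomial.algebraMap_apply, ← hA, mul_add]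
    obtain ⟨m, hm⟩ : ∃ m, d = m + 3 := ⟨d - 3, by omega⟩
    have e2 : d - 1 = m + 2 := by omega
    have e4 : X ^ (m + 2) = b - 1 := by rw [hb, e2]; ring
    have e5 := hctp (m + 2)
    have e6 := hctp (m + 3)
    rw [e2, hm, mul_pow, e4]
    have e7 : c ^ (m + 3) * (C A * t ^ (m + 3)) = C A * b ^ (m + 3) := by rw [← e6]; ring
    have e8 : c ^ (m + 3) * t ^ (m + 2) = c * b ^ (m + 2) := by rw [← e5]; ring
    rw [e7, e8, hc]
    ring
  have D3 : D (F p n d K₁ K₂ h H θ) f (uz ez) = b ^ d := by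
    have hhom := hom h H θ hd h1 h2 hHh (n := n)
    have e1 : ∑ i, f i * MvPolynomial.aeval f (MvPolynomial.pderiv i (F p n d K₁ K₂ h H θ)) = 0 := by
      have e2 := congrArg (MvPolynomial.aeval f) hhom.sum_X_mul_pderiv
      rw [map_sum, map_nsmul, hon, smul_zero] at e2
      rw [← e2]
      refine Finset.sum_congr rfl fun i _ => ?_
      rw [map_mul, MvPolynomial.aeval_X]
    have e3 : b * D (F p n d K₁ K₂ h H θ) f (ux ex) + X * b * D (F p n d K₁ K₂ h H θ) f uy -
        C A * D (F p n d K₁ K₂ h H θ) f (uz ez) = 0 := by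
      rw [← e1, D, D, D, Finset.mul_sum, Finset.mul_sum, Finset.mul_sum, ← Finset.sum_add_distrib,
        ← Finset.sum_sub_distrib]
      refine Finset.sum_congr rfl fun i _ => ?_
      have e4 : f i = C (ux ex i) * b + C (uy i) * (X * b) - C (uz ez i) * C A := by
        rw [hf]; rfl
      rw [e4]
      ring
    rw [D1, D2] at e3
    have e5 : C A * D (F p n d K₁ K₂ h H θ) f (uz ez) = C A * b ^ d := by
      obtain ⟨m, hm⟩ : ∃ m, d = m + 3 := ⟨d - 3, by omega⟩
      have e6 : d - 2 = m + 1 := by omega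
      have e7 : b ^ d = b ^ (m + 1) * b ^ 2 := by rw [hm]; ring
      rw [e6] at e3
      rw [e7]
      linear_combination -e3
    exact mul_left_cancel₀ (C_ne_zero.2 hA0) e5
  have hcop : IsCoprime b (X : K[X]) := by
    refine ⟨1, -X ^ (d - 1 - 1), ?_⟩
    obtain ⟨m, hm⟩ : ∃ m, d = m + 3 := ⟨d - 3, by omega⟩
    have e2 : d - 1 - 1 = m + 1 := by omega
    have e3 : d - 1 = m + 2 := by omega
    rw [hb, e2, e3]
    ring
  have hcu : ∀ j : ℕ, IsCoprime (c ^ j) b := by
    intro j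
    refine IsCoprime.pow_left ⟨-C A⁻¹, 0, ?_⟩
    rw [hc]
    linear_combination hAA
  have hb0 : b ≠ 0 := by
    intro e
    rw [e] at hbd
    simp at hbd
    omega
  have hlam : ∀ j : Fin (d - 2), ∃ (l : I n d β K₁ K₂ → K) (r : K[X]),
      (l vx = 0 ∧ l vy = 0 ∧ l vz = 0 ∧ ∀ i, l (vv i) = 0) ∧
      D (F p n d K₁ K₂ h H θ) f l = b ^ (j : ℕ) * r ∧ IsCoprime r b := by
    intro j
    have hjd := j.2
    by_cases hj1 : (j : ℕ) ∈ K₁
    · have := h1 _ hj1
      refine ⟨Pi.single (w1 ⟨j, hj1⟩) 1, c ^ (p + (d - 1 - (j : ℕ) - p)), ?_, ?_, hcu _⟩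
      · simp [Pi.single_apply, vx, vy, vz, w1, vv]
      · rw [Dsingle, dw1 f h H θ hp0, fw1, zero_pow (by omega), mul_zero, add_zero, fx, fz, fb θ, hexθ, hezθ]
        simp only [C_0, zero_mul, zero_add, C_1, map_one, mul_one]
        ring
    by_cases hj2 : (j : ℕ) ∈ K₂
    · have := h2 _ hj2
      refine ⟨Pi.single (w2 ⟨j, hj2⟩) 1, c ^ (d - 1 - (j : ℕ)) * X ^ p, ?_, ?_, ?_⟩
      · simp [Pi.single_apply, vx, vy, vz, w2, vv]
      · rw [Dsingle, dw2 f h H θ hp0, fw2, zero_pow (by omega), mul_zero, add_zero, fx, fy, fz]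
        obtain ⟨q, hq⟩ : ∃ q, (j : ℕ) = p + q := ⟨j - p, by omega⟩
        simp only [hq, Nat.add_sub_cancel_left, mul_pow]
        ring
      · exact IsCoprime.mul_left (hcu _) (hcop.symm.pow_left)
    obtain ⟨l, ⟨s, hs⟩, hl2⟩ := hlev j hjd hj1 hj2
    refine ⟨ub l, c ^ (d - 1 - (j : ℕ)) * aeval t s, ?_, ?_, ?_⟩
    · simp [ub, vx, vy, vz, vv]
    · have e1 : D (F p n d K₁ K₂ h H θ) f (ub l) =
          c ^ (d - 1) * aeval t (D H (fun i => C (ex i) * X + C (ez i)) l) := by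
        rw [← hDb, Dsplit]
        simp [ub, vx, vy, vz, w1, w2, vb, vv]
      rw [e1, hs, map_mul, map_pow, aeval_X]
      obtain ⟨q, hq⟩ : ∃ q, d - 1 = (j : ℕ) + q := ⟨d - 1 - j, by omega⟩
      rw [hq, Nat.add_sub_cancel_left, ← hctp]
      ring
    · refine IsCoprime.mul_left (hcu _) ?_
      have e2 : s.coeff 0 ≠ 0 := by
        rw [hs] at hl2
        rwa [coeff_X_pow_mul', if_pos le_rfl, Nat.sub_self] at hl2
      have e3 : aeval t s = algebraMap (ZMod p) K[X] (s.coeff 0) + t * aeval t s.divX := by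
        conv_lhs => rw [← s.divX_mul_X_add]
        rw [map_add, map_mul, aeval_X, aeval_C]
        ring
      rw [e3, Polynomial.algebraMap_apply]
      have e4 : algebraMap (ZMod p) K (s.coeff 0) ≠ 0 := (_root_.map_ne_zero _).2 e2
      have e5 : C (algebraMap (ZMod p) K (s.coeff 0)) * C (algebraMap (ZMod p) K (s.coeff 0))⁻¹ = (1 : K[X]) := by
        rw [← C_mul, mul_inv_cancel₀ e4, C_1]
      refine ⟨C (algebraMap (ZMod p) K (s.coeff 0))⁻¹,
        C (algebraMap (ZMod p) K (s.coeff 0))⁻¹ * (C A⁻¹ * aeval t s.divX), ?_⟩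
      rw [ht]
      linear_combination e5
  choose lam r hlam0 hlamD using hlam
  have hind := indep (F p n d K₁ K₂ h H θ) f (d - 2) b (by rw [hbd]; omega) lam r hlamD
  refine ⟨d, f, ?_⟩
  rw [hf]
  rw [hf] at D1 D2 D3 hon hlamD
  refine hVF (ZMod p) K (I n d β K₁ K₂) (Fin (n - d)) (F p n d K₁ K₂ h H θ) d (C A) b (ux ex) uy (uz ez)
    lam (fun i => Pi.single (vv i) 1) r hd (hom h H θ hd h1 h2 hHh) hbd ?_ ?_ ?_ ?_ ?_ hon D1 D2 D3
    hlamD ?_
  · exact le_trans degree_C_le (by positivity)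
  · refine ⟨C A⁻¹, 0, ?_⟩
    linear_combination hAA
  · have hd1 : ((d - 1 : ℕ) : K) ≠ 0 := fun e => h0' ((CharP.cast_eq_zero_iff K p (d - 1)).1 e)
    have e1 : C ((d - 1 : ℕ) : K)⁻¹ * ((d - 1 : ℕ) : K[X]) = 1 := by
      rw [← C_eq_natCast, ← C_mul, inv_mul_cancel₀ hd1, C_1]
    refine ⟨1, -(C ((d - 1 : ℕ) : K)⁻¹ * X), ?_⟩
    rw [hb', hb]
    obtain ⟨m, hm⟩ : ∃ m, d = m + 3 := ⟨d - 3, by omega⟩
    have e2 : d - 1 - 1 = m + 1 := by omega
    rw [e2]
    rw [show d - 1 = m + 2 by omega] at e1 ⊢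
    linear_combination (-X ^ (m + 2)) * e1
  · simp only [Fintype.card_sum, Fintype.card_fin, Fintype.card_coe]
    omega
  · rw [Fintype.linearIndependent_iff]
    intro g hg
    have hg' : ∀ i, g (Sum.inl 0) * ux ex i + g (Sum.inl 1) * uy i + g (Sum.inl 2) * uz ez i +
        (∑ j, g (Sum.inr (Sum.inl j)) * lam j i +
          ∑ k, g (Sum.inr (Sum.inr k)) * (Pi.single (vv k) 1 : I n d β K₁ K₂ → K) i) = 0 := by
      intro i
      have := congrFun hg i
      rw [Fintype.sum_sum_type, Fintype.sum_sum_type, Fin.sum_univ_three] at this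
      simpa using this
    have l0 : ∀ j, lam j vx = 0 := fun j => (hlam0 j).1
    have l1 : ∀ j, lam j vy = 0 := fun j => (hlam0 j).2.1
    have l2 : ∀ j, lam j vz = 0 := fun j => (hlam0 j).2.2.1
    have l3 : ∀ j i, lam j (vv i) = 0 := fun j => (hlam0 j).2.2.2
    have g0 : g (Sum.inl 0) = 0 := by
      have := hg' vx
      simp only [l0, mul_zero, Finset.sum_const_zero, zero_add] at this
      simpa [ux, uy, uz, hlam0, vx, vv, Pi.single_apply] using this
    have g1 : g (Sum.inl 1) = 0 := by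
      have := hg' vy
      simp only [l1, mul_zero, Finset.sum_const_zero, zero_add] at this
      simpa [ux, uy, uz, hlam0, vy, vv, Pi.single_apply] using this
    have g2 : g (Sum.inl 2) = 0 := by
      have := hg' vz
      simp only [l2, mul_zero, Finset.sum_const_zero, zero_add] at this
      simpa [ux, uy, uz, hlam0, vz, vv, Pi.single_apply] using this
    have g4 : ∀ k, g (Sum.inr (Sum.inr k)) = 0 := by
      intro k
      have := hg' (vv k)
      simp only [l3, mul_zero, Finset.sum_const_zero, zero_add] at this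
      simpa [ux, uy, uz, hlam0, vv, Pi.single_apply] using this
    have g3 : ∀ j, g (Sum.inr (Sum.inl j)) = 0 := by
      refine hind (fun j => g (Sum.inr (Sum.inl j))) ?_
      funext i
      have := hg' i
      simp only [g0, g1, g2, g4, zero_mul, Finset.sum_const_zero, add_zero, zero_add] at this
      simpa using this
    rintro (i | j | k)
    · fin_cases i
      · exact g0
      · exact g1
      · exact g2
    · exact g3 j
    · exact g4 k
  · intro k
    rw [Dsingle, ← hf, dv f h H θ hp0, fv, zero_pow (by omega), mul_zero]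

end fin

end C3P

theorem t_C3 (h1 : S_VF) (h2 : S_TR) : S_C3 := by
  intro p _ n d hd hdn h0 h0' hD
  obtain ⟨β, iβ, iβ', K₁, K₂, H, ex, ez, θ, h, A₀, hcard, hK₁, hK₂, _, hHh, hH, hexθ, hezθ, hA₀, hdeg, hs,
    hid, hlev⟩ := hD
  exact h2 p n d (C3P.I n d β K₁ K₂) (C3P.F p n d K₁ K₂ h H θ)
    (by
      simp only [Fintype.card_sum, Fintype.card_fin, Fintype.card_coe]
      omega)
    (C3P.hom h H θ hd hK₁ hK₂ hHh)
    (C3P.smooth h H θ hd h0 h0' hK₂ hH hdeg hs)
    (C3P.vfree h1 hd hdn h0' H ex ez θ h A₀ hcard hK₁ hK₂ hHh hexθ hezθ hA₀ hdeg hid hlev)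

end Pool.Agent.SRC68

end
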