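import Pool.Agent.SRC68.C4b

/-!
# Project SRC, piece C4: the hypersurface for `d = 2 p - 1`, part 3: the very free curve (helper89)
-/

set_option autoImplicit false
set_option linter.unusedSimpArgs false
set_option linter.unusedSectionVars false

open Polynomial

noncomputable section

namespace Pool.Agent.SRC68

namespace C4

variable {m : ℕ} {N : Type} [Fintype N] [DecidableEq N] {K : Type} [Field K]

/-- the polynomial `b` -/
def bb (m : ℕ) (K : Type) [Field K] : K[X] := X ^ (2 * m + 4) + 1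

/-- direction `x` -/
def ex (m : ℕ) (N : Type) (K : Type) [Field K] : Ix m N → K :=
  Sum.elim ![1, 0, 0] (Sum.elim (fun j => if (j : ℕ) = 1 then 1 else 0) (fun _ => 0))

/-- direction `y` -/
def ey (m : ℕ) (N : Type) (K : Type) [Field K] : Ix m N → K :=
  Sum.elim ![0, 1, 0] (Sum.elim (fun _ => 0) (fun _ => 0))

/-- direction `z` -/
def ez (m : ℕ) (N : Type) (K : Type) [Field K] : Ix m N → K :=
  Sum.elim ![0, 0, 1] (Sum.elim (fun j => if (j : ℕ) ≤ 1 then 1 else 0) (fun _ => 0))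

/-- the levels -/
def lam (m : ℕ) (N : Type) (K : Type) [Field K] (i : Fin (2 * m + 3)) : Ix m N → K :=
  Sum.elim (fun _ => 0) (Sum.elim (fun j => (if j = i then 1 else 0) -
    (if (i : ℕ) = 1 ∧ (j : ℕ) = 0 then 1 else 0)) (fun _ => 0))

/-- the other directions -/
def nu (m : ℕ) (N : Type) [DecidableEq N] (K : Type) [Field K] (i : N) : Ix m N → K :=
  Sum.elim (fun _ => 0) (Sum.elim (fun _ => 0) (fun j => if j = i then 1 else 0))

lemma indep : LinearIndependent K (Sum.elim ![ex m N K, ey m N K, ez m N K]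
    (Sum.elim (lam m N K) (nu m N K)) : Ix m N → (Ix m N → K)) := by
  rw [Fintype.linearIndependent_iff]
  intro g hg
  have hc := fun i : Ix m N => congrFun hg i
  simp only [Fintype.sum_sum_type, Fin.sum_univ_three, Sum.elim_inl, Sum.elim_inr, Matrix.cons_val_zero,
    Matrix.cons_val_one, Matrix.cons_val, Pi.add_apply, Finset.sum_apply, Pi.smul_apply, smul_eq_mul,
    Pi.zero_apply] at hc
  have h0 := hc (Sum.inl 0)
  have h1 := hc (Sum.inl 1)
  have h2 := hc (Sum.inl 2)
  simp [ex, ey, ez, lam, nu] at h0 h1 h2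
  have hv : ∀ i : N, g (Sum.inr (Sum.inr i)) = 0 := by
    intro i
    have h := hc (Sum.inr (Sum.inr i))
    simp [ex, ey, ez, lam, nu] at h
    exact h
  have hl : ∀ j : Fin (2 * m + 3), (j : ℕ) ≠ 0 → g (Sum.inr (Sum.inl j)) = 0 := by
    intro j hj
    have h := hc (Sum.inr (Sum.inl j))
    have hj' : j ≠ 0 := fun h => hj (by rw [h]; rfl)
    simp [ex, ey, ez, lam, nu, h0, h1, h2, hj'] at h
    exact h
  have hl0 : g (Sum.inr (Sum.inl 0)) = 0 := by
    have h := hc (Sum.inr (Sum.inl 0))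
    simp only [ex, ey, ez, lam, nu, h0, h1, h2, Sum.elim_inr, Sum.elim_inl, zero_mul, mul_zero, zero_add,
      add_zero, Finset.sum_const_zero] at h
    rw [Finset.sum_eq_single (0 : Fin (2 * m + 3))] at h
    · simpa using h
    · intro j _ hj
      rw [hl j (fun h => hj (Fin.ext h)), zero_mul]
    · simp
  intro i
  rcases i with i | i | i
  · fin_cases i
    · exact h0
    · exact h1
    · exact h2
  · by_cases hi : (i : ℕ) = 0
    · rw [show i = 0 from Fin.ext hi]
      exact hl0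
    · exact hl i hi
  · exact hv i

/-- the curve -/
def cu (m : ℕ) (N : Type) (K : Type) [Field K] : Ix m N → K[X] :=
  crv 1 (bb m K) (ex m N K) (ey m N K) (ez m N K)

lemma val_one : ((1 : Fin (2 * m + 3)) : ℕ) = 1 := by
  rw [Fin.val_one']
  exact Nat.mod_eq_of_lt (by omega)

lemma cu0 : cu m N K (Sum.inl 0) = bb m K := by
  simp [cu, crv, ex, ey, ez]

lemma cu1 : cu m N K (Sum.inl 1) = X * bb m K := by
  simp [cu, crv, ex, ey, ez]

lemma cu2 : cu m N K (Sum.inl 2) = -1 := by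
  simp [cu, crv, ex, ey, ez]

lemma cul0 : cu m N K (Sum.inr (Sum.inl 0)) = -1 := by
  simp [cu, crv, ex, ey, ez]

lemma cul1 : cu m N K (Sum.inr (Sum.inl 1)) = bb m K - 1 := by
  simp [cu, crv, ex, ey, ez, val_one]

lemma cul (j : Fin (2 * m + 3)) (hj : 2 ≤ (j : ℕ)) : cu m N K (Sum.inr (Sum.inl j)) = 0 := by
  simp [cu, crv, ex, ey, ez, show (j : ℕ) ≠ 1 by omega, show ¬ ((j : ℕ) ≤ 1) by omega]

lemma cuv (j : N) : cu m N K (Sum.inr (Sum.inr j)) = 0 := by
  simp [cu, crv, ex, ey, ez]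

lemma M0 {R : Type} [CommRing R] (m : ℕ) (x y z u : R) : M m 0 x y z u = 0 := by
  unfold M
  rw [if_pos (show (0 : ℕ) ≤ 1 by omega)]

lemma M1 {R : Type} [CommRing R] (m : ℕ) (x y z u : R) : M m 1 x y z u = 0 := by
  unfold M
  rw [if_pos (show (1 : ℕ) ≤ 1 by omega)]

lemma sg0 {R : Type} [CommRing R] (m : ℕ) : (sg m 0 : R) = 1 := by
  unfold sg
  rw [if_neg (show ¬ (0 : ℕ) = m + 2 by omega)]

lemma sg1 {R : Type} [CommRing R] (m : ℕ) : (sg m 1 : R) = 1 := by
  unfold sg
  rw [if_neg (show ¬ (1 : ℕ) = m + 2 by omega)]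

lemma hpoly (hp : ((m : K) + 3) = 0) : ((m : K[X]) + 3) = 0 := by
  have h : (C ((m : K) + 3) : K[X]) = 0 := by rw [hp, C_0]
  rw [map_add, map_natCast, map_ofNat] at h
  exact h

lemma sum01 {A : Type} [AddCommMonoid A] (g : Fin (2 * m + 3) → A) (h : ∀ j : Fin (2 * m + 3), 2 ≤ (j : ℕ) → g j = 0) :
    ∑ j, g j = g 0 + g 1 := by
  rw [Fin.sum_univ_succ, Fin.sum_univ_succ]
  have h1 : ∑ i : Fin (2 * m + 1), g i.succ.succ = 0 := by
    apply Finset.sum_eq_zero
    intro i _
    apply h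
    simp
  rw [h1, add_zero]
  rfl

lemma cu_on (k : Type) [Field k] [Algebra k K] : MvPolynomial.aeval (cu m N K) (Fm m N k) = 0 := by
  rw [aeval_Fm]
  unfold val
  simp only [cu0, cu1, cu2, cul0, cul1, cuv]
  rw [sum01]
  · rw [cul0, cul1]
    have e1 : ((0 : Fin (2 * m + 3)) : ℕ) = 0 := rfl
    rw [val_one, e1, M0, M1, sg0, sg1]
    have e2 : (-1 : K[X]) ^ (2 * m + 5) = -1 := Odd.neg_one_pow ⟨m + 2, by ring⟩
    have e3 : ∑ j : N, (0 : K[X]) ^ (2 * m + 5) = 0 := by simp
    rw [e2, e3, mul_pow]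
    have hB : bb m K = X ^ (2 * m + 4) + 1 := rfl
    linear_combination bb m K ^ (2 * m + 4) * hB
  · intro j hj
    rw [cul j hj]
    simp

/-- the derivative along the curve -/
lemma D_Fm (k : Type) [Field k] [Algebra k K] (hp : ((m : K) + 3) = 0) (e : Ix m N → K) :
    D (Fm m N k) (cu m N K) e = C (e (Sum.inl 2)) * (X * bb m K) ^ (2 * m + 4)
      + 2 * (X * bb m K) ^ (2 * m + 3) * C (e (Sum.inl 1)) - bb m K ^ (2 * m + 4) * C (e (Sum.inl 0))
      + C (e (Sum.inl 2)) + C (e (Sum.inl 2)) * bb m K ^ (2 * m + 4)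
      + 2 * bb m K ^ (2 * m + 3) * C (e (Sum.inl 0))
      + (bb m K - 1) ^ (2 * m + 4) * (C (e (Sum.inl 2)) + C (e (Sum.inl 0)))
      - C (e (Sum.inr (Sum.inl 0))) - (bb m K - 1) ^ (2 * m + 4) * C (e (Sum.inr (Sum.inl 1)))
      + ∑ j : Fin (2 * m + 3), C (e (Sum.inr (Sum.inl j))) * M m j (bb m K) (X * bb m K) (-1) (-1) := by
  have hp' : ((m : K[X]) + 3) = 0 := hpoly hp
  have h := Dp_Fm k hp' (cu m N K) (fun i => C (e i)) (bb m K) (X * bb m K) (-1) (-1) (bb m K - 1)
    cu0 cu1 cu2 cul0 cul1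
  have hD : D (Fm m N k) (cu m N K) e = Dp (Fm m N k) (cu m N K) (fun i => C (e i)) := rfl
  rw [hD, h]
  simp only [Finset.sum_sub_distrib, Finset.sum_add_distrib]
  have s1 : ∑ j : Fin (2 * m + 3), cu m N K (Sum.inr (Sum.inl j)) *
      Dp (MX m N k j) (cu m N K) (fun i => C (e i)) = 0 := by
    rw [sum01]
    · have e1 : ((0 : Fin (2 * m + 3)) : ℕ) = 0 := rfl
      have m0 : MX m N k 0 = 0 := M0 _ _ _ _ _
      have m1 : MX m N k 1 = 0 := M1 _ _ _ _ _
      rw [e1, val_one, m0, m1, Dp_zero]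
      ring
    · intro j hj
      rw [cul j hj, zero_mul]
  have s2 : ∑ j : Fin (2 * m + 3), sg m j * cu m N K (Sum.inr (Sum.inl j)) ^ (2 * m + 4) *
      C (e (Sum.inr (Sum.inl j))) = C (e (Sum.inr (Sum.inl 0))) +
        (bb m K - 1) ^ (2 * m + 4) * C (e (Sum.inr (Sum.inl 1))) := by
    rw [sum01]
    · have e1 : ((0 : Fin (2 * m + 3)) : ℕ) = 0 := rfl
      have e2 : (-1 : K[X]) ^ (2 * m + 4) = 1 := Even.neg_one_pow ⟨m + 2, by ring⟩
      rw [cul0, cul1, e2, e1, val_one, sg0, sg1]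
      ring
    · intro j hj
      rw [cul j hj, zero_pow (by omega)]
      ring
  have s3 : ∑ j : N, cu m N K (Sum.inr (Sum.inr j)) ^ (2 * m + 4) * C (e (Sum.inr (Sum.inr j))) = 0 := by
    apply Finset.sum_eq_zero
    intro j _
    rw [cuv, zero_pow (by omega), zero_mul]
  rw [s1, s2, s3]
  have e2 : (-1 : K[X]) ^ (2 * m + 4) = 1 := Even.neg_one_pow ⟨m + 2, by ring⟩
  rw [e2]
  ring

lemma M_cu (j : ℕ) (hj : 2 ≤ j) (hj2 : j < 2 * m + 3) :
    ∃ r : K[X], M m j (bb m K) (X * bb m K) (-1) (-1) = bb m K ^ j * r ∧ IsCoprime r (bb m K) := by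
  have hu : ∀ n : ℕ, IsCoprime ((-1 : K[X]) ^ n) (bb m K) := by
    intro n
    apply IsCoprime.pow_left
    exact (isCoprime_one_left).neg_left
  unfold M
  rw [if_neg (by omega)]
  split_ifs with h1 h2
  · refine ⟨(-1) ^ (m + 3) * (-1) ^ (m + 1 - j), by ring, (hu _).mul_left (hu _)⟩
  · refine ⟨(-1) ^ (m + 2), by rw [h2], hu _⟩
  · refine ⟨X ^ (m + 3) * (-1) ^ (2 * m + 4 - j), ?_, IsCoprime.mul_left ?_ (hu _)⟩
    · obtain ⟨i, rfl⟩ : ∃ i, j = (m + 3) + i := ⟨j - (m + 3), by omega⟩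
      rw [Nat.add_sub_cancel_left]
      ring
    · apply IsCoprime.pow_left
      refine ⟨- X ^ (2 * m + 3), 1, ?_⟩
      unfold bb
      ring

lemma levels (k : Type) [Field k] [Algebra k K] (hp : ((m : K) + 3) = 0) (h2 : (2 : K) ≠ 0)
    (j : Fin (2 * m + 3)) :
    ∃ r : K[X], D (Fm m N k) (cu m N K) (lam m N K j) = bb m K ^ (j : ℕ) * r ∧ IsCoprime r (bb m K) := by
  have l1 : ∀ i, lam m N K j (Sum.inl i) = 0 := fun i => rfl
  have hD := D_Fm (N := N) k hp (lam m N K j)
  simp only [l1, C_0] at hD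
  have s1 : ∑ i : Fin (2 * m + 3), C (lam m N K j (Sum.inr (Sum.inl i))) *
      M m i (bb m K) (X * bb m K) (-1) (-1) = M m j (bb m K) (X * bb m K) (-1) (-1) := by
    rw [Finset.sum_eq_single j]
    · by_cases hj : (j : ℕ) ≤ 1
      · have : M m j (bb m K) (X * bb m K) (-1) (-1) = 0 := by
          unfold M
          rw [if_pos hj]
        rw [this, mul_zero]
      · have : lam m N K j (Sum.inr (Sum.inl j)) = 1 := by
          simp [lam, show (j : ℕ) ≠ 1 by omega]
        rw [this, C_1, one_mul]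
    · intro i _ hij
      by_cases hj : (i : ℕ) ≤ 1
      · have : M m i (bb m K) (X * bb m K) (-1) (-1) = 0 := by
          unfold M
          rw [if_pos hj]
        rw [this, mul_zero]
      · have : lam m N K j (Sum.inr (Sum.inl i)) = 0 := by
          simp [lam, hij]
          intro _ h
          rw [h] at hj
          simp at hj
        rw [this, C_0, zero_mul]
    · simp
  rw [s1] at hD
  rcases Nat.lt_or_ge (j : ℕ) 2 with hj | hj
  · have hM : M m j (bb m K) (X * bb m K) (-1) (-1) = 0 := by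
      unfold M
      rw [if_pos (by omega)]
    rw [hM] at hD
    rcases Nat.lt_or_ge (j : ℕ) 1 with hj1 | hj1
    · obtain rfl : j = 0 := Fin.ext (by simpa using hj1)
      have a0 : lam m N K 0 (Sum.inr (Sum.inl 0)) = 1 := by simp [lam]
      have a1 : lam m N K 0 (Sum.inr (Sum.inl 1)) = 0 := by
        simp [lam]
      rw [a0, a1] at hD
      refine ⟨-1, ?_, (isCoprime_one_left).neg_left⟩
      rw [hD]
      simp
    · obtain rfl : j = 1 := Fin.ext (by rw [val_one]; omega)
      have a0 : lam m N K 1 (Sum.inr (Sum.inl 0)) = -1 := by simp [lam, val_one]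
      have a1 : lam m N K 1 (Sum.inr (Sum.inl 1)) = 1 := by
        simp [lam, val_one]
      rw [a0, a1] at hD
      refine ⟨∑ i ∈ Finset.range (2 * m + 4), (1 - bb m K) ^ i, ?_, ?_⟩
      · rw [hD, val_one, pow_one]
        have := mul_neg_geom_sum (1 - bb m K) (2 * m + 4)
        rw [sub_sub_cancel] at this
        rw [this]
        have e2 : (bb m K - 1) ^ (2 * m + 4) = (1 - bb m K) ^ (2 * m + 4) := by
          rw [← neg_sub, Even.neg_pow ⟨m + 2, by ring⟩]
        rw [e2]
        simp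
      · have hd : bb m K ∣ ∑ i ∈ Finset.range (2 * m + 4), (1 - bb m K) ^ i - C (-2) := by
          have : (C (-2) : K[X]) = ∑ i ∈ Finset.range (2 * m + 4), 1 := by
            rw [Finset.sum_const, Finset.card_range, nsmul_eq_mul, mul_one]
            push_cast
            have : (m : K[X]) = -3 := by linear_combination (hpoly hp)
            rw [this, map_neg, map_ofNat]
            ring
          rw [this, ← Finset.sum_sub_distrib]
          apply Finset.dvd_sum
          intro i _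
          have := sub_dvd_pow_sub_pow (1 - bb m K) 1 i
          rw [one_pow] at this
          refine dvd_trans ⟨-1, ?_⟩ this
          ring
        obtain ⟨c, hc⟩ := hd
        have e3 : ∑ i ∈ Finset.range (2 * m + 4), (1 - bb m K) ^ i = C (-2) + bb m K * c := by
          linear_combination hc
        rw [e3]
        apply IsCoprime.add_mul_left_left
        refine ⟨C (-2)⁻¹, 0, ?_⟩
        rw [zero_mul, add_zero, ← C_mul, inv_mul_cancel₀ (neg_ne_zero.mpr h2), C_1]
  · obtain ⟨r, hr, hr2⟩ := M_cu (m := m) (K := K) (j : ℕ) hj j.2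
    refine ⟨r, ?_, hr2⟩
    rw [hD, hr]
    have a0 : lam m N K j (Sum.inr (Sum.inl 0)) = 0 := by
      simp [lam, show (j : ℕ) ≠ 1 by omega]
      intro h
      rw [← h] at hj
      simp at hj
    have a1 : lam m N K j (Sum.inr (Sum.inl 1)) = 0 := by
      simp [lam, show (j : ℕ) ≠ 1 by omega]
      intro h
      rw [← h, val_one] at hj
      omega
    rw [a0, a1]
    simp

lemma sumM (g : Fin (2 * m + 3) → K) (hg : ∀ j : Fin (2 * m + 3), 2 ≤ (j : ℕ) → g j = 0) :
    ∑ j : Fin (2 * m + 3), C (g j) * M m j (bb m K) (X * bb m K) (-1) (-1) = 0 := by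
  apply Finset.sum_eq_zero
  intro j _
  by_cases hj : (j : ℕ) ≤ 1
  · have : M m j (bb m K) (X * bb m K) (-1) (-1) = 0 := by
      unfold M
      rw [if_pos hj]
    rw [this, mul_zero]
  · rw [hg j (by omega), C_0, zero_mul]

end C4

open C4 in
theorem t_C4 (h1 : S_VF) (h2 : S_TR) : S_C4 := by
  intro p _ n d hp hd hdn
  obtain ⟨m, rfl⟩ : ∃ m, p = m + 3 := ⟨p - 3, by omega⟩
  obtain rfl : d = 2 * m + 5 := by omega
  have hpr : (m + 3).Prime := Fact.out
  have hme : Even m := by
    have : Odd (m + 3) := hpr.odd_of_ne_two (by omega)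
    rcases this with ⟨c, hc⟩
    exact ⟨c - 1, by omega⟩
  set K := AlgebraicClosure (ZMod (m + 3)) with hK
  have : CharP K (m + 3) := charP_of_injective_algebraMap (algebraMap (ZMod (m + 3)) K).injective (m + 3)
  have hp0 : ((m : K) + 3) = 0 := by
    have := CharP.cast_eq_zero K (m + 3)
    push_cast at this
    exact this
  have h20 : (2 : K) ≠ 0 := by
    intro h
    have h3 : ((2 : ℕ) : K) = 0 := by exact_mod_cast h
    have := (CharP.cast_eq_zero_iff K (m + 3) 2).mp h3
    have := Nat.le_of_dvd (by norm_num) this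
    omega
  have hcard : Fintype.card (Ix m (Fin (n - (2 * m + 5)))) = n + 1 := by
    simp [Ix]
    omega
  refine h2 (m + 3) n (2 * m + 5) (Ix m (Fin (n - (2 * m + 5)))) (Fm m (Fin (n - (2 * m + 5))) (ZMod (m + 3)))
    hcard (Fm_hom _) ?_ ?_
  · intro f _ hf
    exact Fm_smooth (ZMod (m + 3)) K hp0 h20 hme f hf
  · choose r hr using levels (N := Fin (n - (2 * m + 5))) (K := K) (ZMod (m + 3)) hp0 h20
    refine ⟨2 * m + 5, cu m (Fin (n - (2 * m + 5))) K, ?_⟩
    have hb : bb m K = X ^ (2 * m + 4) + C 1 := by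
      rw [C_1]
      rfl
    have hdb : derivative (bb m K) = - 2 * X ^ (2 * m + 3) := by
      rw [hb, derivative_add, derivative_X_pow, derivative_C, add_zero, map_natCast]
      push_cast
      have : (m : K[X]) = -3 := by linear_combination (hpoly hp0)
      rw [this]
      ring
    have hB : bb m K = X ^ (2 * m + 4) + 1 := rfl
    have hcu : crv 1 (bb m K) (ex m (Fin (n - (2 * m + 5))) K) (ey m _ K) (ez m _ K) = cu m _ K := rfl
    have hsub : 2 * m + 5 - 2 = 2 * m + 3 := rfl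
    refine h1 (ZMod (m + 3)) K (Ix m (Fin (n - (2 * m + 5)))) (Fin (n - (2 * m + 5)))
      (Fm m (Fin (n - (2 * m + 5))) (ZMod (m + 3))) (2 * m + 5) 1 (bb m K) (ex m _ K) (ey m _ K) (ez m _ K)
      (lam m _ K) (nu m _ K) r (by omega) (Fm_hom _) ?_ ?_ isCoprime_one_left ?_ ?_ indep (cu_on _) ?_ ?_ ?_ hr ?_
    · rw [hb, natDegree_X_pow_add_C]
      rfl
    · rw [degree_one]
      exact_mod_cast Nat.zero_le _
    · rw [hdb]
      refine ⟨1, C (2⁻¹) * X, ?_⟩
      have e : (C (2⁻¹ : K) : K[X]) * 2 = 1 := by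
        have : (2 : K[X]) = C 2 := by rw [map_ofNat]
        rw [this, ← C_mul, inv_mul_cancel₀ h20, C_1]
      unfold bb
      linear_combination (- X ^ (2 * m + 4)) * e
    · rw [hcard, Fintype.card_fin]
      omega
    · rw [hcu, D_Fm (N := Fin (n - (2 * m + 5))) (ZMod (m + 3)) hp0 (ex m _ K), sumM]
      · rw [show ex m (Fin (n - (2 * m + 5))) K (Sum.inl 0) = 1 from rfl,
          show ex m (Fin (n - (2 * m + 5))) K (Sum.inl 1) = 0 from rfl,
          show ex m (Fin (n - (2 * m + 5))) K (Sum.inl 2) = 0 from rfl,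
          show ex m (Fin (n - (2 * m + 5))) K (Sum.inr (Sum.inl 0)) = 0 by simp [ex],
          show ex m (Fin (n - (2 * m + 5))) K (Sum.inr (Sum.inl 1)) = 1 by simp [ex, val_one],
          hdb, derivative_one, hsub, C_0, C_1]
        linear_combination (- 2 * bb m K ^ (2 * m + 3)) * hB
      · intro j hj
        simp [ex, show (j : ℕ) ≠ 1 by omega]
    · rw [hcu, D_Fm (N := Fin (n - (2 * m + 5))) (ZMod (m + 3)) hp0 (ey m _ K), sumM]
      · rw [show ey m (Fin (n - (2 * m + 5))) K (Sum.inl 0) = 0 from rfl,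
          show ey m (Fin (n - (2 * m + 5))) K (Sum.inl 1) = 1 from rfl,
          show ey m (Fin (n - (2 * m + 5))) K (Sum.inl 2) = 0 from rfl,
          show ey m (Fin (n - (2 * m + 5))) K (Sum.inr (Sum.inl 0)) = 0 from rfl,
          show ey m (Fin (n - (2 * m + 5))) K (Sum.inr (Sum.inl 1)) = 0 from rfl,
          hdb, derivative_one, hsub, C_0, C_1]
        ring
      · intro j hj
        rfl
    · rw [hcu, D_Fm (N := Fin (n - (2 * m + 5))) (ZMod (m + 3)) hp0 (ez m _ K), sumM]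
      · rw [show ez m (Fin (n - (2 * m + 5))) K (Sum.inl 0) = 0 from rfl,
          show ez m (Fin (n - (2 * m + 5))) K (Sum.inl 1) = 0 from rfl,
          show ez m (Fin (n - (2 * m + 5))) K (Sum.inl 2) = 1 from rfl,
          show ez m (Fin (n - (2 * m + 5))) K (Sum.inr (Sum.inl 0)) = 1 by simp [ez],
          show ez m (Fin (n - (2 * m + 5))) K (Sum.inr (Sum.inl 1)) = 1 by simp [ez, val_one],
          C_0, C_1, mul_pow]
        linear_combination (- bb m K ^ (2 * m + 4)) * hB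
      · intro j hj
        simp [ez, show ¬ ((j : ℕ) ≤ 1) by omega]
    · intro i
      rw [hcu, D_Fm (N := Fin (n - (2 * m + 5))) (ZMod (m + 3)) hp0 (nu m _ K i), sumM]
      · rw [show nu m (Fin (n - (2 * m + 5))) K i (Sum.inl 0) = 0 from rfl,
          show nu m (Fin (n - (2 * m + 5))) K i (Sum.inl 1) = 0 from rfl,
          show nu m (Fin (n - (2 * m + 5))) K i (Sum.inl 2) = 0 from rfl,
          show nu m (Fin (n - (2 * m + 5))) K i (Sum.inr (Sum.inl 0)) = 0 from rfl,
          show nu m (Fin (n - (2 * m + 5))) K i (Sum.inr (Sum.inl 1)) = 0 from rfl, C_0]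
        ring
      · intro j hj
        rfl

end Pool.Agent.SRC68

end

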