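import Pool.Agent.SRC68.Stm

set_option autoImplicit false

open Polynomial

noncomputable section

namespace Pool.Agent.SRC68

theorem t_DA : S_DA := by
  intro p hp d hd h1 h2 h3
  have hp2 := hp.out.two_le
  have hd0 : (d : ZMod p) ≠ 0 := fun h => h1 ((ZMod.natCast_eq_zero_iff _ _).1 h)
  have hpne : p ≠ 2 := by
    intro h
    subst h
    omega
  have : Fact (2 < p) := ⟨by omega⟩
  -- the critical point
  obtain ⟨x₁, hx₁⟩ : ∃ x₁ : ZMod p, (d : ZMod p) * x₁ + ((d - 1 : ℕ) : ZMod p) = 0 := by
    refine ⟨-((d - 1 : ℕ) : ZMod p) / d, ?_⟩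
    field_simp
    ring
  obtain ⟨c, hc0, hc1⟩ : ∃ c : ZMod p, c ≠ 0 ∧ c ≠ x₁ ^ d + x₁ ^ (d - 1) := by
    by_cases h : (1 : ZMod p) = x₁ ^ d + x₁ ^ (d - 1)
    · refine ⟨-1, neg_ne_zero.2 one_ne_zero, ?_⟩
      rw [← h]
      exact ZMod.neg_one_ne_one
    · exact ⟨1, one_ne_zero, h⟩
  have hpd : MvPolynomial.pderiv (0 : Fin 1) (MvPolynomial.C c * MvPolynomial.X (0 : Fin 1) ^ d :
      MvPolynomial (Fin 1) (ZMod p)) = MvPolynomial.C (c * d) * MvPolynomial.X 0 ^ (d - 1) := by
    rw [MvPolynomial.pderiv_C_mul, MvPolynomial.pderiv_pow, MvPolynomial.pderiv_X_self]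
    simp only [map_mul, map_natCast, mul_one]
    ring
  refine ⟨Fin 1, inferInstance, inferInstance, Finset.Ico 1 p, Finset.Ico p (d - 2),
    MvPolynomial.C c * MvPolynomial.X 0 ^ d, fun _ => 0, fun _ => 1, 0,
    X ^ d + X ^ (d - 1) - C c, 1, ?_, ?_, ?_, ?_, ?_, ?_, rfl, rfl, one_ne_zero, ?_, ?_, ?_, ?_⟩
  · rw [Fintype.card_fin, Nat.card_Ico, Nat.card_Ico]
    omega
  · intro k hk
    rw [Finset.mem_Ico] at hk
    omega
  · intro k hk
    rw [Finset.mem_Ico] at hk
    omega
  · rw [Finset.disjoint_left]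
    intro k hk hk'
    rw [Finset.mem_Ico] at hk hk'
    omega
  · have := (MvPolynomial.isHomogeneous_C (Fin 1) c).mul (MvPolynomial.isHomogeneous_X_pow (R := ZMod p) (0 : Fin 1) d)
    rwa [zero_add] at this
  · intro x hx
    have := hx 0
    rw [hpd] at this
    simp only [map_mul, MvPolynomial.aeval_C, map_pow, MvPolynomial.aeval_X, map_natCast] at this
    have h4 : algebraMap (ZMod p) (AlgebraicClosure (ZMod p)) c ≠ 0 := by
      rw [Ne, map_eq_zero]
      exact hc0
    have h5 : (d : AlgebraicClosure (ZMod p)) ≠ 0 := by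
      intro h
      apply hd0
      have : algebraMap (ZMod p) (AlgebraicClosure (ZMod p)) (d : ZMod p) = 0 := by
        rw [map_natCast]
        exact h
      rwa [map_eq_zero] at this
    have h6 : x 0 = 0 := by
      rcases mul_eq_zero.1 this with h7 | h7
      · exact absurd h7 (mul_ne_zero h4 h5)
      · exact pow_eq_zero_iff (by omega) |>.1 h7
    funext i
    rw [Subsingleton.elim i 0, h6]
    rfl
  · compute_degree!
    rw [if_neg (by omega : ¬ d = 0), if_neg (by omega : ¬ d = d - 1)]
    simp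
  · unfold Polynomial.Separable
    rw [Polynomial.isCoprime_iff_aeval_ne_zero_of_isAlgClosed (ZMod p) (AlgebraicClosure (ZMod p))]
    intro a
    by_contra hcon
    push Not at hcon
    obtain ⟨ha, hb⟩ := hcon
    have hder : derivative (X ^ d + X ^ (d - 1) - C c : (ZMod p)[X]) =
        X ^ (d - 2) * (C (d : ZMod p) * X + C ((d - 1 : ℕ) : ZMod p)) := by
      obtain ⟨e, rfl⟩ : ∃ e, d = e + 2 := ⟨d - 2, by omega⟩
      simp only [derivative_sub, derivative_add, derivative_X_pow, derivative_C, sub_zero,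
        Nat.add_sub_cancel, show e + 2 - 1 = e + 1 from by omega]
      ring
    rw [hder] at hb
    simp only [map_mul, map_pow, aeval_X, map_add, aeval_C, map_sub, map_natCast] at ha hb
    rcases mul_eq_zero.1 hb with h7 | h7
    · have h8 : a = 0 := pow_eq_zero_iff (by omega) |>.1 h7
      rw [h8, zero_pow (by omega), zero_pow (by omega), zero_add, zero_sub, neg_eq_zero, map_eq_zero] at ha
      exact hc0 ha
    · have h5 : (d : AlgebraicClosure (ZMod p)) ≠ 0 := by
        intro h
        apply hd0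
        have : algebraMap (ZMod p) (AlgebraicClosure (ZMod p)) (d : ZMod p) = 0 := by
          rw [map_natCast]
          exact h
        rwa [map_eq_zero] at this
      have h9 : a = algebraMap (ZMod p) (AlgebraicClosure (ZMod p)) x₁ := by
        have h10 := congrArg (algebraMap (ZMod p) (AlgebraicClosure (ZMod p))) hx₁
        simp only [map_add, map_mul, map_natCast, map_zero] at h10
        apply mul_left_cancel₀ h5
        linear_combination h7 - h10
      rw [h9, ← map_pow, ← map_pow, ← map_add, ← map_sub, map_eq_zero] at ha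
      exact hc1 (sub_eq_zero.1 ha).symm
  · simp only [map_mul, MvPolynomial.aeval_C, map_pow, MvPolynomial.aeval_X, C_0, zero_mul, zero_add, C_1,
      one_pow, mul_one]
    rw [← Polynomial.algebraMap_eq] 
    ring
  · intro k hk hk1 hk2
    rw [Finset.mem_Ico] at hk1 hk2
    have hk0 : k = 0 := by omega
    subst hk0
    refine ⟨fun _ => 1, ?_, ?_⟩
    · rw [pow_zero]
      exact one_dvd _
    · unfold D
      rw [Fin.sum_univ_one, hpd]
      simp only [map_mul, MvPolynomial.aeval_C, map_pow, MvPolynomial.aeval_X, C_0, zero_mul, zero_add, C_1,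
        one_pow, mul_one, one_mul, map_natCast]
      rw [Polynomial.algebraMap_eq, ← C_eq_natCast, ← C_mul, coeff_C_zero]
      exact mul_ne_zero hc0 hd0

end Pool.Agent.SRC68

end
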