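import Pool.Agent.SRC68.Stm

/-!
# Project SRC, piece DB: `Data` for `d < p`
-/

set_option autoImplicit false

open Polynomial

noncomputable section

namespace Pool.Agent.SRC68

theorem db_coeff {R : Type*} [CommSemiring R] (a : R) (n j : ℕ) :
    ((C a * X + C 1 : R[X]) ^ n).coeff j = a ^ j * (n.choose j : R) := by
  have h1 : (C a * X + C 1 : R[X]) ^ n = ((X + 1 : R[X]) ^ n).comp (C a * X) := by
    simp
  rw [h1, comp_C_mul_X_coeff, coeff_X_add_one_pow]
  ring

theorem db_pderiv {R β : Type*} [CommSemiring R] [Fintype β] [DecidableEq β] (c : β → R) (d : ℕ)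
    (i : β) : MvPolynomial.pderiv i (∑ k, MvPolynomial.C (c k) * MvPolynomial.X k ^ d) =
      MvPolynomial.C (c i * d) * MvPolynomial.X i ^ (d - 1) := by
  rw [map_sum, Finset.sum_eq_single i]
  · rw [MvPolynomial.pderiv_C_mul, MvPolynomial.pderiv_pow, MvPolynomial.pderiv_X_self]
    simp only [MvPolynomial.C_mul, map_natCast]
    ring
  · intro k _ hk
    rw [MvPolynomial.pderiv_C_mul, MvPolynomial.pderiv_pow, MvPolynomial.pderiv_X_of_ne hk]
    simp
  · intro h
    exact absurd (Finset.mem_univ i) h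

/-- avoiding few elements -/
theorem db_avoid {p : ℕ} [Fact p.Prime] (s : Finset (ZMod p)) (hs : s.card < p) :
    ∃ c : ZMod p, c ∉ s := by
  by_contra h
  push Not at h
  have h1 : s = Finset.univ := Finset.eq_univ_iff_forall.2 h
  rw [h1, Finset.card_univ, ZMod.card] at hs
  exact lt_irrefl _ hs

theorem db_cast_ne {p : ℕ} [Fact p.Prime] {n : ℕ} (h0 : 0 < n) (hn : n < p) :
    ((n : ℕ) : ZMod p) ≠ 0 := by
  rw [Ne, ZMod.natCast_eq_zero_iff]
  intro h
  exact absurd (Nat.le_of_dvd h0 h) (by omega)

/-- the dual basis -/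
theorem db_vand {p : ℕ} [Fact p.Prime] {m : ℕ} (hm : m < p) (k₀ : Fin m) :
    ∃ μ : Fin m → ZMod p, ∀ j : Fin m, ∑ i : Fin m, μ i * ((i : ℕ) : ZMod p) ^ (j : ℕ) =
      if j = k₀ then 1 else 0 := by
  set v : Fin m → ZMod p := fun i => ((i : ℕ) : ZMod p) with hv
  have hinj : Function.Injective v := by
    intro i j hij
    simp only [hv] at hij
    have h1 := (ZMod.natCast_eq_natCast_iff _ _ _).1 hij
    have h2 := Nat.ModEq.eq_of_lt_of_lt h1 (lt_trans i.2 hm) (lt_trans j.2 hm)
    exact Fin.ext h2
  have hdet : IsUnit (Matrix.vandermonde v) := by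
    rw [Matrix.isUnit_iff_isUnit_det, isUnit_iff_ne_zero]
    exact Matrix.det_vandermonde_ne_zero_iff.2 hinj
  refine ⟨fun i => ((Matrix.vandermonde v)⁻¹) k₀ i, fun j => ?_⟩
  have h1 : (Matrix.vandermonde v)⁻¹ * Matrix.vandermonde v = 1 :=
    Matrix.nonsing_inv_mul _ ((Matrix.isUnit_iff_isUnit_det _).1 hdet)
  have h2 := congrFun (congrFun h1 k₀) j
  rw [Matrix.mul_apply] at h2
  simp only [Matrix.vandermonde_apply] at h2
  rw [h2, Matrix.one_apply]
  simp only [eq_comm]

/-- **DB** -/
theorem t_DB : S_DB := by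
  intro p hpF d hd hdp
  have hp := hpF.out
  set K := AlgebraicClosure (ZMod p) with hK
  have hd0 : ((d : ℕ) : ZMod p) ≠ 0 := db_cast_ne (by omega) hdp
  set θ : Fin (d - 2) := ⟨0, by omega⟩ with hθ
  set w : Fin (d - 2) → ZMod p := fun i => ((i : ℕ) : ZMod p) with hw
  -- the sum of the d-th powers
  set s : ZMod p := ∑ k : Fin (d - 2), w k ^ d with hs
  obtain ⟨A₀, hA₀⟩ : ∃ A₀ : ZMod p, A₀ ∉ ({0, s} : Finset (ZMod p)) :=
    db_avoid _ (lt_of_le_of_lt Finset.card_le_two (by omega))
  simp only [Finset.mem_insert, Finset.mem_singleton, not_or] at hA₀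
  -- the polynomial without the constant
  set g : (ZMod p)[X] := C A₀ * X ^ d + X ^ (d - 1) -
    ∑ k ∈ Finset.univ.erase θ, (C (w k) * X + C 1) ^ d with hg
  have hwθ : w θ = 0 := by simp [hw, hθ]
  -- the coefficient of degree d
  have hgd : g.coeff d = A₀ - s := by
    rw [hg, coeff_sub, coeff_add, coeff_C_mul, coeff_X_pow, coeff_X_pow, if_pos rfl,
      if_neg (by omega), finsetSum_coeff, hs]
    have h1 : ∑ k ∈ Finset.univ.erase θ, ((C (w k) * X + C 1 : (ZMod p)[X]) ^ d).coeff d =
        ∑ k : Fin (d - 2), w k ^ d := by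
      rw [← Finset.add_sum_erase Finset.univ (fun k => w k ^ d) (Finset.mem_univ θ)]
      simp only [hwθ]
      rw [zero_pow (by omega), zero_add]
      refine Finset.sum_congr rfl fun k _ => ?_
      rw [db_coeff]
      simp
    rw [h1]
    ring
  have hgdeg : g.natDegree ≤ d := by
    rw [hg]
    refine (natDegree_sub_le _ _).trans (max_le ((natDegree_add_le _ _).trans (max_le ?_ ?_)) ?_)
    · exact natDegree_C_mul_X_pow_le _ _
    · exact (natDegree_X_pow_le _).trans (by omega)
    · refine natDegree_sum_le_of_forall_le _ _ fun k _ => ?_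
      refine (natDegree_pow_le_of_le (m := 1) d ?_).trans (by omega)
      exact natDegree_linear_le
  -- the derivative
  have hg' : derivative g ≠ 0 := by
    intro h0
    have h1 := congrArg (fun f => coeff f (d - 1)) h0
    simp only [coeff_zero] at h1
    rw [coeff_derivative] at h1
    have h2 : d - 1 + 1 = d := by omega
    rw [h2, hgd] at h1
    have h3 : (((d - 1 : ℕ) : ZMod p) + 1) = (d : ZMod p) := by
      have : ((d - 1 + 1 : ℕ) : ZMod p) = (d : ZMod p) := by rw [h2]
      push_cast at this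
      exact this
    rw [h3] at h1
    rcases mul_eq_zero.1 h1 with h4 | h4
    · exact hA₀.2 (sub_eq_zero.1 h4)
    · exact hd0 h4
  -- the bad values
  classical
  set G' : K[X] := (derivative g).map (algebraMap (ZMod p) K) with hG'
  have hG'0 : G' ≠ 0 := (Polynomial.map_ne_zero_iff (algebraMap (ZMod p) K).injective).2 hg'
  have hroots : G'.roots.toFinset.card ≤ d - 1 := by
    refine (Multiset.toFinset_card_le _).trans ((card_roots' G').trans ?_)
    rw [hG', natDegree_map]
    refine (natDegree_derivative_le g).trans ?_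
    omega
  set bad : Finset K := insert 0 (G'.roots.toFinset.image fun x => aeval x g) with hbad
  have hbadc : bad.card ≤ d := by
    refine (Finset.card_insert_le _ _).trans ?_
    have := Finset.card_image_le (s := G'.roots.toFinset) (f := fun x => aeval x g)
    omega
  obtain ⟨c, hc⟩ : ∃ c : ZMod p, c ∉ bad.preimage (algebraMap (ZMod p) K)
      ((algebraMap (ZMod p) K).injective.injOn) := by
    apply db_avoid
    refine lt_of_le_of_lt ?_ (lt_of_le_of_lt hbadc hdp)
    rw [← Finset.card_image_of_injective _ (algebraMap (ZMod p) K).injective]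
    refine Finset.card_le_card fun y hy => ?_
    obtain ⟨z, hz, rfl⟩ := Finset.mem_image.1 hy
    exact Finset.mem_preimage.1 hz
  rw [Finset.mem_preimage, hbad, Finset.mem_insert, not_or] at hc
  obtain ⟨hc0, hcv⟩ := hc
  have hc0' : c ≠ 0 := fun h => hc0 (by rw [h, map_zero])
  set cc : Fin (d - 2) → ZMod p := fun k => if k = θ then c else 1 with hcc
  have hcc0 : ∀ k, cc k ≠ 0 := by
    intro k
    simp only [hcc]
    split_ifs
    · exact hc0'
    · exact one_ne_zero
  set H : MvPolynomial (Fin (d - 2)) (ZMod p) :=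
    ∑ k, MvPolynomial.C (cc k) * MvPolynomial.X k ^ d with hH
  -- H on the plane
  have hplane : MvPolynomial.aeval (fun i => C (w i) * X + C (1 : ZMod p)) H =
      C c + ∑ k ∈ Finset.univ.erase θ, (C (w k) * X + C 1 : (ZMod p)[X]) ^ d := by
    rw [hH, map_sum, ← Finset.add_sum_erase Finset.univ _ (Finset.mem_univ θ)]
    congr 1
    · simp [hcc, hwθ, algebraMap_eq]
    · refine Finset.sum_congr rfl fun k hk => ?_
      have hk' : k ≠ θ := Finset.ne_of_mem_erase hk
      simp [hcc, hk']
  refine ⟨Fin (d - 2), inferInstance, inferInstance, ∅, ∅, H, w, fun _ => 1, θ, g - C c, A₀,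
    by simp, by simp, by simp, by simp, ?_, ?_, hwθ, rfl, hA₀.1, ?_, ?_, ?_, ?_⟩
  · -- homogeneous
    rw [hH]
    refine MvPolynomial.IsHomogeneous.sum _ _ _ fun k _ => ?_
    have h1 := (MvPolynomial.isHomogeneous_C (Fin (d - 2)) (cc k)).mul
      ((MvPolynomial.isHomogeneous_X (ZMod p) k).pow d)
    simpa using h1
  · -- smooth
    intro x hx
    funext i
    have h1 := hx i
    rw [hH, db_pderiv, map_mul, map_pow, MvPolynomial.aeval_X, MvPolynomial.aeval_C] at h1
    rcases mul_eq_zero.1 h1 with h2 | h2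
    · exfalso
      have h3 : cc i * (d : ZMod p) ≠ 0 := mul_ne_zero (hcc0 i) hd0
      exact h3 ((algebraMap (ZMod p) K).injective (by rw [h2, map_zero]))
    · exact pow_eq_zero_iff (by omega) |>.1 h2
  · -- degree
    apply natDegree_eq_of_le_of_coeff_ne_zero
    · refine (natDegree_sub_le _ _).trans (max_le hgdeg ?_)
      rw [natDegree_C]
      omega
    · rw [coeff_sub, hgd, coeff_C, if_neg (by omega), sub_zero]
      exact sub_ne_zero.2 hA₀.2
  · -- separable
    change IsCoprime _ _
    rw [Polynomial.isCoprime_iff_aeval_ne_zero_of_isAlgClosed (ZMod p) K]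
    intro x
    rw [derivative_sub, derivative_C, sub_zero]
    by_contra hcon
    push Not at hcon
    obtain ⟨h1, h2⟩ := hcon
    apply hcv
    rw [Finset.mem_image]
    refine ⟨x, ?_, ?_⟩
    · rw [Multiset.mem_toFinset, mem_roots hG'0, IsRoot.def, hG', eval_map, ← aeval_def]
      exact h2
    · rw [map_sub, aeval_C, sub_eq_zero] at h1
      exact h1
  · -- the equation
    rw [hplane, hg]
    ring
  · -- the levels
    intro k hk _ _
    obtain ⟨μ, hμ⟩ := db_vand (p := p) (m := d - 2) (by omega) ⟨k, hk⟩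
    have hD : ∀ j, (D H (fun i => C (w i) * X + C (1 : ZMod p)) (fun i => μ i / cc i)).coeff j =
        d * ((d - 1).choose j : ZMod p) * ∑ i, μ i * w i ^ j := by
      intro j
      unfold D
      rw [finsetSum_coeff, Finset.mul_sum]
      refine Finset.sum_congr rfl fun i _ => ?_
      rw [hH, db_pderiv, map_mul, map_pow, MvPolynomial.aeval_X, MvPolynomial.aeval_C,
        algebraMap_eq, coeff_C_mul, coeff_C_mul, db_coeff]
      have := hcc0 i
      field_simp
    refine ⟨fun i => μ i / cc i, ?_, ?_⟩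
    · rw [X_pow_dvd_iff]
      intro j hj
      rw [hD, hμ ⟨j, by omega⟩, if_neg, mul_zero]
      intro h
      have := congrArg Fin.val h
      simp only at this
      omega
    · rw [hD, hμ ⟨k, hk⟩, if_pos rfl, mul_one]
      refine mul_ne_zero hd0 ?_
      rw [Ne, ZMod.natCast_eq_zero_iff]
      intro h
      have h1 : p ∣ (d - 1).factorial := by
        rw [← Nat.choose_mul_factorial_mul_factorial (by omega : k ≤ d - 1), mul_assoc]
        exact Dvd.dvd.mul_right h _
      have h2 := (Nat.Prime.dvd_factorial hp).1 h1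
      omega

end Pool.Agent.SRC68

end
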