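import Pool.Agent.SRC68.DCb

/-!
# DC0 (helper2): `Data` for `p + 2 ≤ d ≤ 2 p - 2`, `d` even
-/

set_option autoImplicit false

open Polynomial

noncomputable section

namespace Pool.Agent.SRC68

theorem t_DC0 (h1 : S_BL) (h2 : S_DR) : S_DC0 := by
  intro p hpf d hde hd1 hd2
  have hp2 : p % 2 = 1 := by
    rcases hpf.out.eq_two_or_odd with h | h
    · omega
    · exact h
  have hde' : d % 2 = 0 := Nat.even_iff.1 hde
  obtain ⟨ρ, hρd⟩ : ∃ ρ, d = p + ρ + 1 := ⟨d - p - 1, by omega⟩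
  obtain ⟨m, hm⟩ : ∃ m, p = ρ + 2 * m + 3 := ⟨(p - 3 - ρ) / 2, by omega⟩
  have hρ : 1 ≤ ρ := by omega
  have hρp : ρ + 3 ≤ p := by omega
  have hp5 : 5 ≤ p := by omega
  have hpd : ¬ p ∣ d := by
    rw [hρd, add_assoc, Nat.dvd_add_right (dvd_refl p)]
    intro h
    exact absurd (Nat.le_of_dvd (by omega) h) (by omega)
  set a : Fin (m + 1) → ℕ := fun b => p - 1 - 2 * (b : ℕ) with ha
  have hab : ∀ b, ρ + 2 ≤ a b ∧ a b + 1 ≤ p := by
    intro b
    have := b.2
    simp only [ha]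
    omega
  have hinj : Function.Injective a := by
    intro b b' h
    have hb := b.2
    have hb' := b'.2
    simp only [ha] at h
    exact Fin.ext (by omega)
  obtain ⟨α₀, γ₀, ε, hα₀, hγ₀, hε, hsep⟩ := h2 p ρ (Finset.univ.image a) hp5 hρ hρp
    (Finset.univ_nonempty.image a) (by
      intro x hx
      obtain ⟨b, _, rfl⟩ := Finset.mem_image.1 hx
      exact hab b)
  rw [Finset.sum_image fun b _ b' _ h => hinj h] at hsep
  have hεb : ∀ b, ε (a b) ≠ 0 := fun b => hε _ (Finset.mem_image_of_mem a (Finset.mem_univ b))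
  have hBL := fun b : Fin (m + 1) => h1 p (a b) (d - a b) (ε (a b)) hp5
    (by have := hab b; omega) (by have := hab b; omega) (by have := hab b; omega)
    (by have := hab b; omega)
    (by
      have := hab b
      rw [Nat.add_sub_cancel' (by omega)]
      exact hpd) (hεb b)
  have hs : ∀ b : Fin m, ∃ α : ZMod p, α ≠ 0 ∧
      Sm p (a b.succ) (d - a b.succ) α (ε (a b.succ)) 1 := by
    intro b
    obtain ⟨α, h3, _, h5⟩ := (hBL b.succ).2 (Or.inl (by
      have := b.2
      simp only [ha, Fin.val_succ]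
      omega)) 1 0 one_ne_zero
    exact ⟨α, h3, h5⟩
  choose αs hαs hSs using hs
  obtain ⟨α0, hα0, hα0'⟩ := DCb.exists_ne2 (p := p) (by omega) 0 (-(α₀ + ∑ b, αs b))
  obtain ⟨γ0, hγ0, hγ0', hS0⟩ := (hBL 0).1 (by
      simp only [ha, Fin.val_zero]
      omega) α0 (γ₀ - ∑ _b : Fin m, 1) hα0
  have hc : γ₀ - (γ0 + ∑ _b : Fin m, 1) ≠ 0 := by
    intro h
    exact hγ0' (by linear_combination -h)
  refine DCb.data_mk (B := Fin (m + 1)) (E := Fin 1) ρ d hρd hρ hρp a hab (Fin.cons α0 αs)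
    (fun b => ε (a b)) (Fin.cons γ0 fun _ => 1) (fun _ => γ₀ - (γ0 + ∑ _b : Fin m, 1))
    (fun _ => hc) ?_ (Sum.inr 0) ⟨rfl, rfl⟩ α₀ γ₀ hα₀ ?_ ?_ hsep ?_ ?_
  · intro b
    refine Fin.cases ?_ (fun b => ?_) b
    · rw [Fin.cons_zero, Fin.cons_zero]
      exact hS0
    · rw [Fin.cons_succ, Fin.cons_succ]
      exact hSs b
  · rw [Fin.sum_univ_succ, Fin.cons_zero]
    simp only [Fin.cons_succ]
    intro h
    exact hα0' (by linear_combination h)
  · rw [Fin.sum_univ_succ, Fin.cons_zero]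
    simp only [Fin.cons_succ]
    rw [Fin.sum_univ_one]
    ring
  · rw [Fintype.card_fin, Fintype.card_fin]
    omega
  · have hcast : ∀ n : ℕ, 1 ≤ n → n < p → ((n : ℕ) : ZMod p) ≠ 0 := by
      intro n hn hnp
      rw [Ne, ZMod.natCast_eq_zero_iff]
      intro h
      exact absurd (Nat.le_of_dvd (by omega) h) (by omega)
    have hd0 : (d : ZMod p) ≠ 0 := by
      rw [Ne, ZMod.natCast_eq_zero_iff]
      exact hpd
    intro k hk
    rcases hk with rfl | ⟨hk1, hk2⟩
    · exact DCb.level_inr d hd0 a _ _ _ _ 0 hc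
    · rcases Nat.even_or_odd' (p - 1 - k) with ⟨t, ht | ht⟩
      · -- `k = a_t`
        have htm : t < m + 1 := by omega
        have hkt : k = a ⟨t, htm⟩ := by
          simp only [ha]
          omega
        have h3 := hab ⟨t, htm⟩
        set b : Fin (m + 1) := ⟨t, htm⟩ with hb
        rw [hkt]
        refine ⟨Pi.single (Sum.inl (b, false)) 1 +
          (-((Fin.cons γ0 fun _ => 1 : Fin (m + 1) → ZMod p) b / (γ₀ - (γ0 + ∑ _b : Fin m, 1)))) •
            Pi.single (Sum.inr 0) 1, ?_⟩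
        refine DCb.level_of d _ (a b) (by omega) _ (ε (a b) * ((d - a b : ℕ) : ZMod p)) 0
          (mul_ne_zero (hεb b) (hcast _ (by omega) (by omega))) ?_
        rw [DCb.D_add, DCb.D_smul, DCb.D_false, DCb.D_inr, ← C_mul, add_assoc, ← C_add, C_0, zero_mul]
        have h4 : (d : ZMod p) * (Fin.cons γ0 fun _ => 1 : Fin (m + 1) → ZMod p) b +
            -((Fin.cons γ0 fun _ => 1 : Fin (m + 1) → ZMod p) b / (γ₀ - (γ0 + ∑ _b : Fin m, 1))) *
              ((d : ZMod p) * (γ₀ - (γ0 + ∑ _b : Fin m, 1))) = 0 := by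
          field_simp
          ring
        rw [h4, C_0]
      · -- `k = a_t - 1`
        have htm : t < m + 1 := by omega
        have hkt : k = a ⟨t, htm⟩ - 1 := by
          simp only [ha]
          omega
        have h3 := hab ⟨t, htm⟩
        rw [hkt]
        exact DCb.level_true d a _ _ _ _ ⟨t, htm⟩ (hεb _) (hcast _ (by omega) (by omega)) (by omega)
          (by omega)

end Pool.Agent.SRC68

end
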