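import Pool.Agent.SRC68.DCb

/-!
# DC1 (helper2): `Data` for `p + 2 ≤ d ≤ 2 p - 3`, `d` odd
-/

set_option autoImplicit false

open Polynomial

noncomputable section

namespace Pool.Agent.SRC68

theorem t_DC1 (h1 : S_BL) (h2 : S_DR) : S_DC1 := by
  intro p hpf d hpo hdo hd1 hd2
  have hp2 : p % 2 = 1 := Nat.odd_iff.1 hpo
  have hdo' : d % 2 = 1 := Nat.odd_iff.1 hdo
  obtain ⟨ρ, hρd⟩ : ∃ ρ, d = p + ρ + 1 := ⟨d - p - 1, by omega⟩
  obtain ⟨m, hm⟩ : ∃ m, p = ρ + 2 * m + 4 := ⟨(p - 4 - ρ) / 2, by omega⟩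
  have hρ : 1 ≤ ρ := by omega
  have hρp : ρ + 3 ≤ p := by omega
  have hp5 : 5 ≤ p := by omega
  have hpd : ¬ p ∣ d := by
    rw [hρd, add_assoc, Nat.dvd_add_right (dvd_refl p)]
    intro h
    exact absurd (Nat.le_of_dvd (by omega) h) (by omega)
  set a : Fin (m + 2) → ℕ := fun b => if (b : ℕ) = 0 then ρ + 2 else ρ + 1 + 2 * (b : ℕ) with ha
  have ha0 : a 0 = ρ + 2 := by simp [ha]
  have has : ∀ b : Fin (m + 2), 1 ≤ (b : ℕ) → a b = ρ + 1 + 2 * (b : ℕ) := by
    intro b hb
    simp only [ha]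
    rw [if_neg (by omega)]
  have ha1 : a 1 = ρ + 3 := by
    rw [has 1 (by simp)]
    simp
  have hab : ∀ b, ρ + 2 ≤ a b ∧ a b + 1 ≤ p := by
    intro b
    have := b.2
    simp only [ha]
    split_ifs <;> omega
  have hinj : Function.Injective a := by
    intro b b' h
    have hb := b.2
    have hb' := b'.2
    simp only [ha] at h
    refine Fin.ext ?_
    split_ifs at h <;> omega
  obtain ⟨α₀, γ₀, ε, hα₀, hγ₀, hε, hsep⟩ := h2 p ρ (Finset.univ.image a) hp5 hρ hρp
    (Finset.univ_nonempty.image a) (by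
      intro x hx
      obtain ⟨b, _, rfl⟩ := Finset.mem_image.1 hx
      exact hab b)
  rw [Finset.sum_image fun b _ b' _ h => hinj h] at hsep
  have hεb : ∀ b, ε (a b) ≠ 0 := fun b => hε _ (Finset.mem_image_of_mem a (Finset.mem_univ b))
  have hBL := fun b : Fin (m + 2) => h1 p (a b) (d - a b) (ε (a b)) hp5
    (by have := hab b; omega) (by have := hab b; omega) (by have := hab b; omega)
    (by have := hab b; omega)
    (by
      have := hab b
      rw [Nat.add_sub_cancel' (by omega)]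
      exact hpd) (hεb b)
  have hs : ∀ b : Fin m, ∃ γ : ZMod p, 
      Sm p (a b.succ.succ) (d - a b.succ.succ) 1 (ε (a b.succ.succ)) γ := by
    intro b
    obtain ⟨γ, _, _, h5⟩ := (hBL b.succ.succ).1 (Or.inl (by
      rw [has b.succ.succ (by simp)]
      simp only [Fin.val_succ]
      omega)) 1 0 one_ne_zero
    exact ⟨γ, h5⟩
  choose γs hSs using hs
  obtain ⟨γ1, _, hγ1', hS1⟩ := (hBL 1).1 (Or.inl (by
      rw [ha1]
      omega)) 1 (γ₀ - ∑ b, γs b) one_ne_zero
  have hγ0 : γ₀ - (γ1 + ∑ b, γs b) ≠ 0 := by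
    intro h
    exact hγ1' (by linear_combination -h)
  obtain ⟨α0, _, hα0', hS0⟩ := (hBL 0).2 (Or.inl (by
      rw [ha0]
      omega)) (γ₀ - (γ1 + ∑ b, γs b)) (-(α₀ + ∑ _b : Fin (m + 1), 1)) hγ0
  set α : Fin (m + 2) → ZMod p := Fin.cons α0 fun _ => 1 with hα
  set γ : Fin (m + 2) → ZMod p := Fin.cons (γ₀ - (γ1 + ∑ b, γs b)) (Fin.cons γ1 γs) with hγ
  refine DCb.data_mk (B := Fin (m + 2)) (E := Fin 0) ρ d hρd hρ hρp a hab α
    (fun b => ε (a b)) γ (fun _ => 0) (fun e => e.elim0) ?_ (Sum.inl (0, false)) ⟨rfl, rfl⟩ α₀ γ₀ hα₀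
    ?_ ?_ hsep ?_ ?_
  · intro b
    refine Fin.cases ?_ (fun b => Fin.cases ?_ (fun b => ?_) b) b
    · rw [hα, hγ, Fin.cons_zero, Fin.cons_zero]
      exact hS0
    · rw [hα, hγ, Fin.cons_succ, Fin.cons_succ, Fin.cons_zero]
      exact hS1
    · rw [hα, hγ, Fin.cons_succ, Fin.cons_succ, Fin.cons_succ]
      exact hSs b
  · rw [Fin.sum_univ_succ, hα, Fin.cons_zero]
    simp only [Fin.cons_succ]
    intro h
    exact hα0' (by linear_combination h)
  · rw [Fin.sum_univ_succ, Fin.sum_univ_succ, hγ, Fin.cons_zero, Fin.cons_succ, Fin.cons_zero]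
    simp only [Fin.cons_succ]
    rw [Finset.univ_eq_empty (α := Fin 0), Finset.sum_empty]
    ring
  · rw [Fintype.card_fin, Fintype.card_fin]
    omega
  · have hcast : ∀ n : ℕ, 1 ≤ n → n < p → ((n : ℕ) : ZMod p) ≠ 0 := by
      intro n hn hnp
      rw [Ne, ZMod.natCast_eq_zero_iff]
      intro h
      exact absurd (Nat.le_of_dvd (by omega) h) (by omega)
    have hd0 : (d : ZMod p) ≠ 0 := by
      rw [Ne, ZMod.natCast_eq_zero_iff]
      exact hpd
    have hγ0' : γ 0 ≠ 0 := by
      rw [hγ, Fin.cons_zero]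
      exact hγ0
    intro k hk
    rcases hk with rfl | ⟨hk1, hk2⟩
    · refine ⟨Pi.single (Sum.inl (0, false)) 1, ?_, ?_⟩
      · rw [pow_zero]
        exact one_dvd _
      · rw [DCb.D_false, coeff_add, coeff_C_zero, coeff_C_mul_X_pow, if_neg (by rw [ha0]; omega),
          zero_add]
        exact mul_ne_zero hd0 hγ0'
    · rcases Nat.even_or_odd' (k - ρ) with ⟨t, ht | ht⟩
      · -- `k = a_t - 1`
        have htm : t < m + 2 := by omega
        have h4 := has ⟨t, htm⟩ (by change 1 ≤ t; omega)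
        have hkt : k = a ⟨t, htm⟩ - 1 := by
          rw [h4]
          change k = ρ + 1 + 2 * t - 1
          omega
        have h3 := hab ⟨t, htm⟩
        rw [hkt]
        exact DCb.level_true d a _ _ _ _ ⟨t, htm⟩ (hεb _) (hcast _ (by omega) (by omega)) (by omega)
          (by omega)
      · rcases Nat.eq_zero_or_pos t with ht0 | ht0
        · have hkt : k = a 0 - 1 := by
            rw [ha0]
            omega
          have h3 := hab 0
          rw [hkt]
          exact DCb.level_true d a _ _ _ _ 0 (hεb _) (hcast _ (by omega) (by omega)) (by omega)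
            (by omega)
        · have htm : t < m + 2 := by omega
          have h4 := has ⟨t, htm⟩ (by change 1 ≤ t; omega)
          have hkt : k = a ⟨t, htm⟩ := by
            rw [h4]
            change k = ρ + 1 + 2 * t
            omega
          have h3 := hab ⟨t, htm⟩
          set b : Fin (m + 2) := ⟨t, htm⟩ with hb
          rw [hkt]
          have h5 : ((a 1 : ℕ) : ZMod p) ≠ 0 := hcast _ (by omega) (by omega)
          have h6 := hεb 1
          set κ : ZMod p := γ b / γ 0 * (ε (a 0) * ((d - a 0 : ℕ) : ZMod p)) / (ε (a 1) * ((a 1 : ℕ) : ZMod p))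
            with hκ
          refine ⟨Pi.single (Sum.inl (b, false)) 1 +
            ((-(γ b / γ 0)) • Pi.single (Sum.inl (0, false)) 1 + κ • Pi.single (Sum.inl (1, true)) 1), ?_⟩
          refine DCb.level_of d _ (a b) (by omega) _ (ε (a b) * ((d - a b : ℕ) : ZMod p))
            (κ * (d * α 1)) (mul_ne_zero (hεb b) (hcast _ (by omega) (by omega))) ?_
          rw [DCb.D_add, DCb.D_add, DCb.D_smul, DCb.D_smul, DCb.D_false, DCb.D_false, DCb.D_true]
          have h7 : a 1 - 1 = a 0 := by omega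
          rw [h7]
          have h8 : (C (-(γ b / γ 0)) * (C ((d : ZMod p) * γ 0)) : (ZMod p)[X]) =
              - C ((d : ZMod p) * γ b) := by
            rw [← C_mul, ← C_neg]
            congr 1
            field_simp
          have h9 : (C κ * C (ε (a 1) * ((a 1 : ℕ) : ZMod p)) : (ZMod p)[X]) =
              - (C (-(γ b / γ 0)) * C (ε (a 0) * ((d - a 0 : ℕ) : ZMod p))) := by
            rw [← C_mul, ← C_mul, ← C_neg]
            congr 1
            rw [hκ, div_mul_cancel₀ _ (mul_ne_zero h6 h5)]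
            ring
          rw [C_mul (a := κ)]
          linear_combination h8 + X ^ (a 0) * h9

end Pool.Agent.SRC68

end
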