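import Pool.Agent.SRC68.Stm

/-!
# Project SRC, piece DR: separable polynomials over `F_p`
-/

set_option autoImplicit false

open Polynomial

namespace Pool.Agent.SRC68

theorem dr_cast {p : ℕ} [Fact p.Prime] {m n : ℕ} (h1 : m < n) (h2 : n < m + p) :
    (n : ZMod p) - (m : ZMod p) ≠ 0 := by
  intro h
  have h3 : ((n - m : ℕ) : ZMod p) = 0 := by
    rw [Nat.cast_sub h1.le]; exact h
  rw [ZMod.natCast_eq_zero_iff] at h3
  have := Nat.le_of_dvd (by omega) h3
  omega

/-- The choice of the coefficients. -/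
theorem dr_choice (p : ℕ) [Fact p.Prime] (ρ : ℕ) (S : Finset ℕ) (hp : 5 ≤ p) (hρ : 1 ≤ ρ)
    (hρp : ρ + 3 ≤ p) (a₁ : ℕ) (ha₁ : a₁ ∈ S) (hS : ∀ a ∈ S, ρ + 2 ≤ a ∧ a + 1 ≤ p)
    (hmin : ∀ a ∈ S, a₁ ≤ a) :
    ∃ (α : ZMod p) (ε : ℕ → ZMod p), α ≠ 0 ∧ (∀ a ∈ S, ε a ≠ 0) ∧ α + 1 - ∑ a ∈ S, ε a = 0 ∧
      ((ρ : ZMod p) + 1) * α + ρ - ∑ a ∈ S, (a : ZMod p) * ε a = 0 := by
  classical
  -- denominators
  have hD : ((ρ : ZMod p) + 1) - a₁ ≠ 0 := by
    have h := dr_cast (p := p) (m := ρ + 1) (n := a₁) (by have := hS a₁ ha₁; omega)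
      (by have := hS a₁ ha₁; omega)
    intro h2
    apply h
    push_cast
    linear_combination -h2
  by_cases hone : S = {a₁}
  · subst hone
    refine ⟨-((ρ : ZMod p) - a₁) / ((ρ : ZMod p) + 1 - a₁),
      fun _ => 1 / ((ρ : ZMod p) + 1 - a₁), ?_, ?_, ?_, ?_⟩
    · refine div_ne_zero (neg_ne_zero.2 ?_) hD
      have h := dr_cast (p := p) (m := ρ) (n := a₁) (by have := hS a₁ ha₁; omega)
        (by have := hS a₁ ha₁; omega)
      intro h2
      apply h
      linear_combination -h2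
    · intro a _
      exact one_div_ne_zero hD
    · rw [Finset.sum_singleton]
      field_simp
      ring
    · rw [Finset.sum_singleton]
      field_simp
      ring
  · obtain ⟨a₂, ha₂, hne⟩ : ∃ a₂ ∈ S, a₂ ≠ a₁ := by
      by_contra hcon
      push Not at hcon
      apply hone
      ext a
      rw [Finset.mem_singleton]
      exact ⟨fun h => hcon a h, fun h => h ▸ ha₁⟩
    have hlt : a₁ < a₂ := lt_of_le_of_ne (hmin a₂ ha₂) (Ne.symm hne)
    have h21 : (a₂ : ZMod p) - a₁ ≠ 0 := dr_cast hlt (by have := hS a₂ ha₂; omega)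
    have h2d : (a₂ : ZMod p) - (ρ + 1) ≠ 0 := by
      have h := dr_cast (p := p) (m := ρ + 1) (n := a₂) (by have := hS a₂ ha₂; omega)
        (by have := hS a₂ ha₂; omega)
      push_cast at h
      exact h
    set T : Finset ℕ := (S.erase a₁).erase a₂ with hT
    set s₀ : ZMod p := ∑ a ∈ T, (1 : ZMod p) with hs₀
    set s₁ : ZMod p := ∑ a ∈ T, (a : ZMod p) with hs₁
    -- `(ρ + 1 - a₁) α = c₀ + (a₂ - a₁) e`, `(ρ + 1 - a₁) ε₁ = c₁ + (a₂ - ρ - 1) e`
    set c₀ : ZMod p := -ρ + a₁ - a₁ * s₀ + s₁ with hc₀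
    set c₁ : ZMod p := c₀ + ((ρ : ZMod p) + 1 - a₁) * (1 - s₀) with hc₁
    obtain ⟨e, he⟩ : ∃ e : ZMod p, e ∉ ({0, -c₀ / ((a₂ : ZMod p) - a₁),
        -c₁ / ((a₂ : ZMod p) - (ρ + 1))} : Finset (ZMod p)) := by
      by_contra hcon
      push Not at hcon
      have h5 : (Finset.univ : Finset (ZMod p)).card ≤ 3 :=
        (Finset.card_le_card fun x _ => hcon x).trans Finset.card_le_three
      rw [Finset.card_univ, ZMod.card] at h5
      omega
    simp only [Finset.mem_insert, Finset.mem_singleton, not_or] at he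
    obtain ⟨he0, he1, he2⟩ := he
    set α : ZMod p := (c₀ + (a₂ - a₁) * e) / ((ρ : ZMod p) + 1 - a₁) with hα
    set ε₁ : ZMod p := (c₁ + (a₂ - (ρ + 1)) * e) / ((ρ : ZMod p) + 1 - a₁) with hε₁
    have hα' : ((ρ : ZMod p) + 1 - a₁) * α = c₀ + (a₂ - a₁) * e := by
      rw [hα]; field_simp
    have hε' : ((ρ : ZMod p) + 1 - a₁) * ε₁ = c₁ + (a₂ - (ρ + 1)) * e := by
      rw [hε₁]; field_simp
    let ε : ℕ → ZMod p := fun a => if a = a₁ then ε₁ else if a = a₂ then e else 1
    have hε1 : ε a₁ = ε₁ := if_pos rfl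
    have hε2 : ε a₂ = e := by
      change (if a₂ = a₁ then ε₁ else if a₂ = a₂ then e else 1) = e
      rw [if_neg hne, if_pos rfl]
    have hε3 : ∀ a ∈ T, ε a = 1 := by
      intro a ha
      rw [hT, Finset.mem_erase, Finset.mem_erase] at ha
      change (if a = a₁ then ε₁ else if a = a₂ then e else 1) = 1
      rw [if_neg ha.2.1, if_neg ha.1]
    have ha₂' : a₂ ∈ S.erase a₁ := Finset.mem_erase.2 ⟨hne, ha₂⟩
    have hsum : ∀ g : ℕ → ZMod p, ∑ a ∈ S, g a = g a₁ + (g a₂ + ∑ a ∈ T, g a) := by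
      intro g
      rw [hT, Finset.add_sum_erase _ _ ha₂', Finset.add_sum_erase _ _ ha₁]
    have hS0 : ∑ a ∈ S, ε a = ε₁ + (e + s₀) := by
      rw [hsum, hε1, hε2, Finset.sum_congr rfl hε3]
    have hS1 : ∑ a ∈ S, (a : ZMod p) * ε a = a₁ * ε₁ + (a₂ * e + s₁) := by
      rw [hsum, hε1, hε2]
      congr 2
      refine Finset.sum_congr rfl fun a ha => ?_
      rw [hε3 a ha, mul_one]
    have hrel : α + 1 - (ε₁ + (e + s₀)) = 0 := by
      have h6 : ((ρ : ZMod p) + 1 - a₁) * (α + 1 - (ε₁ + (e + s₀))) = 0 := by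
        have : ((ρ : ZMod p) + 1 - a₁) * (α + 1 - (ε₁ + (e + s₀))) =
          ((ρ : ZMod p) + 1 - a₁) * α - ((ρ : ZMod p) + 1 - a₁) * ε₁ +
            ((ρ : ZMod p) + 1 - a₁) * (1 - e - s₀) := by ring
        rw [this, hα', hε', hc₁]
        ring
      exact (mul_eq_zero.1 h6).resolve_left hD
    refine ⟨α, ε, ?_, ?_, ?_, ?_⟩
    · intro h
      rw [h, mul_zero] at hα'
      apply he1
      rw [eq_div_iff h21]
      linear_combination -hα'
    · intro a ha
      by_cases h7 : a = a₁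
      · rw [h7, hε1]
        intro h
        rw [h, mul_zero] at hε'
        apply he2
        rw [eq_div_iff h2d]
        linear_combination -hε'
      · by_cases h8 : a = a₂
        · rw [h8, hε2]; exact he0
        · have : ε a = 1 := hε3 a (by
            rw [hT, Finset.mem_erase, Finset.mem_erase]; exact ⟨h8, h7, ha⟩)
          rw [this]; exact one_ne_zero
    · rw [hS0]; exact hrel
    · rw [hS1]
      have h9 : ε₁ = α + 1 - e - s₀ := by linear_combination -hrel
      rw [h9]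
      have h10 := hα'
      rw [hc₀] at h10
      linear_combination h10

theorem t_DR : S_DR := by
  classical
  intro p _ ρ S hp hρ hρp hSne hS
  set a₁ := S.min' hSne with ha₁def
  have ha₁ : a₁ ∈ S := S.min'_mem hSne
  have hmin : ∀ a ∈ S, a₁ ≤ a := fun a ha => S.min'_le a ha
  obtain ⟨α, ε, hα, hε, h1, h2⟩ := dr_choice p ρ S hp hρ hρp a₁ ha₁ hS hmin
  have hb1 := hS a₁ ha₁
  set h₀ : (ZMod p)[X] :=
    C α * X ^ (p + ρ + 1) + X ^ (p + ρ) - ∑ a ∈ S, C (ε a) * X ^ a with hh₀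
  set h₁ : (ZMod p)[X] := C (((ρ : ZMod p) + 1) * α) * X ^ (p + ρ + 1 - a₁) +
    C (ρ : ZMod p) * X ^ (p + ρ - a₁) - ∑ a ∈ S, C ((a : ZMod p) * ε a) * X ^ (a - a₁) with hh₁
  have hder : derivative h₀ = X ^ (a₁ - 1) * h₁ := by
    rw [hh₀, hh₁, derivative_sub, derivative_add, derivative_C_mul, derivative_X_pow,
      derivative_X_pow, derivative_sum, mul_sub, mul_add, Finset.mul_sum]
    have e1 : X ^ (a₁ - 1) * (C (((ρ : ZMod p) + 1) * α) * X ^ (p + ρ + 1 - a₁)) =
        C α * (C (((p + ρ + 1 : ℕ) : ZMod p)) * X ^ (p + ρ + 1 - 1)) := by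
      have : ((p + ρ + 1 : ℕ) : ZMod p) = (ρ : ZMod p) + 1 := by
        push_cast; rw [ZMod.natCast_self]; ring
      rw [this, C_mul]
      have e0 : (X : (ZMod p)[X]) ^ (p + ρ + 1 - 1) = X ^ (a₁ - 1) * X ^ (p + ρ + 1 - a₁) := by
        rw [← pow_add]; congr 1; omega
      rw [e0]; ring
    have e2 : X ^ (a₁ - 1) * (C (ρ : ZMod p) * X ^ (p + ρ - a₁)) =
        C (((p + ρ : ℕ) : ZMod p)) * X ^ (p + ρ - 1) := by
      have : ((p + ρ : ℕ) : ZMod p) = (ρ : ZMod p) := by
        push_cast; rw [ZMod.natCast_self]; ring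
      rw [this]
      have e0 : (X : (ZMod p)[X]) ^ (p + ρ - 1) = X ^ (a₁ - 1) * X ^ (p + ρ - a₁) := by
        rw [← pow_add]; congr 1; omega
      rw [e0]; ring
    have e3 : ∀ a ∈ S, X ^ (a₁ - 1) * (C ((a : ZMod p) * ε a) * X ^ (a - a₁)) =
        derivative (C (ε a) * X ^ a) := by
      intro a ha
      have hb := hmin a ha
      rw [derivative_C_mul, derivative_X_pow, C_mul]
      have e0 : (X : (ZMod p)[X]) ^ (a - 1) = X ^ (a₁ - 1) * X ^ (a - a₁) := by
        rw [← pow_add]; congr 1; omega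
      rw [e0]; ring
    rw [e1, e2, Finset.sum_congr rfl e3]
  have hd1 : h₁.natDegree ≤ p - 1 := by
    rw [hh₁]
    refine (natDegree_sub_le _ _).trans (max_le ((natDegree_add_le _ _).trans (max_le ?_ ?_)) ?_)
    · exact (natDegree_C_mul_X_pow_le _ _).trans (by omega)
    · exact (natDegree_C_mul_X_pow_le _ _).trans (by omega)
    · refine natDegree_sum_le_of_forall_le S _ fun a ha => ?_
      have := hS a ha
      exact (natDegree_C_mul_X_pow_le _ _).trans (by omega)
  have hev0 : h₁.eval 0 = -((a₁ : ZMod p) * ε a₁) := by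
    rw [hh₁, eval_sub, eval_add, eval_finsetSum, Finset.sum_eq_single a₁]
    · simp only [eval_mul, eval_C, eval_pow, eval_X]
      rw [zero_pow (by omega), zero_pow (by omega), Nat.sub_self]
      ring
    · intro a ha hne
      have := hmin a ha
      simp only [eval_mul, eval_C, eval_pow, eval_X]
      rw [zero_pow (by omega), mul_zero]
    · intro h; exact absurd ha₁ h
  have ha1F : (a₁ : ZMod p) ≠ 0 := by
    have := dr_cast (p := p) (m := 0) (n := a₁) (by omega) (by omega)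
    simpa using this
  have h1ne : h₁ ≠ 0 := by
    intro h
    rw [h, eval_zero] at hev0
    exact (neg_ne_zero.2 (mul_ne_zero ha1F (hε a₁ ha₁))) hev0.symm
  have hev1 : h₁.eval 1 = 0 := by
    rw [hh₁, eval_sub, eval_add, eval_finsetSum]
    simp only [eval_mul, eval_C, eval_pow, eval_X, one_pow, mul_one]
    exact h2
  have h0ev1 : h₀.eval 1 = 0 := by
    rw [hh₀, eval_sub, eval_add, eval_finsetSum]
    simp only [eval_mul, eval_C, eval_pow, eval_X, one_pow, mul_one]
    exact h1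
  have h0ev0 : h₀.eval 0 = 0 := by
    rw [hh₀, eval_sub, eval_add, eval_finsetSum]
    simp only [eval_mul, eval_C, eval_pow, eval_X]
    rw [zero_pow (by omega), zero_pow (by omega), Finset.sum_eq_zero]
    · ring
    · intro a ha
      have := hS a ha
      rw [zero_pow (by omega), mul_zero]
  -- the bad values
  set K := AlgebraicClosure (ZMod p) with hK
  have hmapne : h₁.map (algebraMap (ZMod p) K) ≠ 0 :=
    (Polynomial.map_ne_zero_iff (algebraMap (ZMod p) K).injective).2 h1ne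
  set R : Finset K := (h₁.map (algebraMap (ZMod p) K)).roots.toFinset.erase 1 with hR
  have hRcard : R.card ≤ p - 2 := by
    have h1mem : (1 : K) ∈ (h₁.map (algebraMap (ZMod p) K)).roots.toFinset := by
      rw [Multiset.mem_toFinset, mem_roots hmapne, IsRoot.def, eval_map_algebraMap]
      have : aeval (1 : K) h₁ = algebraMap (ZMod p) K (h₁.eval 1) := by
        rw [← map_one (algebraMap (ZMod p) K), aeval_algebraMap_apply_eq_algebraMap_eval]
      rw [this, hev1, map_zero]
    rw [hR, Finset.card_erase_of_mem h1mem]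
    have h3 : (h₁.map (algebraMap (ZMod p) K)).roots.toFinset.card ≤ p - 1 :=
      (Multiset.toFinset_card_le _).trans ((card_roots' _).trans (natDegree_map_le.trans hd1))
    omega
  obtain ⟨γ, hγ0, hγ⟩ : ∃ γ : ZMod p, γ ≠ 0 ∧
      algebraMap (ZMod p) K γ ∉ R.image (fun x => aeval x h₀) := by
    by_contra hcon
    push Not at hcon
    have h3 : ((Finset.univ.erase (0 : ZMod p)).image (algebraMap (ZMod p) K)) ⊆
        R.image (fun x => aeval x h₀) := by
      intro y hy
      obtain ⟨x, hx, rfl⟩ := Finset.mem_image.1 hy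
      exact hcon x (Finset.ne_of_mem_erase hx)
    have h4 := Finset.card_le_card h3
    rw [Finset.card_image_of_injective _ (algebraMap (ZMod p) K).injective,
      Finset.card_erase_of_mem (Finset.mem_univ _), Finset.card_univ, ZMod.card] at h4
    have h5 : (R.image (fun x => aeval x h₀)).card ≤ R.card := Finset.card_image_le
    omega
  refine ⟨α, γ, ε, hα, hγ0, hε, ?_⟩
  change (h₀ - C γ).Separable
  rw [separable_def, Polynomial.isCoprime_iff_aeval_ne_zero_of_isAlgClosed (ZMod p) K]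
  intro x
  by_contra hcon
  push Not at hcon
  obtain ⟨hx1, hx2⟩ := hcon
  rw [map_sub, aeval_C, sub_eq_zero] at hx1
  rw [derivative_sub, derivative_C, sub_zero, hder, map_mul, map_pow, aeval_X] at hx2
  rcases mul_eq_zero.1 hx2 with h3 | h3
  · have h4 : x = 0 := pow_eq_zero_iff (by omega) |>.1 h3
    have h5 : aeval x h₀ = algebraMap (ZMod p) K (h₀.eval 0) := by
      rw [h4, ← map_zero (algebraMap (ZMod p) K), aeval_algebraMap_apply_eq_algebraMap_eval]
    rw [h5, h0ev0, map_zero] at hx1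
    exact hγ0 ((map_eq_zero _).1 hx1.symm)
  · by_cases h4 : x = 1
    · have h5 : aeval x h₀ = algebraMap (ZMod p) K (h₀.eval 1) := by
        rw [h4, ← map_one (algebraMap (ZMod p) K), aeval_algebraMap_apply_eq_algebraMap_eval]
      rw [h5, h0ev1, map_zero] at hx1
      exact hγ0 ((map_eq_zero _).1 hx1.symm)
    · apply hγ
      rw [← hx1]
      refine Finset.mem_image_of_mem (fun x => aeval x h₀) ?_
      rw [hR, Finset.mem_erase, Multiset.mem_toFinset, mem_roots hmapne, IsRoot.def,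
        eval_map_algebraMap]
      exact ⟨h4, h3⟩

end Pool.Agent.SRC68
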