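import Pool.Agent.SRC68.Stm

set_option autoImplicit false

open Polynomial

noncomputable section

namespace Pool.Agent.SRC68

/-- the curve `(0, 1, T, 0, …)` -/
def q1f (K : Type) [Field K] (n : ℕ) : Fin (n + 1) → K[X] :=
  fun i => if (i : ℕ) = 1 then 1 else if (i : ℕ) = 2 then X else 0

/-- the constant vectors `e_2, …, e_n` -/
def q1v (K : Type) [Field K] (n : ℕ) : Fin (Fintype.card (Fin (n + 1)) - 2) → Fin (n + 1) → K[X] :=
  fun j i => if (i : ℕ) = j + 2 then 1 else 0

theorem t_Q1 : S_Q1 := by
  intro p _ n hn
  have hpd : ∀ i : Fin (n + 1), MvPolynomial.pderiv i (MvPolynomial.X (0 : Fin (n + 1)) : MvPolynomial (Fin (n + 1)) (ZMod p)) = if i = 0 then 1 else 0 := by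
    intro i
    rw [MvPolynomial.pderiv_X]
    by_cases h : i = 0
    · subst h
      simp
    · rw [if_neg h, Pi.single_apply, if_neg]
      exact fun h' => h h'.symm
  refine ⟨MvPolynomial.X 0, MvPolynomial.isHomogeneous_X _ _, ?_, 1, q1f _ n, ?_⟩
  · intro x _ h2
    exfalso
    have := h2 0
    rw [hpd] at this
    simp at this
  · refine ⟨?_, ?_, ?_, ?_, ?_⟩
    · intro i
      unfold q1f
      split_ifs
      · rw [degree_one]
        exact_mod_cast Nat.zero_le 1
      · rw [degree_X]
        rfl
      · simp
    · refine ⟨⟨2, by omega⟩, ?_⟩
      unfold q1f
      simp
    · intro t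
      refine ⟨⟨1, by omega⟩, ?_⟩
      unfold q1f
      simp
    · rw [MvPolynomial.aeval_X]
      unfold q1f
      simp
    · refine ⟨q1v _ n, ?_, ?_, ?_⟩
      · intro j i
        unfold q1v
        split_ifs
        · rw [degree_one]
          exact_mod_cast Nat.zero_lt_one
        · rw [degree_zero]
          exact WithBot.bot_lt_coe _
      · intro j
        apply Finset.sum_eq_zero
        intro i _
        rw [hpd]
        unfold q1v
        by_cases h : i = 0
        · subst h
          simp
        · rw [if_neg h]
          simp
      · rw [Fintype.linearIndependent_iff]
        intro g hg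
        have hg' : ∀ i : Fin (n + 1), g none * q1f (AlgebraicClosure (ZMod p)) n i +
            ∑ j, g (some j) * q1v (AlgebraicClosure (ZMod p)) n j i = 0 := by
          intro i
          have := congrFun hg i
          rw [Fintype.sum_option] at this
          simpa [Finset.sum_apply] using this
        have h1 : g none = 0 := by
          have := hg' ⟨1, by omega⟩
          unfold q1f q1v at this
          simpa using this
        intro o
        rcases o with _ | j
        · exact h1
        · have hj : (j : ℕ) < n - 1 := by
            have h3 := Fintype.card_fin (n + 1)
            have h4 := j.2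
            omega
          have := hg' ⟨j + 2, by omega⟩
          rw [h1, zero_mul, zero_add] at this
          rw [Finset.sum_eq_single j] at this
          · unfold q1v at this
            simpa using this
          · intro k _ hk
            unfold q1v
            rw [if_neg, mul_zero]
            intro h
            apply hk
            apply Fin.ext
            simp only at h
            omega
          · intro h
            exact absurd (Finset.mem_univ _) h

end Pool.Agent.SRC68

end
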