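import Pool.Agent.SRC68.Stm

/-!
# Project SRC, piece Q2: quadrics

Both families are `F₀ + ∑ v_i v'_i` with `F₀` a smooth conic or a smooth quadric surface: the lemmas `hyp_*` add
the hyperbolic planes, the lemmas `con_*`, `sur_*` treat the two forms `F₀`.
-/

set_option autoImplicit false

open Polynomial

noncomputable section

namespace Pool.Agent.SRC68

section general

variable {k K : Type} [Field k] [Field K] [Algebra k K]

/-- constructor of `VeryFree` with an arbitrary index type of the sections -/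
theorem q2_vf_of {ι J : Type} [Fintype ι] [Fintype J] {F : MvPolynomial ι k} {e : ℕ} {f : ι → K[X]}
    (deg : ∀ i, (f i).degree ≤ e) (top : ∃ i, (f i).coeff e ≠ 0) (nz : ∀ t : K, ∃ i, (f i).eval t ≠ 0)
    (on : MvPolynomial.aeval f F = 0) (hJ : Fintype.card J = Fintype.card ι - 2) (V : J → ι → K[X])
    (hdeg : ∀ j i, (V j i).degree < e)
    (hker : ∀ j, ∑ i, V j i * MvPolynomial.aeval f (MvPolynomial.pderiv i F) = 0)
    (hli : ∀ (g0 : K[X]) (g : J → K[X]), (∀ i, g0 * f i + ∑ j, g j * V j i = 0) → g0 = 0 ∧ ∀ j, g j = 0) :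
    VeryFree F e f := by
  classical
  have E : Fin (Fintype.card ι - 2) ≃ J := (Fintype.equivFinOfCardEq hJ).symm
  refine ⟨deg, top, nz, on, fun j => V (E j), fun j i => hdeg _ i, fun j => hker _, ?_⟩
  rw [Fintype.linearIndependent_iff]
  intro g hg
  rw [Fintype.sum_option] at hg
  have h := hli (g none) (fun j => g (some (E.symm j))) (fun i => by
    have h1 := congrFun hg i
    simp only [Option.elim_none, Option.elim_some, Pi.add_apply, Pi.smul_apply, Finset.sum_apply,
      smul_eq_mul, Pi.zero_apply] at h1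
    rw [← h1]
    congr 1
    rw [← Equiv.sum_comp E]
    simp)
  rintro (_ | j)
  · exact h.1
  · have := h.2 (E j)
    simpa using this

/-- `F₀` plus `m` hyperbolic planes -/
def hyp {A : Type} (m : ℕ) (F₀ : MvPolynomial A k) : MvPolynomial (A ⊕ (Fin m ⊕ Fin m)) k :=
  MvPolynomial.rename Sum.inl F₀ +
    ∑ i : Fin m, MvPolynomial.X (Sum.inr (Sum.inl i)) * MvPolynomial.X (Sum.inr (Sum.inr i))

theorem hyp_hom {A : Type} (m : ℕ) {F₀ : MvPolynomial A k} (h : F₀.IsHomogeneous 2) :
    (hyp m F₀).IsHomogeneous 2 := by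
  unfold hyp
  refine MvPolynomial.IsHomogeneous.add h.rename_isHomogeneous ?_
  refine MvPolynomial.IsHomogeneous.sum _ _ _ fun i _ => ?_
  exact (MvPolynomial.isHomogeneous_X k _).mul (MvPolynomial.isHomogeneous_X k _)

theorem hyp_pd_inl {A : Type} (m : ℕ) (F₀ : MvPolynomial A k) (a : A) :
    MvPolynomial.pderiv (Sum.inl a) (hyp m F₀) = MvPolynomial.rename Sum.inl (MvPolynomial.pderiv a F₀) := by
  classical
  unfold hyp
  rw [map_add, MvPolynomial.pderiv_rename Sum.inl_injective, map_sum, Finset.sum_eq_zero, add_zero]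
  intro i _
  simp [Derivation.leibniz]

theorem hyp_pd_inr {A : Type} (m : ℕ) (F₀ : MvPolynomial A k) (s : Fin m ⊕ Fin m) :
    MvPolynomial.pderiv (Sum.inr s) (hyp m F₀) = MvPolynomial.X (Sum.inr s.swap) := by
  classical
  have h0 : MvPolynomial.pderiv (Sum.inr s : A ⊕ (Fin m ⊕ Fin m)) (MvPolynomial.rename Sum.inl F₀) = 0 := by
    apply MvPolynomial.pderiv_eq_zero_of_notMem_vars
    intro h
    have := MvPolynomial.vars_rename _ _ h
    simp at this
  unfold hyp
  rw [map_add, h0, zero_add, map_sum]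
  rcases s with i | i
  · rw [Finset.sum_eq_single i]
    · simp [Derivation.leibniz]
    · intro j _ hj
      simp [Derivation.leibniz, hj]
    · simp
  · rw [Finset.sum_eq_single i]
    · simp [Derivation.leibniz]
    · intro j _ hj
      simp [Derivation.leibniz, hj]
    · simp

theorem hyp_smooth {A : Type} (m : ℕ) {F₀ : MvPolynomial A k} (h : IsSmooth K F₀) :
    IsSmooth K (hyp m F₀) := by
  intro x hx hd
  have h2 : ∀ s : Fin m ⊕ Fin m, x (Sum.inr s) = 0 := by
    intro s
    have := hd (Sum.inr s.swap)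
    rw [hyp_pd_inr] at this
    simpa using this
  have h1 : x ∘ Sum.inl = 0 := by
    apply h
    · unfold hyp at hx
      rw [map_add, MvPolynomial.aeval_rename, map_sum, Finset.sum_eq_zero, add_zero] at hx
      · exact hx
      · intro i _
        simp [h2]
    · intro i
      have := hd (Sum.inl i)
      rwa [hyp_pd_inl, MvPolynomial.aeval_rename] at this
  funext s
  rcases s with a | s
  · exact congrFun h1 a
  · exact h2 s

theorem hyp_vf {A : Type} [Fintype A] (m : ℕ) {F₀ : MvPolynomial A k} {e : ℕ} {f : A → K[X]}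
    (hA : 2 ≤ Fintype.card A) (he : 1 ≤ e) (h : VeryFree F₀ e f) :
    VeryFree (hyp m F₀) e (Sum.elim f 0) := by
  classical
  obtain ⟨v, hv1, hv2, hv3⟩ := h.vf
  refine q2_vf_of (J := Fin (Fintype.card A - 2) ⊕ (Fin m ⊕ Fin m)) ?_ ?_ ?_ ?_ ?_
    (Sum.elim (fun j => Sum.elim (v j) 0) (fun s => Pi.single (Sum.inr s) 1)) ?_ ?_ ?_
  · rintro (a | s)
    · exact h.deg a
    · simp
  · obtain ⟨a, ha⟩ := h.top
    exact ⟨Sum.inl a, ha⟩
  · intro t
    obtain ⟨a, ha⟩ := h.nz t
    exact ⟨Sum.inl a, ha⟩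
  · unfold hyp
    rw [map_add, MvPolynomial.aeval_rename, map_sum, Finset.sum_eq_zero, add_zero]
    · exact h.on
    · intro i _
      simp
  · simp only [Fintype.card_sum, Fintype.card_fin]
    omega
  · have he' : (0 : WithBot ℕ) < e := by exact_mod_cast he
    rintro (j | s) (a | s')
    · exact hv1 j a
    · simp
    · simp
    · simp only [Sum.elim_inr]
      by_cases hs : s' = s
      · subst hs
        simpa using he'
      · rw [Pi.single_eq_of_ne (by simpa using hs)]
        simp
  · rintro (j | s)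
    · rw [Fintype.sum_sum_type]
      simp only [Sum.elim_inl, Sum.elim_inr, Pi.zero_apply, zero_mul, Finset.sum_const_zero, add_zero]
      rw [← hv2 j]
      refine Finset.sum_congr rfl fun a _ => ?_
      rw [hyp_pd_inl, MvPolynomial.aeval_rename]
      rfl
    · rw [Finset.sum_eq_single (Sum.inr s)]
      · rw [hyp_pd_inr]
        simp
      · intro s' _ hs
        simp [Pi.single_eq_of_ne hs]
      · simp
  · intro g0 g hg
    have hs : ∀ s, g (Sum.inr s) = 0 := by
      intro s
      have h1 := hg (Sum.inr s)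
      rw [Fintype.sum_sum_type] at h1
      simp only [Sum.elim_inl, Sum.elim_inr, Pi.zero_apply, mul_zero, Finset.sum_const_zero, zero_add] at h1
      rw [Finset.sum_eq_single s] at h1
      · simpa using h1
      · intro s' _ hs'
        rw [Pi.single_eq_of_ne (by simpa using hs'.symm), mul_zero]
      · simp
    rw [Fintype.linearIndependent_iff] at hv3
    have h2 := hv3 (fun o => o.elim g0 fun j => g (Sum.inl j)) (by
      rw [Fintype.sum_option]
      funext a
      have h1 := hg (Sum.inl a)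
      rw [Fintype.sum_sum_type] at h1
      simp only [Sum.elim_inl, Sum.elim_inr, hs, zero_mul, Finset.sum_const_zero, add_zero] at h1
      simpa [Finset.sum_apply] using h1)
    refine ⟨h2 none, ?_⟩
    rintro (j | s)
    · exact h2 (some j)
    · exact hs s

end general

section base

variable {k K : Type} [Field k] [Field K] [Algebra k K]

/-- the conic -/
def con : MvPolynomial (Fin 3) k :=
  MvPolynomial.X 0 * MvPolynomial.X 2 - MvPolynomial.X 1 ^ 2

theorem con_hom : (con : MvPolynomial (Fin 3) k).IsHomogeneous 2 := by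
  unfold con
  refine MvPolynomial.IsHomogeneous.sub ?_ ?_
  · exact (MvPolynomial.isHomogeneous_X k _).mul (MvPolynomial.isHomogeneous_X k _)
  · exact (MvPolynomial.isHomogeneous_X k _).pow 2

theorem con_pd (i : Fin 3) : MvPolynomial.pderiv i (con : MvPolynomial (Fin 3) k) =
    ![MvPolynomial.X 2, - (2 * MvPolynomial.X 1), MvPolynomial.X 0] i := by
  unfold con
  fin_cases i <;>
    simp [Derivation.leibniz, MvPolynomial.pderiv_X, Derivation.leibniz_pow, pow_one]

theorem con_smooth : IsSmooth K (con : MvPolynomial (Fin 3) k) := by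
  intro x hx hd
  have h0 := hd 0
  have h2 := hd 2
  rw [con_pd] at h0 h2
  simp at h0 h2
  have h1 : x 1 = 0 := by
    unfold con at hx
    simpa [h0, h2] using hx
  funext i
  fin_cases i <;> simp [h0, h1, h2]

theorem con_vf : VeryFree (K := K) (con : MvPolynomial (Fin 3) k) 2 ![1, X, X ^ 2] := by
  classical
  refine q2_vf_of (J := Fin 1) ?_ ?_ ?_ ?_ ?_ ![![0, 1, 2 * X]] ?_ ?_ ?_
  · intro i
    fin_cases i
    · simp
    · simp [degree_X]
    · simp
  · exact ⟨2, by simp⟩
  · intro t
    exact ⟨0, by simp⟩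
  · unfold con
    simp
  · simp
  · have hb : (⊥ : WithBot ℕ) < 2 := WithBot.bot_lt_coe 2
    have h2 : (2 * X : K[X]).degree < 2 := by
      have h3 : (2 * X : K[X]) = C 2 * X := by rw [map_ofNat]
      rw [h3]
      exact lt_of_le_of_lt (degree_C_mul_X_le 2) (by norm_num)
    intro j i
    fin_cases j
    fin_cases i
    · simp [hb]
    · simp
    · exact h2
  · intro j
    fin_cases j
    simp [Fin.sum_univ_three, con_pd]
  · intro g0 g hg
    have h0 := hg 0
    have h1 := hg 1
    simp at h0 h1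
    subst h0
    refine ⟨rfl, ?_⟩
    intro j
    fin_cases j
    simpa using h1

/-- the quadric surface -/
def sur : MvPolynomial (Fin 4) k :=
  MvPolynomial.X 0 * MvPolynomial.X 2 - MvPolynomial.X 1 * MvPolynomial.X 3

theorem sur_hom : (sur : MvPolynomial (Fin 4) k).IsHomogeneous 2 := by
  unfold sur
  refine MvPolynomial.IsHomogeneous.sub ?_ ?_
  · exact (MvPolynomial.isHomogeneous_X k _).mul (MvPolynomial.isHomogeneous_X k _)
  · exact (MvPolynomial.isHomogeneous_X k _).mul (MvPolynomial.isHomogeneous_X k _)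

theorem sur_pd (i : Fin 4) : MvPolynomial.pderiv i (sur : MvPolynomial (Fin 4) k) =
    ![MvPolynomial.X 2, - MvPolynomial.X 3, MvPolynomial.X 0, - MvPolynomial.X 1] i := by
  unfold sur
  fin_cases i <;>
    simp [Derivation.leibniz, MvPolynomial.pderiv_X]

theorem sur_smooth : IsSmooth K (sur : MvPolynomial (Fin 4) k) := by
  intro x hx hd
  have h0 := hd 0
  have h1 := hd 1
  have h2 := hd 2
  have h3 := hd 3
  rw [sur_pd] at h0 h1 h2 h3
  simp at h0 h1 h2 h3
  funext i
  fin_cases i <;> simp [h0, h1, h2, h3]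

theorem sur_vf : VeryFree (K := K) (sur : MvPolynomial (Fin 4) k) 2 ![1, X, X ^ 2, X] := by
  classical
  refine q2_vf_of (J := Fin 2) ?_ ?_ ?_ ?_ ?_ ![![0, 1, X, 0], ![0, 0, X, 1]] ?_ ?_ ?_
  · intro i
    fin_cases i
    · simp
    · simp [degree_X]
    · simp
    · simp [degree_X]
  · exact ⟨2, by simp⟩
  · intro t
    exact ⟨0, by simp⟩
  · unfold sur
    simp
    ring
  · simp
  · have hb : (⊥ : WithBot ℕ) < 2 := WithBot.bot_lt_coe 2
    intro j i
    fin_cases j <;> fin_cases i <;> simp [hb]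
  · intro j
    fin_cases j <;> simp [Fin.sum_univ_four, sur_pd]
  · intro g0 g hg
    have h0 := hg 0
    have h1 := hg 1
    have h3 := hg 3
    simp [Fin.sum_univ_two] at h0 h1 h3
    subst h0
    refine ⟨rfl, ?_⟩
    intro j
    fin_cases j
    · simpa using h1
    · simpa using h3

end base

/-- **Q2** -/
theorem t_Q2 (h : S_TR) : S_Q2 := by
  intro p _ n hn
  rcases Nat.even_or_odd n with ⟨m, hm⟩ | ⟨m, hm⟩
  · refine h p n 2 (Fin 3 ⊕ (Fin (m - 1) ⊕ Fin (m - 1))) (hyp (m - 1) con) ?_ (hyp_hom _ con_hom)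
      (hyp_smooth _ con_smooth) ⟨2, _, hyp_vf (m - 1) (by simp) (by norm_num) con_vf⟩
    simp only [Fintype.card_sum, Fintype.card_fin]
    omega
  · refine h p n 2 (Fin 4 ⊕ (Fin (m - 1) ⊕ Fin (m - 1))) (hyp (m - 1) sur) ?_ (hyp_hom _ sur_hom)
      (hyp_smooth _ sur_smooth) ⟨2, _, hyp_vf (m - 1) (by simp) (by norm_num) sur_vf⟩
    simp only [Fintype.card_sum, Fintype.card_fin]
    omega

end Pool.Agent.SRC68

end
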