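import Pool.Agent.SRC68.Stm

/-!
# Project SRC, piece TR: transport to `Fin (n + 1)` (helper12)
-/

set_option autoImplicit false

open Polynomial

namespace Pool.Agent.SRC68

namespace TRP

theorem pd {ι κ : Type} (p : ℕ) [Fact p.Prime] (e : ι ≃ κ) (F : MvPolynomial ι (ZMod p)) (j : κ) :
    MvPolynomial.pderiv j (MvPolynomial.rename e F) =
      MvPolynomial.rename e (MvPolynomial.pderiv (e.symm j) F) := by
  have h := MvPolynomial.pderiv_rename (R := ZMod p) e.injective (e.symm j) F
  rw [Equiv.apply_symm_apply] at h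
  exact h

end TRP

open TRP in
theorem t_TR : S_TR := by
  intro p _ n d ι _ _ F hι hF hS hR
  have e : ι ≃ Fin (n + 1) := Fintype.equivFinOfCardEq hι
  have hcard : Fintype.card (Fin (n + 1)) = Fintype.card ι := Fintype.card_congr e.symm
  refine ⟨MvPolynomial.rename e F, hF.rename_isHomogeneous, ?_, ?_⟩
  · intro x hx hx'
    rw [MvPolynomial.aeval_rename] at hx
    have h1 : x ∘ e = 0 := by
      apply hS (x ∘ e) hx
      intro i
      have h2 := hx' (e i)
      rw [pd, MvPolynomial.aeval_rename, Equiv.symm_apply_apply] at h2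
      exact h2
    funext j
    have h2 := congrFun h1 (e.symm j)
    simpa using h2
  · obtain ⟨m, f, hf⟩ := hR
    obtain ⟨v, hv1, hv2, hv3⟩ := hf.vf
    have hfe : (f ∘ e.symm) ∘ e = f := by
      funext i; simp
    have hc : Fintype.card (Fin (n + 1)) - 2 = Fintype.card ι - 2 := by rw [hcard]
    refine ⟨m, f ∘ e.symm, fun j => hf.deg _, ?_, fun t => ?_, ?_,
      fun j i => v (Fin.cast hc j) (e.symm i), fun j i => hv1 _ _, fun j => ?_, ?_⟩
    · obtain ⟨i, hi⟩ := hf.top
      exact ⟨e i, by simpa using hi⟩
    · obtain ⟨i, hi⟩ := hf.nz t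
      exact ⟨e i, by simpa using hi⟩
    · rw [MvPolynomial.aeval_rename, hfe]
      exact hf.on
    · rw [← hv2 (Fin.cast hc j)]
      refine Fintype.sum_equiv e.symm _ _ fun i => ?_
      rw [pd, MvPolynomial.aeval_rename, hfe]
    · -- linear independence
      have h1 := hv3.map' (LinearMap.funLeft (AlgebraicClosure (ZMod p))[X]
        (AlgebraicClosure (ZMod p))[X] e.symm) (by
          rw [LinearMap.ker_eq_bot]
          exact LinearMap.funLeft_injective_of_surjective _ _ _ e.symm.surjective)
      have h2 := h1.comp (Option.map (Fin.cast hc)) (Option.map_injective (Fin.cast_injective hc))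
      have e3 : (fun o : Option (Fin (Fintype.card (Fin (n + 1)) - 2)) =>
          o.elim (f ∘ e.symm) (fun j i => v (Fin.cast hc j) (e.symm i))) =
          (⇑(LinearMap.funLeft (AlgebraicClosure (ZMod p))[X] (AlgebraicClosure (ZMod p))[X] e.symm) ∘
            fun o : Option (Fin (Fintype.card ι - 2)) => o.elim f v) ∘ Option.map (Fin.cast hc) := by
        funext o
        cases o <;> rfl
      rw [e3]
      exact h2

end Pool.Agent.SRC68
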