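import Pool.Agent.SRC68.Stm

/-!
# Project SRC, piece VF: the criterion for very free curves (helper12)
-/

set_option autoImplicit false

open Polynomial

noncomputable section

namespace Pool.Agent.SRC68

namespace VFP

variable {K : Type} [Field K]

/-- solving a linear congruence modulo `b` -/
theorem solve {b : K[X]} (hb : 0 < b.natDegree) {r : K[X]} (s : K[X]) (h : IsCoprime r b) :
    ∃ α : K[X], α.natDegree < b.natDegree ∧ b ∣ s + α * r := by
  have hb0 : b ≠ 0 := by rintro rfl; simp at hb
  obtain ⟨u, v, huv⟩ := h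
  refine ⟨(-s * u) % b, ?_, ?_⟩
  · by_cases h0 : (-s * u) % b = 0
    · rw [h0, natDegree_zero]; exact hb
    · exact natDegree_lt_natDegree h0 (degree_mod_lt _ hb0)
  · refine ⟨s * v - ((-s * u) / b) * r, ?_⟩
    have h1 := EuclideanDomain.div_add_mod (-s * u) b
    have h2 : (-s * u) % b = -s * u - b * ((-s * u) / b) := by
      linear_combination h1
    rw [h2]
    linear_combination (-s) * huv

/-- the chain -/
theorem chain {b : K[X]} (hb : 0 < b.natDegree) {n : ℕ} (G r : Fin n → K[X])
    (hG : ∀ k, G k = b ^ (k : ℕ) * r k) (hr : ∀ k, IsCoprime (r k) b) (j : Fin n) :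
    ∀ m : ℕ, (j : ℕ) + 1 ≤ m → m ≤ n → ∃ α : Fin n → K[X],
      (∀ k : Fin n, ((k : ℕ) ≤ j ∨ m ≤ (k : ℕ)) → α k = 0) ∧ (∀ k, (α k).natDegree < b.natDegree) ∧
      b ^ m ∣ b * G j + ∑ k, α k * G k := by
  intro m hm
  induction m, hm using Nat.le_induction with
  | base =>
    intro _
    refine ⟨fun _ => 0, fun _ _ => rfl, fun _ => by rw [natDegree_zero]; exact hb, r j, ?_⟩
    rw [hG j]
    simp
    ring
  | succ m hm ih =>
    intro hmn
    obtain ⟨α, h1, h2, s, hs⟩ := ih (by omega)
    obtain ⟨x, hx1, y, hx2⟩ := solve hb s (hr ⟨m, by omega⟩)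
    refine ⟨fun k => α k + (Pi.single (⟨m, by omega⟩ : Fin n) x : Fin n → K[X]) k, ?_, ?_, y, ?_⟩
    · intro k hk
      have hne : k ≠ ⟨m, by omega⟩ := by
        rintro rfl
        simp only at hk
        omega
      simp only [Pi.single_eq_of_ne hne, add_zero]
      exact h1 k (by omega)
    · intro k
      by_cases hk : k = ⟨m, by omega⟩
      · subst hk
        simp only [Pi.single_eq_same]
        rw [h1 _ (Or.inr le_rfl), zero_add]
        exact hx1
      · simp only [Pi.single_eq_of_ne hk, add_zero]
        exact h2 k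
    · have e : ∑ k, (α k + (Pi.single (⟨m, by omega⟩ : Fin n) x : Fin n → K[X]) k) * G k =
          ∑ k, α k * G k + x * G ⟨m, by omega⟩ := by
        simp only [add_mul, Finset.sum_add_distrib]
        congr 1
        rw [Finset.sum_eq_single (⟨m, by omega⟩ : Fin n)]
        · rw [Pi.single_eq_same]
        · intro k _ hk
          rw [Pi.single_eq_of_ne hk, zero_mul]
        · intro h; exact absurd (Finset.mem_univ _) h
      rw [e, ← add_assoc, hs, hG ⟨m, by omega⟩, pow_succ]
      linear_combination b ^ m * hx2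

theorem sub_le {p q : K[X]} {n : ℕ} (hp : p.natDegree ≤ n) (hq : q.natDegree ≤ n) :
    (p - q).natDegree ≤ n := (natDegree_sub_le_of_le hp hq).trans (max_self n).le

/-- the claim -/
theorem claim {d : ℕ} (hd : 3 ≤ d) {a b : K[X]} (hb : b.natDegree = d - 1) (ha : a.natDegree ≤ d)
    (hab : IsCoprime a b) (hbb : IsCoprime b (derivative b)) (c : K[X])
    (hc : c.natDegree ≤ 3 * (d - 1)) : ∃ αx αy αz : K[X], αx.natDegree ≤ d - 1 ∧
      αy.natDegree ≤ d - 1 ∧ αz.natDegree ≤ d - 1 ∧
      αx * (a * b - X * (b * derivative a - a * derivative b)) +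
        αy * (b * derivative a - a * derivative b) + αz * b ^ 2 = c := by
  have hb1 : 0 < b.natDegree := by omega
  have hb0 : b ≠ 0 := by rintro rfl; simp at hb1
  have hq : IsCoprime (b * derivative a - a * derivative b) b := by
    have h1 : IsCoprime (-(a * derivative b)) b := (hab.mul_left hbb.symm).neg_left
    have h2 := h1.add_mul_left_left (derivative a)
    have e : b * derivative a - a * derivative b = -(a * derivative b) + b * derivative a := by ring
    rw [e]
    exact h2
  have hda : (derivative a).natDegree ≤ d - 1 := (natDegree_derivative_le a).trans (by omega)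
  have hdb : (derivative b).natDegree ≤ d - 2 := (natDegree_derivative_le b).trans (by omega)
  have hqd : (b * derivative a - a * derivative b).natDegree ≤ 2 * (d - 1) := by
    apply sub_le
    · exact (natDegree_mul_le_of_le hb.le hda).trans (by omega)
    · exact (natDegree_mul_le_of_le ha hdb).trans (by omega)
  obtain ⟨g, hg, c', hc'⟩ := solve hb1 c hq
  have hc'd : c'.natDegree ≤ 2 * (d - 1) := by
    by_cases h0 : c' = 0
    · rw [h0]; simp
    · have h1 : (b * c').natDegree ≤ 3 * (d - 1) := by
        rw [← hc']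
        apply natDegree_add_le_of_degree_le hc
        exact (natDegree_mul_le_of_le hg.le hqd).trans (by omega)
      rw [natDegree_mul hb0 h0] at h1
      omega
  obtain ⟨β', hβ', z, hz⟩ := solve hb1 c' hab
  -- `c' + β' a = b z`, `β = -β'`
  have hzd : z.natDegree ≤ d - 1 := by
    by_cases h0 : z = 0
    · rw [h0]; simp
    · have h1 : (b * z).natDegree ≤ 2 * (d - 1) := by
        rw [← hz]
        apply natDegree_add_le_of_degree_le hc'd
        have h2 : β'.natDegree ≤ d - 2 := by omega
        exact (natDegree_mul_le_of_le h2 ha).trans (by omega)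
      rw [natDegree_mul hb0 h0] at h1
      omega
  refine ⟨-β', X * (-β') - g, z, ?_, ?_, hzd, ?_⟩
  · rw [natDegree_neg]; omega
  · apply sub_le
    · have h2 : (-β').natDegree ≤ d - 2 := by rw [natDegree_neg]; omega
      exact (natDegree_mul_le_of_le natDegree_X_le h2).trans (by omega)
    · omega
  · linear_combination (-b) * hz - hc'

theorem aeval_natDegree {ι k : Type} [Fintype ι] [Field k] [Algebra k K] (f : ι → K[X]) (d m : ℕ)
    (hf : ∀ i, (f i).natDegree ≤ d) (G : MvPolynomial ι k) (hG : G.IsHomogeneous m) :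
    (MvPolynomial.aeval f G).natDegree ≤ d * m := by
  classical
  rw [MvPolynomial.aeval_def, MvPolynomial.eval₂_eq']
  apply natDegree_sum_le_of_forall_le
  intro s hs
  have hsm : ∑ i, s i = m := by
    have h1 := hG (MvPolynomial.mem_support_iff.1 hs)
    rw [← h1, Finsupp.weight_apply]
    simp [Finsupp.sum_fintype]
  refine natDegree_mul_le.trans ?_
  have h1 : (algebraMap k K[X] (MvPolynomial.coeff s G)).natDegree = 0 := by
    rw [Polynomial.algebraMap_apply, natDegree_C]
  rw [h1, zero_add]
  refine (natDegree_prod_le _ _).trans ?_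
  rw [← hsm, Finset.mul_sum]
  refine Finset.sum_le_sum fun i _ => ?_
  refine natDegree_pow_le.trans ?_
  rw [mul_comm d]
  exact Nat.mul_le_mul_left _ (hf i)

theorem D_natDegree {ι k : Type} [Fintype ι] [Field k] [Algebra k K] (f : ι → K[X]) (d : ℕ)
    (hf : ∀ i, (f i).natDegree ≤ d) (F : MvPolynomial ι k) (hF : F.IsHomogeneous d) (e : ι → K) :
    (D F f e).natDegree ≤ d * (d - 1) := by
  rw [D]
  apply natDegree_sum_le_of_forall_le
  intro i _
  refine natDegree_mul_le.trans ?_
  rw [natDegree_C, zero_add]
  exact aeval_natDegree f d (d - 1) hf _ hF.pderiv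

/-- constant vectors -/
def lin {ι : Type} (e : ι → K) : ι → K[X] := fun i => C (e i)

/-- coordinates -/
theorem coords {ι τ : Type} [Fintype ι] [Finite τ] (B : τ → ι → K)
    (hB : LinearIndependent K B) : ∃ co : τ → (ι → K[X]) →ₗ[K[X]] K[X],
      ∀ s t, co s (lin (B t)) = open Classical in if s = t then 1 else 0 := by
  classical
  have := Fintype.ofFinite τ
  have hinj := linearIndependent_iff_injective_fintypeLinearCombination.1 hB
  obtain ⟨G, hG⟩ := LinearMap.exists_leftInverse_of_injective _ (LinearMap.ker_eq_bot.2 hinj)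
  have hGB : ∀ t, G (B t) = Pi.single t 1 := by
    intro t
    have h1 := LinearMap.congr_fun hG (Pi.single t 1)
    rw [LinearMap.comp_apply, Fintype.linearCombination_apply_single, one_smul] at h1
    exact h1
  refine ⟨fun s => ∑ i, C (G (Pi.single i 1) s) • LinearMap.proj i, ?_⟩
  intro s t
  have h2 : ∀ e : ι → K, (∑ i, C (G (Pi.single i 1) s) • (LinearMap.proj i :
      (ι → K[X]) →ₗ[K[X]] K[X])) (lin e) = C (G e s) := by
    intro e
    have h3 : G e = ∑ i, e i • G (Pi.single i 1) := by
      conv_lhs => rw [pi_eq_sum_univ' e]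
      rw [map_sum]
      refine Finset.sum_congr rfl fun i _ => ?_
      rw [map_smul]
    rw [LinearMap.sum_apply, h3, Finset.sum_apply, map_sum]
    refine Finset.sum_congr rfl fun i _ => ?_
    simp [lin, mul_comm]
  rw [h2, hGB, Pi.single_apply]
  split_ifs <;> simp

theorem deg_lt {d : ℕ} (hd : 3 ≤ d) {p : K[X]} (hp : p.natDegree ≤ d - 1) : p.degree < d :=
  lt_of_le_of_lt (degree_le_of_natDegree_le hp) (by exact_mod_cast (by omega : d - 1 < d))

end VFP

open VFP in
theorem t_VF : S_VF := by
  classical
  intro k K _ _ _ ι N _ _ _ F d a b ex ey ez lam nu r hd hF hb ha hab hbb hcard hLI hon hDx hDy hDz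
    hDl hDn
  obtain ⟨f, hf⟩ : ∃ f, f = crv a b ex ey ez := ⟨_, rfl⟩
  rw [← hf] at hon hDx hDy hDz hDl hDn ⊢
  have hb1 : 0 < b.natDegree := by omega
  have hb0 : b ≠ 0 := by rintro rfl; simp at hb1
  have ha' : a.natDegree ≤ d := natDegree_le_of_degree_le ha
  have hda : (derivative a).natDegree ≤ d - 1 := (natDegree_derivative_le a).trans (by omega)
  have hdb : (derivative b).natDegree ≤ d - 2 := (natDegree_derivative_le b).trans (by omega)
  have hfi : ∀ i, f i = C (ex i) * b + C (ey i) * (X * b) - C (ez i) * a := by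
    intro i; rw [hf]; rfl
  have hCm : ∀ (c : K) (q : K[X]) (m : ℕ), q.natDegree ≤ m → (C c * q).natDegree ≤ m := by
    intro c q m hq
    exact (natDegree_C_mul_le c q).trans hq
  have hfd : ∀ i, (f i).natDegree ≤ d := by
    intro i
    rw [hfi]
    apply sub_le
    · apply natDegree_add_le_of_degree_le
      · exact hCm _ _ _ (by omega)
      · exact hCm _ _ _ ((natDegree_mul_le_of_le natDegree_X_le hb.le).trans (by omega))
    · exact hCm _ _ _ ha'
  obtain ⟨co, hco⟩ := coords _ hLI
  have cx : ∀ s, co s (lin ex) = if s = Sum.inl 0 then 1 else 0 := fun s => by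
    have h := hco s (Sum.inl 0)
    convert h
    rfl
  have cy : ∀ s, co s (lin ey) = if s = Sum.inl 1 then 1 else 0 := fun s => by
    have h := hco s (Sum.inl 1)
    convert h
    rfl
  have cz : ∀ s, co s (lin ez) = if s = Sum.inl 2 then 1 else 0 := fun s => by
    have h := hco s (Sum.inl 2)
    convert h
    rfl
  have cl : ∀ s j, co s (lin (lam j)) = if s = Sum.inr (Sum.inl j) then 1 else 0 := fun s j => by
    have h := hco s (Sum.inr (Sum.inl j))
    convert h
    rfl
  have cn : ∀ s i, co s (lin (nu i)) = if s = Sum.inr (Sum.inr i) then 1 else 0 := fun s i => by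
    have h := hco s (Sum.inr (Sum.inr i))
    convert h
    rfl
  have LI3 : LinearIndependent K ![ex, ey, ez] := hLI.comp Sum.inl Sum.inl_injective
  have LI3' : ∀ x y z : K, (∀ i, x * ex i + y * ey i + z * ez i = 0) → x = 0 ∧ y = 0 ∧ z = 0 := by
    intro x y z h
    have h1 := Fintype.linearIndependent_iff.1 LI3 ![x, y, z] (by
      funext i
      rw [Fin.sum_univ_three]
      simpa using h i)
    exact ⟨h1 0, h1 1, h1 2⟩
  -- the linear form `dF (f)`
  obtain ⟨Dl, hDl0⟩ : ∃ Dl : (ι → K[X]) →ₗ[K[X]] K[X],
      ∀ v, Dl v = ∑ i, v i * MvPolynomial.aeval f (MvPolynomial.pderiv i F) := by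
    refine ⟨∑ i, MvPolynomial.aeval f (MvPolynomial.pderiv i F) • LinearMap.proj i, fun v => ?_⟩
    rw [LinearMap.sum_apply]
    refine Finset.sum_congr rfl fun i _ => ?_
    simp [mul_comm]
  have hDlin : ∀ e, Dl (lin e) = D F f e := fun e => hDl0 _
  have hfe : f = b • lin ex + (X * b) • lin ey - a • lin ez := by
    funext i
    rw [hfi]
    simp only [lin, Pi.sub_apply, Pi.add_apply, Pi.smul_apply, smul_eq_mul]
    ring
  obtain ⟨f', hf'⟩ : ∃ f' : ι → K[X], f' = derivative b • lin ex +
      (b + X * derivative b) • lin ey - derivative a • lin ez := ⟨_, rfl⟩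
  have hf'd : ∀ i, (f' i).natDegree ≤ d - 1 := by
    intro i
    rw [hf']
    simp only [lin, Pi.sub_apply, Pi.add_apply, Pi.smul_apply, smul_eq_mul]
    apply sub_le
    · apply natDegree_add_le_of_degree_le
      · rw [mul_comm]; exact hCm _ _ _ (by omega)
      · rw [mul_comm]
        apply hCm
        apply natDegree_add_le_of_degree_le hb.le
        exact (natDegree_mul_le_of_le natDegree_X_le hdb).trans (by omega)
    · rw [mul_comm]; exact hCm _ _ _ hda
  have hDf' : Dl f' = 0 := by
    rw [hf', map_sub, map_add, map_smul, map_smul, map_smul, hDlin, hDlin, hDlin, hDx, hDy, hDz]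
    simp only [smul_eq_mul]
    obtain ⟨m, rfl⟩ : ∃ m, d = m + 2 := ⟨d - 2, by omega⟩
    rw [Nat.add_sub_cancel]
    ring
  -- the vectors `V j`
  have hV : ∀ j : Fin (d - 2), ∃ (αx αy αz : K[X]) (α : Fin (d - 2) → K[X]),
      αx.natDegree ≤ d - 1 ∧ αy.natDegree ≤ d - 1 ∧ αz.natDegree ≤ d - 1 ∧
      (∀ k : Fin (d - 2), (k : ℕ) ≤ j → α k = 0) ∧ (∀ k, (α k).natDegree ≤ d - 1) ∧
      Dl (αx • lin ex + αy • lin ey + αz • lin ez + b • lin (lam j) +
        ∑ k, α k • lin (lam k)) = 0 := by
    intro j
    obtain ⟨α, h1, h2, c, hc⟩ := chain hb1 (fun k => D F f (lam k)) r (fun k => (hDl k).1)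
      (fun k => (hDl k).2) j (d - 2) j.2 le_rfl
    have hcd : c.natDegree ≤ 3 * (d - 1) := by
      by_cases h0 : c = 0
      · rw [h0]; simp
      · have h3 : (b ^ (d - 2) * c).natDegree ≤ (d - 1) + d * (d - 1) := by
          rw [← hc]
          apply natDegree_add_le_of_degree_le
          · exact natDegree_mul_le_of_le hb.le (D_natDegree f d hfd F hF _)
          · apply natDegree_sum_le_of_forall_le
            intro k _
            exact natDegree_mul_le_of_le (by have := h2 k; omega) (D_natDegree f d hfd F hF _)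
        rw [natDegree_mul (pow_ne_zero _ hb0) h0, natDegree_pow, hb] at h3
        obtain ⟨m, rfl⟩ : ∃ m, d = m + 2 := ⟨d - 2, by omega⟩
        rw [Nat.add_sub_cancel] at h3
        have e1 : m + 2 - 1 = m + 1 := by omega
        rw [e1] at h3 ⊢
        nlinarith
    obtain ⟨αx, αy, αz, hx, hy, hz, hsum⟩ := claim hd hb ha' hab hbb (-c)
      (by rw [natDegree_neg]; exact hcd)
    refine ⟨αx, αy, αz, α, hx, hy, hz, fun k hk => h1 k (Or.inl hk),
      fun k => by have := h2 k; omega, ?_⟩
    simp only [map_add, map_smul, map_sum, hDlin, hDx, hDy, hDz, smul_eq_mul]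
    have hbd : b ^ d = b ^ (d - 2) * b ^ 2 := by rw [← pow_add]; congr 1; omega
    rw [hbd]
    linear_combination b ^ (d - 2) * hsum + hc
  choose αx αy αz α hx hy hz hα1 hα2 hDV using hV
  obtain ⟨V, hVe⟩ : ∃ V : Fin (d - 2) → ι → K[X], ∀ j, V j = αx j • lin ex + αy j • lin ey +
      αz j • lin ez + b • lin (lam j) + ∑ k, α j k • lin (lam k) := ⟨_, fun _ => rfl⟩
  have hVd : ∀ j i, (V j i).natDegree ≤ d - 1 := by
    intro j i
    rw [hVe]
    simp only [lin, Pi.add_apply, Pi.smul_apply, smul_eq_mul, Finset.sum_apply]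
    refine natDegree_add_le_of_degree_le (natDegree_add_le_of_degree_le
      (natDegree_add_le_of_degree_le (natDegree_add_le_of_degree_le ?_ ?_) ?_) ?_) ?_
    · rw [mul_comm]; exact hCm _ _ _ (hx j)
    · rw [mul_comm]; exact hCm _ _ _ (hy j)
    · rw [mul_comm]; exact hCm _ _ _ (hz j)
    · rw [mul_comm]; exact hCm _ _ _ hb.le
    · apply natDegree_sum_le_of_forall_le
      intro k _
      rw [mul_comm]; exact hCm _ _ _ (hα2 j k)
  obtain ⟨v', hv'⟩ : ∃ v' : Option (Fin (d - 2) ⊕ N) → ι → K[X], v' = fun o =>
      o.elim f' (Sum.elim V fun i => lin (nu i)) := ⟨_, rfl⟩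
  have hvd : ∀ o i, (v' o i).natDegree ≤ d - 1 := by
    intro o i
    rw [hv']
    rcases o with _ | x | x
    · exact hf'd i
    · exact hVd x i
    · change (C (nu x i)).natDegree ≤ d - 1
      rw [natDegree_C]
      omega
  have hvD : ∀ o, Dl (v' o) = 0 := by
    intro o
    rw [hv']
    rcases o with _ | x | x
    · exact hDf'
    · change Dl (V x) = 0
      rw [hVe]
      exact hDV x
    · change Dl (lin (nu x)) = 0
      rw [hDlin]
      exact hDn x
  have hcard' : Fintype.card (Option (Fin (d - 2) ⊕ N)) = Fintype.card ι - 2 := by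
    rw [Fintype.card_option, Fintype.card_sum, Fintype.card_fin, hcard]
    omega
  have e : Option (Fin (d - 2) ⊕ N) ≃ Fin (Fintype.card ι - 2) := Fintype.equivFinOfCardEq hcard'
  refine ⟨fun i => degree_le_of_natDegree_le (hfd i), ?_, ?_, hon,
    fun j => v' (e.symm j), ?_, ?_, ?_⟩
  · -- top
    by_contra hcon
    push Not at hcon
    have h1 : ∀ i, 0 * ex i + b.coeff (d - 1) * ey i + (-a.coeff d) * ez i = 0 := by
      intro i
      have h2 := hcon i
      rw [hfi] at h2
      obtain ⟨m, rfl⟩ : ∃ m, d = m + 1 := ⟨d - 1, by omega⟩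
      rw [coeff_sub, coeff_add, coeff_C_mul, coeff_C_mul, coeff_C_mul, coeff_X_mul,
        coeff_eq_zero_of_natDegree_lt (by omega : b.natDegree < m + 1)] at h2
      rw [Nat.add_sub_cancel]
      linear_combination h2
    have h2 := (LI3' _ _ _ h1).2.1
    rw [← hb] at h2
    exact hb0 (leadingCoeff_eq_zero.1 h2)
  · -- nz
    intro t
    by_contra hcon
    push Not at hcon
    have h1 : ∀ i, b.eval t * ex i + (t * b.eval t) * ey i + (-a.eval t) * ez i = 0 := by
      intro i
      have h2 := hcon i
      rw [hfi] at h2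
      simp only [eval_sub, eval_add, eval_mul, eval_C, eval_X] at h2
      linear_combination h2
    obtain ⟨h3, -, h4⟩ := LI3' _ _ _ h1
    obtain ⟨u, v, huv⟩ := hab
    have h5 := congrArg (eval t) huv
    rw [eval_add, eval_mul, eval_mul, h3, neg_eq_zero.1 h4, eval_one] at h5
    simp at h5
  · -- degrees
    exact fun j i => deg_lt hd (hvd _ i)
  · -- kernel
    intro j
    rw [← hDl0]
    exact hvD _
  · -- independence
    obtain ⟨W, hW⟩ : ∃ W : Option (Option (Fin (d - 2) ⊕ N)) → ι → K[X], W = fun o =>
        o.elim f v' := ⟨_, rfl⟩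
    have hWLI : LinearIndependent K[X] W := by
      rw [Fintype.linearIndependent_iff]
      intro g hg
      rw [Fintype.sum_option, Fintype.sum_option, Fintype.sum_sum_type] at hg
      have hg' : g none • f + (g (some none) • f' +
          (∑ j, g (some (some (Sum.inl j))) • V j +
            ∑ i, g (some (some (Sum.inr i))) • lin (nu i))) = 0 := by
        rw [hW, hv'] at hg
        exact hg
      have hgn : ∀ i, g (some (some (Sum.inr i))) = 0 := by
        intro i
        have h1 := congrArg (co (Sum.inr (Sum.inr i))) hg'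
        simp only [hfe, hf', hVe, map_add, map_sub, map_smul, map_sum, map_zero, cx, cy, cz, cl, cn,
          smul_eq_mul] at h1
        simpa using h1
      have hgl : ∀ (m : ℕ) (k : Fin (d - 2)), (k : ℕ) = m → g (some (some (Sum.inl k))) = 0 := by
        intro m
        induction m using Nat.strong_induction_on with
        | _ m ih =>
          intro k hk
          have h1 := congrArg (co (Sum.inr (Sum.inl k))) hg'
          simp only [hfe, hf', hVe, map_add, map_sub, map_smul, map_sum, map_zero, cx, cy, cz, cl, cn,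
            smul_eq_mul] at h1
          have h2 : ∑ j, g (some (some (Sum.inl j))) * (b * (if k = j then 1 else 0) + α j k) = 0 := by
            simpa using h1
          have h3 : ∀ j, g (some (some (Sum.inl j))) * (b * (if k = j then 1 else 0) + α j k) =
              if k = j then g (some (some (Sum.inl k))) * b else 0 := by
            intro j
            by_cases hkj : k = j
            · subst hkj
              rw [hα1 k k le_rfl]
              simp
            · rw [if_neg hkj, if_neg hkj]
              rcases lt_or_ge (j : ℕ) k with hlt | hge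
              · rw [ih j (by omega) j rfl, zero_mul]
              · rw [hα1 j k hge]; simp
          rw [Finset.sum_congr rfl fun j _ => h3 j, Finset.sum_ite_eq, if_pos (Finset.mem_univ _)] at h2
          exact (mul_eq_zero.1 h2).resolve_right hb0
      have hgl' : ∀ k, g (some (some (Sum.inl k))) = 0 := fun k => hgl k k rfl
      have hgx := congrArg (co (Sum.inl 0)) hg'
      have hgy := congrArg (co (Sum.inl 1)) hg'
      simp only [hfe, hf', hgl', hgn, zero_smul, Finset.sum_const_zero, add_zero, map_add, map_sub,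
        map_smul, map_zero, cx, cy, cz, smul_eq_mul] at hgx hgy
      have hgx' : g none * b + g (some none) * derivative b = 0 := by simpa using hgx
      have hgy' : g none * (X * b) + g (some none) * (b + X * derivative b) = 0 := by
        simpa using hgy
      have h0 : g (some none) = 0 := by
        have : g (some none) * b = 0 := by linear_combination hgy' - X * hgx'
        exact (mul_eq_zero.1 this).resolve_right hb0
      have h1 : g none = 0 := by
        rw [h0, zero_mul, add_zero] at hgx'
        exact (mul_eq_zero.1 hgx').resolve_right hb0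
      rintro (_ | _ | x | x)
      · exact h1
      · exact h0
      · exact hgl' x
      · exact hgn x
    have h2 := hWLI.comp (Option.map e.symm) (Option.map_injective e.symm.injective)
    have e3 : (fun o : Option (Fin (Fintype.card ι - 2)) => o.elim f fun j => v' (e.symm j)) =
        W ∘ Option.map e.symm := by
      funext o
      rw [hW]
      cases o <;> rfl
    rw [e3]
    exact h2

end Pool.Agent.SRC68
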