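import Pool.Agent.SRC68.Stm

/-!
# Project SRC, piece C4: the hypersurface for `d = 2 p - 1`, part 1: calculus (helper89)
-/

set_option autoImplicit false

open Polynomial

noncomputable section

namespace Pool.Agent.SRC68

namespace C4

section Calc

variable {ι k A : Type} [Fintype ι] [Field k] [CommRing A] [Algebra k A]

/-- the derivative of `F` at `f` along `e` -/
def Dp (F : MvPolynomial ι k) (f e : ι → A) : A :=
  ∑ i, e i * MvPolynomial.aeval f (MvPolynomial.pderiv i F)

lemma Dp_zero (f e : ι → A) : Dp (0 : MvPolynomial ι k) f e = 0 := by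
  simp [Dp]

lemma Dp_one (f e : ι → A) : Dp (1 : MvPolynomial ι k) f e = 0 := by
  simp [Dp]

lemma Dp_add (F G : MvPolynomial ι k) (f e : ι → A) : Dp (F + G) f e = Dp F f e + Dp G f e := by
  simp [Dp, mul_add, Finset.sum_add_distrib]

lemma Dp_sub (F G : MvPolynomial ι k) (f e : ι → A) : Dp (F - G) f e = Dp F f e - Dp G f e := by
  simp [Dp, mul_sub, Finset.sum_sub_distrib]

lemma Dp_neg (F : MvPolynomial ι k) (f e : ι → A) : Dp (- F) f e = - Dp F f e := by
  simp [Dp]

lemma Dp_mul (F G : MvPolynomial ι k) (f e : ι → A) :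
    Dp (F * G) f e = MvPolynomial.aeval f F * Dp G f e + MvPolynomial.aeval f G * Dp F f e := by
  simp only [Dp, Derivation.leibniz, smul_eq_mul, map_add, map_mul, mul_add,
    Finset.sum_add_distrib, Finset.mul_sum]
  congr 1 <;> exact Finset.sum_congr rfl fun i _ => by ring

lemma Dp_pow (F : MvPolynomial ι k) (n : ℕ) (f e : ι → A) :
    Dp (F ^ (n + 1)) f e = ((n : A) + 1) * MvPolynomial.aeval f F ^ n * Dp F f e := by
  induction n with
  | zero => simp
  | succ n ih =>
    rw [pow_succ, Dp_mul, ih, map_pow]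
    push_cast
    ring

lemma Dp_X [DecidableEq ι] (i : ι) (f e : ι → A) : Dp (MvPolynomial.X i : MvPolynomial ι k) f e = e i := by
  simp only [Dp, MvPolynomial.pderiv_X]
  rw [Finset.sum_eq_single i]
  · simp
  · intro j _ hj
    rw [Pi.single_eq_of_ne (Ne.symm hj)]
    simp
  · simp

lemma Dp_sum {J : Type} (s : Finset J) (F : J → MvPolynomial ι k) (f e : ι → A) :
    Dp (∑ j ∈ s, F j) f e = ∑ j ∈ s, Dp (F j) f e := by
  classical
  induction s using Finset.induction_on with
  | empty => simp [Dp_zero]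
  | insert a s ha ih => rw [Finset.sum_insert ha, Finset.sum_insert ha, Dp_add, ih]

end Calc

/-- the index type -/
abbrev Ix (m : ℕ) (N : Type) : Type := Fin 3 ⊕ (Fin (2 * m + 3) ⊕ N)

/-- the monomials of the levels -/
def M {R : Type} [CommRing R] (m k : ℕ) (x y z u : R) : R :=
  if k ≤ 1 then 0 else
    if k ≤ m + 1 then u ^ (m + 3) * (x ^ k * z ^ (m + 1 - k)) else
      if k = m + 2 then x ^ (m + 2) * z ^ (m + 2) else
        y ^ (m + 3) * (x ^ (k - (m + 3)) * z ^ (2 * m + 4 - k))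

/-- signs -/
def sg {R : Type} [CommRing R] (m k : ℕ) : R := if k = m + 2 then -1 else 1

lemma map_M {R S : Type} [CommRing R] [CommRing S] (φ : R →+* S) (m k : ℕ) (x y z u : R) :
    φ (M m k x y z u) = M m k (φ x) (φ y) (φ z) (φ u) := by
  unfold M
  split_ifs <;> simp

lemma map_sg {R S : Type} [CommRing R] [CommRing S] (φ : R →+* S) (m k : ℕ) :
    φ (sg m k : R) = (sg m k : S) := by
  unfold sg
  split_ifs <;> simp

lemma sg_sq {R : Type} [CommRing R] (m k : ℕ) : (sg m k : R) * sg m k = 1 := by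
  unfold sg
  split_ifs <;> simp

variable {m : ℕ} {N : Type} [Fintype N] [DecidableEq N]

/-- the form -/
def Fm (m : ℕ) (N : Type) [Fintype N] (k : Type) [Field k] : MvPolynomial (Ix m N) k :=
  let x : MvPolynomial (Ix m N) k := MvPolynomial.X (Sum.inl 0)
  let y : MvPolynomial (Ix m N) k := MvPolynomial.X (Sum.inl 1)
  let z : MvPolynomial (Ix m N) k := MvPolynomial.X (Sum.inl 2)
  let l : Fin (2 * m + 3) → MvPolynomial (Ix m N) k := fun j => MvPolynomial.X (Sum.inr (Sum.inl j))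
  let v : N → MvPolynomial (Ix m N) k := fun j => MvPolynomial.X (Sum.inr (Sum.inr j))
  z * y ^ (2 * m + 4) + x ^ (2 * m + 5) - z ^ (2 * m + 5) + z * ((l 1 - l 0) ^ (m + 3) * x ^ (m + 1))
    - l 1 ^ (m + 3) * (z + x) ^ (m + 2)
    + ∑ j, (l j * M m j x y z (l 0) + sg m j * l j ^ (2 * m + 5)) + ∑ j, v j ^ (2 * m + 5)

/-- the value of the form -/
def val {A : Type} [CommRing A] (m : ℕ) (N : Type) [Fintype N] (f : Ix m N → A) : A :=
  let x := f (Sum.inl 0)
  let y := f (Sum.inl 1)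
  let z := f (Sum.inl 2)
  let l : Fin (2 * m + 3) → A := fun j => f (Sum.inr (Sum.inl j))
  let v : N → A := fun j => f (Sum.inr (Sum.inr j))
  z * y ^ (2 * m + 4) + x ^ (2 * m + 5) - z ^ (2 * m + 5) + z * ((l 1 - l 0) ^ (m + 3) * x ^ (m + 1))
    - l 1 ^ (m + 3) * (z + x) ^ (m + 2)
    + ∑ j, (l j * M m j x y z (l 0) + sg m j * l j ^ (2 * m + 5)) + ∑ j, v j ^ (2 * m + 5)

omit [DecidableEq N] in
lemma aeval_Fm (k : Type) [Field k] {A : Type} [CommRing A] [Algebra k A] (f : Ix m N → A) :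
    MvPolynomial.aeval f (Fm m N k) = val m N f := by
  have h1 : ∀ (j : ℕ) (x y z u : MvPolynomial (Ix m N) k), MvPolynomial.aeval f (M m j x y z u) =
      M m j (MvPolynomial.aeval f x) (MvPolynomial.aeval f y) (MvPolynomial.aeval f z)
        (MvPolynomial.aeval f u) := fun j x y z u =>
      map_M ((MvPolynomial.aeval f : MvPolynomial (Ix m N) k →ₐ[k] A) : MvPolynomial (Ix m N) k →+* A) m j x y z u
  have h2 : ∀ j : ℕ, MvPolynomial.aeval f (sg m j : MvPolynomial (Ix m N) k) = (sg m j : A) :=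
    fun j => map_sg ((MvPolynomial.aeval f : MvPolynomial (Ix m N) k →ₐ[k] A) : MvPolynomial (Ix m N) k →+* A) m j
  simp [Fm, val, h1, h2]

/-- the monomial of the level `j`, as a polynomial -/
abbrev MX (m : ℕ) (N : Type) (k : Type) [Field k] (j : ℕ) : MvPolynomial (Ix m N) k :=
  M m j (MvPolynomial.X (Sum.inl 0)) (MvPolynomial.X (Sum.inl 1)) (MvPolynomial.X (Sum.inl 2))
    (MvPolynomial.X (Sum.inr (Sum.inl 0)))

/-- the derivative of the form -/
lemma Dp_Fm (k : Type) [Field k] {A : Type} [CommRing A] [Algebra k A] (hp : ((m : A) + 3) = 0)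
    (f e : Ix m N → A) (x y z u w : A) (hx : f (Sum.inl 0) = x) (hy : f (Sum.inl 1) = y)
    (hz : f (Sum.inl 2) = z) (hu : f (Sum.inr (Sum.inl 0)) = u) (hw : f (Sum.inr (Sum.inl 1)) = w) :
    Dp (Fm m N k) f e = e (Sum.inl 2) * y ^ (2 * m + 4) - 2 * z * y ^ (2 * m + 3) * e (Sum.inl 1)
      - x ^ (2 * m + 4) * e (Sum.inl 0) + z ^ (2 * m + 4) * e (Sum.inl 2)
      + e (Sum.inl 2) * ((w - u) ^ (m + 3) * x ^ (m + 1))
      - 2 * z * ((w - u) ^ (m + 3) * x ^ m) * e (Sum.inl 0)
      + w ^ (m + 3) * (z + x) ^ (m + 1) * (e (Sum.inl 2) + e (Sum.inl 0))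
      + ∑ j : Fin (2 * m + 3), (e (Sum.inr (Sum.inl j)) * M m j x y z u +
          f (Sum.inr (Sum.inl j)) * Dp (MX m N k j) f e -
          sg m j * f (Sum.inr (Sum.inl j)) ^ (2 * m + 4) * e (Sum.inr (Sum.inl j)))
      - ∑ j : N, f (Sum.inr (Sum.inr j)) ^ (2 * m + 4) * e (Sum.inr (Sum.inr j)) := by
  classical
  subst hx hy hz hu hw
  have h1 : ∀ (j : ℕ) (x y z u : MvPolynomial (Ix m N) k), MvPolynomial.aeval f (M m j x y z u) =
      M m j (MvPolynomial.aeval f x) (MvPolynomial.aeval f y) (MvPolynomial.aeval f z)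
        (MvPolynomial.aeval f u) := fun j x y z u =>
      map_M ((MvPolynomial.aeval f : MvPolynomial (Ix m N) k →ₐ[k] A) : MvPolynomial (Ix m N) k →+* A) m j x y z u
  have h2 : ∀ j : ℕ, MvPolynomial.aeval f (sg m j : MvPolynomial (Ix m N) k) = (sg m j : A) :=
    fun j => map_sg ((MvPolynomial.aeval f : MvPolynomial (Ix m N) k →ₐ[k] A) : MvPolynomial (Ix m N) k →+* A) m j
  have h3 : ∀ j : ℕ, Dp (sg m j : MvPolynomial (Ix m N) k) f e = 0 := by
    intro j
    unfold sg
    split_ifs <;> simp [Dp_one, Dp_neg]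
  have hm : (m : A) = -3 := by linear_combination hp
  simp only [Fm, Dp_add, Dp_sub, Dp_mul, Dp_pow, Dp_X, Dp_sum, MvPolynomial.aeval_X, map_pow, map_sub,
    map_add, map_mul, h1, h2, h3]
  push_cast
  simp only [hm]
  have e1 : ∑ j : N, (2 * (-3 : A) + 4 + 1) * f (Sum.inr (Sum.inr j)) ^ (2 * m + 4) * e (Sum.inr (Sum.inr j))
      = - ∑ j : N, f (Sum.inr (Sum.inr j)) ^ (2 * m + 4) * e (Sum.inr (Sum.inr j)) := by
    rw [← Finset.sum_neg_distrib]
    exact Finset.sum_congr rfl fun j _ => by ring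
  rw [e1]
  have e2 : ∀ a b c a' b' : A, a = a' → b = b' → a + b + -c = a' + b' - c := by
    intro a b c a' b' h1 h2
    rw [h1, h2, sub_eq_add_neg]
  apply e2
  · ring
  · exact Finset.sum_congr rfl fun j _ => by ring

/-- `Dp` of the monomials of the levels in directions without `x` and `z` -/
lemma Dp_MX (k : Type) [Field k] {A : Type} [CommRing A] [Algebra k A] (hp : ((m : A) + 3) = 0)
    (f e : Ix m N → A) (hx : e (Sum.inl 0) = 0) (hz : e (Sum.inl 2) = 0) (j : ℕ) :
    Dp (MX m N k j) f e = 0 := by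
  classical
  have hm : (m : A) = -3 := by linear_combination hp
  have hpow : ∀ (i : Ix m N) (n : ℕ), e i = 0 → Dp (MvPolynomial.X i ^ n : MvPolynomial (Ix m N) k) f e = 0 := by
    intro i n hi
    rcases n with _ | n
    · simp [Dp_one]
    · rw [Dp_pow, Dp_X, hi, mul_zero]
  have hpp : ∀ (F : MvPolynomial (Ix m N) k), Dp (F ^ (m + 3)) f e = 0 := by
    intro F
    rw [Dp_pow]
    push_cast
    rw [hm]
    ring
  unfold MX M
  split_ifs
  · exact Dp_zero f e
  · rw [Dp_mul, Dp_mul, hpow _ _ hx, hpow _ _ hz, hpp]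
    ring
  · rw [Dp_mul, hpow _ _ hx, hpow _ _ hz]
    ring
  · rw [Dp_mul, Dp_mul, hpow _ _ hx, hpow _ _ hz, hpp]
    ring

/-- `Dp` of the monomial of the level `p - 1` -/
lemma Dp_MX' (k : Type) [Field k] {A : Type} [CommRing A] [Algebra k A] (hp : ((m : A) + 3) = 0)
    (f e : Ix m N → A) :
    Dp (MX m N k (m + 2)) f e = - f (Sum.inl 0) ^ (m + 1) * f (Sum.inl 2) ^ (m + 2) * e (Sum.inl 0)
      - f (Sum.inl 0) ^ (m + 2) * f (Sum.inl 2) ^ (m + 1) * e (Sum.inl 2) := by
  classical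
  have hm : (m : A) = -3 := by linear_combination hp
  unfold MX M
  rw [if_neg (by omega), if_neg (by omega), if_pos rfl, Dp_mul, Dp_pow, Dp_pow, Dp_X, Dp_X]
  simp only [map_pow, MvPolynomial.aeval_X]
  push_cast
  rw [hm]
  ring

omit [Fintype N] [DecidableEq N] in
lemma hcast {k : Type} [Field k] {F : MvPolynomial (Ix m N) k} {a b : ℕ} (h : F.IsHomogeneous a)
    (hab : a = b) : F.IsHomogeneous b := hab ▸ h

omit [Fintype N] [DecidableEq N] in
lemma M_hom (k : Type) [Field k] (j : ℕ) (hj : j < 2 * m + 3) :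
    (MX m N k j).IsHomogeneous (2 * m + 4) := by
  have hX : ∀ (i : Ix m N) (n : ℕ), (MvPolynomial.X i ^ n : MvPolynomial (Ix m N) k).IsHomogeneous n := by
    intro i n
    simpa using (MvPolynomial.isHomogeneous_X k i).pow n
  unfold MX M
  split_ifs with h1 h2 h3
  · exact MvPolynomial.isHomogeneous_zero _ _ _
  · have := (hX (Sum.inr (Sum.inl 0)) (m + 3)).mul ((hX (Sum.inl 0) j).mul (hX (Sum.inl 2) (m + 1 - j)))
    exact hcast this (by omega)
  · have := (hX (Sum.inl 0) (m + 2)).mul (hX (Sum.inl 2) (m + 2))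
    exact hcast this (by omega)
  · have := (hX (Sum.inl 1) (m + 3)).mul
      ((hX (Sum.inl 0) (j - (m + 3))).mul (hX (Sum.inl 2) (2 * m + 4 - j)))
    exact hcast this (by omega)

lemma Fm_hom (k : Type) [Field k] : (Fm m N k).IsHomogeneous (2 * m + 5) := by
  have hX1 : ∀ (i : Ix m N), (MvPolynomial.X i : MvPolynomial (Ix m N) k).IsHomogeneous 1 :=
    fun i => MvPolynomial.isHomogeneous_X k i
  have hX : ∀ (i : Ix m N) (n : ℕ), (MvPolynomial.X i ^ n : MvPolynomial (Ix m N) k).IsHomogeneous n := by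
    intro i n
    simpa using (MvPolynomial.isHomogeneous_X k i).pow n
  unfold Fm
  refine MvPolynomial.IsHomogeneous.add (MvPolynomial.IsHomogeneous.add (MvPolynomial.IsHomogeneous.sub
    (MvPolynomial.IsHomogeneous.add (MvPolynomial.IsHomogeneous.sub (MvPolynomial.IsHomogeneous.add ?_ ?_) ?_)
      ?_) ?_) ?_) ?_
  · have := (hX1 (Sum.inl 2)).mul (hX (Sum.inl 1) (2 * m + 4))
    exact hcast this (by omega)
  · exact hX _ _
  · exact hX _ _
  · have h0 : ((MvPolynomial.X (Sum.inr (Sum.inl 1)) - MvPolynomial.X (Sum.inr (Sum.inl 0)) :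
        MvPolynomial (Ix m N) k) ^ (m + 3)).IsHomogeneous (m + 3) := by
      have := ((hX1 (Sum.inr (Sum.inl 1))).sub (hX1 (Sum.inr (Sum.inl 0)))).pow (m + 3)
      simpa using this
    have := (hX1 (Sum.inl 2)).mul (h0.mul (hX (Sum.inl 0) (m + 1)))
    exact hcast this (by omega)
  · have h0 : ((MvPolynomial.X (Sum.inl 2) + MvPolynomial.X (Sum.inl 0) :
        MvPolynomial (Ix m N) k) ^ (m + 2)).IsHomogeneous (m + 2) := by
      have := ((hX1 (Sum.inl 2)).add (hX1 (Sum.inl 0))).pow (m + 2)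
      simpa using this
    have := (hX (Sum.inr (Sum.inl 1)) (m + 3)).mul h0
    exact hcast this (by omega)
  · refine MvPolynomial.IsHomogeneous.sum _ _ _ fun j _ => ?_
    refine MvPolynomial.IsHomogeneous.add ?_ ?_
    · have := (hX1 (Sum.inr (Sum.inl j))).mul (M_hom (N := N) k (j : ℕ) j.2)
      exact hcast this (by omega)
    · have h0 : (sg m j : MvPolynomial (Ix m N) k).IsHomogeneous 0 := by
        unfold sg
        split_ifs
        · exact (MvPolynomial.isHomogeneous_one _ _).neg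
        · exact MvPolynomial.isHomogeneous_one _ _
      have := h0.mul (hX (Sum.inr (Sum.inl j)) (2 * m + 5))
      exact hcast this (by omega)
  · refine MvPolynomial.IsHomogeneous.sum _ _ _ fun j _ => ?_
    exact hX _ _

end C4

end Pool.Agent.SRC68

end
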