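import Pool.Agent.SRC68.C4a

/-!
# Project SRC, piece C4: the hypersurface for `d = 2 p - 1`, part 2: smoothness (helper89)
-/

set_option autoImplicit false
set_option linter.unusedSimpArgs false
set_option linter.unusedSectionVars false

open Polynomial

noncomputable section

namespace Pool.Agent.SRC68

namespace C4

variable {m : ℕ} {N : Type} [Fintype N] [DecidableEq N]

lemma Fm_smooth (k K : Type) [Field k] [Field K] [Algebra k K] (hp : ((m : K) + 3) = 0)
    (h2 : (2 : K) ≠ 0) (he : Even m) (f : Ix m N → K)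
    (hf : ∀ i, MvPolynomial.aeval f (MvPolynomial.pderiv i (Fm m N k)) = 0) : f = 0 := by
  have hD : ∀ e : Ix m N → K, Dp (Fm m N k) f e = 0 := by
    intro e
    simp [Dp, hf]
  obtain ⟨x, hx⟩ : ∃ x, f (Sum.inl 0) = x := ⟨_, rfl⟩
  obtain ⟨y, hy⟩ : ∃ y, f (Sum.inl 1) = y := ⟨_, rfl⟩
  obtain ⟨z, hz⟩ : ∃ z, f (Sum.inl 2) = z := ⟨_, rfl⟩
  obtain ⟨u, hu⟩ : ∃ u, f (Sum.inr (Sum.inl 0)) = u := ⟨_, rfl⟩
  obtain ⟨w, hw⟩ : ∃ w, f (Sum.inr (Sum.inl 1)) = w := ⟨_, rfl⟩
  have hE := fun e : Ix m N → K => (Dp_Fm k hp f e x y z u w hx hy hz hu hw).symm.trans (hD e)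
  -- the levels
  have hl : ∀ j : Fin (2 * m + 3), M m j x y z u = sg m j * f (Sum.inr (Sum.inl j)) ^ (2 * m + 4) := by
    intro j
    have h := hE (Pi.single (Sum.inr (Sum.inl j)) 1)
    have h1 : ∀ i : Fin 3, (Pi.single (Sum.inr (Sum.inl j)) 1 : Ix m N → K) (Sum.inl i) = 0 := by
      intro i
      simp [Pi.single_apply]
    have h1' : ∀ i : N, (Pi.single (Sum.inr (Sum.inl j)) 1 : Ix m N → K) (Sum.inr (Sum.inr i)) = 0 := by
      intro i
      simp [Pi.single_apply]
    have h2 : ∀ i : Fin (2 * m + 3), Dp (MX m N k i) f (Pi.single (Sum.inr (Sum.inl j)) 1) = 0 :=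
      fun i => Dp_MX k hp f _ (h1 0) (h1 2) i
    simp only [h1, h1', h2] at h
    rw [Finset.sum_eq_single j] at h
    · simp only [Pi.single_eq_same] at h
      simp at h
      linear_combination h
    · intro i _ hij
      have : (Pi.single (Sum.inr (Sum.inl j)) 1 : Ix m N → K) (Sum.inr (Sum.inl i)) = 0 := by
        simp [Pi.single_apply, hij]
      rw [this]
      ring
    · simp
  have hv : ∀ j : N, f (Sum.inr (Sum.inr j)) = 0 := by
    intro j
    have h := hE (Pi.single (Sum.inr (Sum.inr j)) 1)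
    have h1 : ∀ i : Fin 3, (Pi.single (Sum.inr (Sum.inr j)) 1 : Ix m N → K) (Sum.inl i) = 0 := by
      intro i
      simp [Pi.single_apply]
    have h1' : ∀ i : Fin (2 * m + 3),
        (Pi.single (Sum.inr (Sum.inr j)) 1 : Ix m N → K) (Sum.inr (Sum.inl i)) = 0 := by
      intro i
      simp [Pi.single_apply]
    have h2 : ∀ i : Fin (2 * m + 3), Dp (MX m N k i) f (Pi.single (Sum.inr (Sum.inr j)) 1) = 0 :=
      fun i => Dp_MX k hp f _ (h1 0) (h1 2) i
    simp only [h1, h1', h2] at h
    rw [Finset.sum_eq_single (a := j) (s := (Finset.univ : Finset N))] at h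
    · simp only [Pi.single_eq_same] at h
      simp at h
      exact h
    · intro i _ hij
      have : (Pi.single (Sum.inr (Sum.inr j)) 1 : Ix m N → K) (Sum.inr (Sum.inr i)) = 0 := by
        simp [Pi.single_apply, hij]
      rw [this]
      ring
    · simp
  have hsg : ∀ j : ℕ, (sg m j : K) ≠ 0 := by
    intro j h
    have := sg_sq (R := K) m j
    rw [h] at this
    simp at this
  -- a vanishing level
  have hl0 : ∀ j : Fin (2 * m + 3), M m j x y z u = 0 → f (Sum.inr (Sum.inl j)) = 0 := by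
    intro j hj
    have h := hl j
    rw [hj] at h
    have h3 := (mul_eq_zero.mp h.symm).resolve_left (hsg _)
    exact pow_eq_zero_iff (by omega) |>.mp h3
  have hu0 : u = 0 := by
    rw [← hu]
    apply hl0
    unfold M
    rw [if_pos (by simp)]
  have hw0 : w = 0 := by
    rw [← hw]
    apply hl0
    unfold M
    rw [if_pos]
    have : ((1 : Fin (2 * m + 3)) : ℕ) = 1 := by
      rw [Fin.val_one']
      exact Nat.mod_eq_of_lt (by omega)
    omega
  have hlow : ∀ j : Fin (2 * m + 3), (j : ℕ) ≤ m + 1 → f (Sum.inr (Sum.inl j)) = 0 := by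
    intro j hj
    apply hl0
    unfold M
    split_ifs
    · rfl
    · rw [hu0, zero_pow (by omega), zero_mul]
  -- the derivative in the direction of `y`
  have hyz : z = 0 ∨ y = 0 := by
    have h := hE (Pi.single (Sum.inl 1) 1)
    have h0 : (Pi.single (Sum.inl 1) 1 : Ix m N → K) (Sum.inl 0) = 0 := by simp [Pi.single_apply]
    have h2' : (Pi.single (Sum.inl 1) 1 : Ix m N → K) (Sum.inl 2) = 0 := by simp [Pi.single_apply]
    have h1 : ∀ i : Fin (2 * m + 3) ⊕ N, (Pi.single (Sum.inl 1) 1 : Ix m N → K) (Sum.inr i) = 0 := by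
      intro i
      simp [Pi.single_apply]
    have h3 : ∀ i : Fin (2 * m + 3), Dp (MX m N k i) f (Pi.single (Sum.inl 1) 1) = 0 :=
      fun i => Dp_MX k hp f _ h0 h2' i
    simp only [h0, h2', h1, h3, Pi.single_eq_same] at h
    simp at h
    rcases h with (h | h) | h
    · exact absurd h h2
    · exact Or.inl h
    · exact Or.inr h
  have hx' : (Pi.single (Sum.inl 0) 1 : Ix m N → K) (Sum.inl 2) = 0 := by simp [Pi.single_apply]
  have hx'' : (Pi.single (Sum.inl 0) 1 : Ix m N → K) (Sum.inl 1) = 0 := by simp [Pi.single_apply]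
  have hxi : ∀ i : Fin (2 * m + 3) ⊕ N, (Pi.single (Sum.inl 0) 1 : Ix m N → K) (Sum.inr i) = 0 := by
    intro i
    simp [Pi.single_apply]
  have hz' : (Pi.single (Sum.inl 2) 1 : Ix m N → K) (Sum.inl 0) = 0 := by simp [Pi.single_apply]
  have hz'' : (Pi.single (Sum.inl 2) 1 : Ix m N → K) (Sum.inl 1) = 0 := by simp [Pi.single_apply]
  have hzi : ∀ i : Fin (2 * m + 3) ⊕ N, (Pi.single (Sum.inl 2) 1 : Ix m N → K) (Sum.inr i) = 0 := by
    intro i
    simp [Pi.single_apply]
  have hX := hE (Pi.single (Sum.inl 0) 1)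
  have hZ := hE (Pi.single (Sum.inl 2) 1)
  simp only [hx', hx'', hxi, hu0, hw0, Pi.single_eq_same] at hX
  simp only [hz', hz'', hzi, hu0, hw0, Pi.single_eq_same] at hZ
  -- conclusion from the vanishing of everything
  have hfin : (∀ j : Fin (2 * m + 3), f (Sum.inr (Sum.inl j)) = 0) → x = 0 → y = 0 → z = 0 → f = 0 := by
    intro h1 h2 h3 h4
    funext i
    rcases i with i | i | i
    · fin_cases i
      · exact hx.trans h2
      · exact hy.trans h3
      · exact hz.trans h4
    · exact h1 i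
    · exact hv i
  rcases hyz with hz0 | hy0
  · -- `z = 0`
    have hall : ∀ j : Fin (2 * m + 3), f (Sum.inr (Sum.inl j)) = 0 := by
      intro j
      by_cases hj : (j : ℕ) ≤ m + 1
      · exact hlow j hj
      · apply hl0
        have hj2 := j.2
        unfold M
        rw [if_neg (by omega), if_neg hj]
        split_ifs
        · rw [hz0, zero_pow (by omega), mul_zero]
        · have h5 : (0 : K) ^ (2 * m + 4 - (j : ℕ)) = 0 := zero_pow (by omega)
          rw [hz0, h5]
          simp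
    have hs : ∀ g g' : Fin (2 * m + 3) → K, ∑ j : Fin (2 * m + 3), (0 * g j +
          f (Sum.inr (Sum.inl j)) * g' j -
          sg m j * f (Sum.inr (Sum.inl j)) ^ (2 * m + 4) * 0) = 0 := by
      intro g g'
      refine Finset.sum_eq_zero fun j _ => ?_
      rw [hall j]
      ring
    rw [hs] at hX hZ
    simp [hz0] at hX
    have hx0 : x = 0 := hX
    simp [hz0, hx0] at hZ
    exact hfin hall hx0 hZ hz0
  · -- `y = 0`
    have hq : m + 2 < 2 * m + 3 := by
      rcases m with _ | m
      · simp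
      · omega
    have hall : ∀ j : Fin (2 * m + 3), j ≠ ⟨m + 2, hq⟩ → f (Sum.inr (Sum.inl j)) = 0 := by
      intro j hjq
      have hjq' : (j : ℕ) ≠ m + 2 := fun h => hjq (Fin.ext h)
      by_cases hj : (j : ℕ) ≤ m + 1
      · exact hlow j hj
      · apply hl0
        unfold M
        rw [if_neg (by omega), if_neg hj, if_neg hjq', hy0, zero_pow (by omega), zero_mul]
    obtain ⟨W, hW⟩ : ∃ W, f (Sum.inr (Sum.inl ⟨m + 2, hq⟩)) = W := ⟨_, rfl⟩
    have hs : ∀ g g' : Fin (2 * m + 3) → K, ∑ j : Fin (2 * m + 3), (0 * g j +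
          f (Sum.inr (Sum.inl j)) * g' j -
          sg m j * f (Sum.inr (Sum.inl j)) ^ (2 * m + 4) * 0) = W * g' ⟨m + 2, hq⟩ := by
      intro g g'
      rw [Finset.sum_eq_single ⟨m + 2, hq⟩]
      · rw [hW]
        ring
      · intro j _ hj
        rw [hall j hj]
        ring
      · simp
    rw [hs] at hX hZ
    simp only [Dp_MX' k hp, hx, hz, Pi.single_eq_same, hx', hz'] at hX hZ
    have hlq := hl ⟨m + 2, hq⟩
    rw [hW] at hlq
    unfold M sg at hlq
    simp only [if_neg (show ¬ (m + 2 ≤ 1) by omega), if_neg (show ¬ (m + 2 ≤ m + 1) by omega), if_true] at hlq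
    simp at hX hZ
    have k1 : x ^ (2 * m + 5) = - (W * (x ^ (m + 2) * z ^ (m + 2))) := by
      linear_combination (- x) * hX
    have k2 : z ^ (2 * m + 5) = W * (x ^ (m + 2) * z ^ (m + 2)) := by
      rw [hy0, zero_pow (by omega)] at hZ
      linear_combination z * hZ
    have k3 : W ^ (2 * m + 5) = - (W * (x ^ (m + 2) * z ^ (m + 2))) := by
      linear_combination W * hlq
    obtain ⟨Q, hQ⟩ : ∃ Q, W * (x ^ (m + 2) * z ^ (m + 2)) = Q := ⟨_, rfl⟩
    have k4 : Q ^ (2 * m + 5) = - Q ^ (2 * m + 5) := by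
      have he' : Even (m + 2) := by
        rcases he with ⟨c, hc⟩
        exact ⟨c + 1, by omega⟩
      calc Q ^ (2 * m + 5) = W ^ (2 * m + 5) * ((x ^ (2 * m + 5)) ^ (m + 2) * (z ^ (2 * m + 5)) ^ (m + 2)) := by
            rw [← hQ]
            ring
        _ = (- Q) * ((- Q) ^ (m + 2) * Q ^ (m + 2)) := by rw [k1, k2, k3, hQ]
        _ = - Q ^ (2 * m + 5) := by
            rw [he'.neg_pow]
            ring
    have k5 : Q = 0 := by
      have : (2 : K) * Q ^ (2 * m + 5) = 0 := by linear_combination k4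
      have := (mul_eq_zero.mp this).resolve_left h2
      exact pow_eq_zero_iff (by omega) |>.mp this
    rw [hQ, k5] at k1 k2 k3
    rw [neg_zero] at k1 k3
    have x0 : x = 0 := pow_eq_zero_iff (by omega) |>.mp k1
    have z0 : z = 0 := pow_eq_zero_iff (by omega) |>.mp k2
    have W0 : W = 0 := pow_eq_zero_iff (by omega) |>.mp k3
    refine hfin (fun j => ?_) x0 hy0 z0
    by_cases hj : j = ⟨m + 2, hq⟩
    · rw [hj, hW, W0]
    · exact hall j hj

end C4

end Pool.Agent.SRC68

end
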