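import Pool.Agent.SRC68.Stm

/-!
# Blocks of binary forms (helper2), for `DC0` and `DC1`

`H = ∑_b (α_b r_b ^ d + ε_b r_b ^ (a_b) s_b ^ (d - a_b) + γ_b s_b ^ d) + ∑_e c_e u_e ^ d`.
-/

set_option autoImplicit false

open Polynomial

noncomputable section

namespace Pool.Agent.SRC68

namespace DCb

section lin

variable {ι k K : Type} [Fintype ι] [Field k] [Field K] [Algebra k K]

theorem D_add (F : MvPolynomial ι k) (f : ι → K[X]) (u v : ι → K) :
    D F f (u + v) = D F f u + D F f v := by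
  unfold D
  rw [← Finset.sum_add_distrib]
  refine Finset.sum_congr rfl fun i _ => ?_
  rw [Pi.add_apply, C_add, add_mul]

theorem D_smul (F : MvPolynomial ι k) (f : ι → K[X]) (c : K) (u : ι → K) :
    D F f (c • u) = C c * D F f u := by
  unfold D
  rw [Finset.mul_sum]
  refine Finset.sum_congr rfl fun i _ => ?_
  rw [Pi.smul_apply, smul_eq_mul, C_mul, mul_assoc]

theorem D_single [DecidableEq ι] (F : MvPolynomial ι k) (f : ι → K[X]) (i : ι) :
    D F f (Pi.single i 1) = MvPolynomial.aeval f (MvPolynomial.pderiv i F) := by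
  unfold D
  rw [Finset.sum_eq_single i]
  · rw [Pi.single_eq_same, C_1, one_mul]
  · intro j _ hj
    rw [Pi.single_eq_of_ne hj, C_0, zero_mul]
  · intro h
    exact absurd (Finset.mem_univ i) h

end lin

variable {p : ℕ} [Fact p.Prime] {B E : Type} [Fintype B] [DecidableEq B] [Fintype E] [DecidableEq E]

/-- one block -/
def blk (d : ℕ) (a : B → ℕ) (α ε γ : B → ZMod p) (b : B) : MvPolynomial ((B × Bool) ⊕ E) (ZMod p) :=
  MvPolynomial.C (α b) * MvPolynomial.X (Sum.inl (b, true)) ^ d +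
    MvPolynomial.C (ε b) * (MvPolynomial.X (Sum.inl (b, true)) ^ (a b) *
      MvPolynomial.X (Sum.inl (b, false)) ^ (d - a b)) +
    MvPolynomial.C (γ b) * MvPolynomial.X (Sum.inl (b, false)) ^ d

/-- the form -/
def H (d : ℕ) (a : B → ℕ) (α ε γ : B → ZMod p) (c : E → ZMod p) :
    MvPolynomial ((B × Bool) ⊕ E) (ZMod p) :=
  ∑ b, blk d a α ε γ b + ∑ e, MvPolynomial.C (c e) * MvPolynomial.X (Sum.inr e) ^ d

theorem hom_mon (d : ℕ) (c : ZMod p) (i : (B × Bool) ⊕ E) :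
    (MvPolynomial.C c * MvPolynomial.X i ^ d : MvPolynomial ((B × Bool) ⊕ E) (ZMod p)).IsHomogeneous d := by
  have h := (MvPolynomial.isHomogeneous_C ((B × Bool) ⊕ E) c).mul
    ((MvPolynomial.isHomogeneous_X (ZMod p) i).pow d)
  rwa [zero_add, one_mul] at h

theorem H_hom (d : ℕ) (a : B → ℕ) (α ε γ : B → ZMod p) (c : E → ZMod p) (ha : ∀ b, a b ≤ d) :
    (H d a α ε γ c).IsHomogeneous d := by
  unfold H
  refine MvPolynomial.IsHomogeneous.add ?_ ?_
  · refine MvPolynomial.IsHomogeneous.sum _ _ _ fun b _ => ?_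
    unfold blk
    refine MvPolynomial.IsHomogeneous.add (MvPolynomial.IsHomogeneous.add (hom_mon d _ _) ?_)
      (hom_mon d _ _)
    have h := (MvPolynomial.isHomogeneous_C ((B × Bool) ⊕ E) (ε b)).mul
      (((MvPolynomial.isHomogeneous_X (ZMod p) (Sum.inl (b, true) : (B × Bool) ⊕ E)).pow (a b)).mul
      ((MvPolynomial.isHomogeneous_X (ZMod p) (Sum.inl (b, false) : (B × Bool) ⊕ E)).pow (d - a b)))
    rwa [zero_add, one_mul, one_mul, Nat.add_sub_cancel' (ha b)] at h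
  · exact MvPolynomial.IsHomogeneous.sum _ _ _ fun e _ => hom_mon d _ _

/-- derivative of a pure power in another variable -/
theorem pd_ne (i j : (B × Bool) ⊕ E) (h : j ≠ i) (c : ZMod p) (n : ℕ) :
    MvPolynomial.pderiv i (MvPolynomial.C c * MvPolynomial.X j ^ n :
      MvPolynomial ((B × Bool) ⊕ E) (ZMod p)) = 0 := by
  rw [MvPolynomial.pderiv_C_mul, MvPolynomial.pderiv_pow, MvPolynomial.pderiv_X_of_ne h, mul_zero,
    mul_zero]

theorem pd_eq (i : (B × Bool) ⊕ E) (c : ZMod p) (n : ℕ) :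
    MvPolynomial.pderiv i (MvPolynomial.C c * MvPolynomial.X i ^ n :
      MvPolynomial ((B × Bool) ⊕ E) (ZMod p)) =
      MvPolynomial.C ((n : ZMod p) * c) * MvPolynomial.X i ^ (n - 1) := by
  rw [MvPolynomial.pderiv_C_mul, MvPolynomial.pderiv_pow, MvPolynomial.pderiv_X_self, mul_one,
    map_mul, map_natCast]
  ring

theorem pd_blk_ne (d : ℕ) (a : B → ℕ) (α ε γ : B → ZMod p) (b b' : B) (t : Bool) (h : b' ≠ b) :
    MvPolynomial.pderiv (Sum.inl (b, t)) (blk (E := E) d a α ε γ b') = 0 := by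
  have h1 : ∀ s : Bool, (Sum.inl (b', s) : (B × Bool) ⊕ E) ≠ Sum.inl (b, t) := by
    intro s hs
    exact h (congrArg Prod.fst (Sum.inl.inj hs))
  unfold blk
  rw [map_add, map_add, pd_ne _ _ (h1 true), pd_ne _ _ (h1 false), MvPolynomial.pderiv_C_mul,
    MvPolynomial.pderiv_mul, MvPolynomial.pderiv_pow, MvPolynomial.pderiv_pow,
    MvPolynomial.pderiv_X_of_ne (h1 true), MvPolynomial.pderiv_X_of_ne (h1 false)]
  simp

theorem pd_blk_inr (d : ℕ) (a : B → ℕ) (α ε γ : B → ZMod p) (b : B) (e : E) :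
    MvPolynomial.pderiv (Sum.inr e) (blk (E := E) d a α ε γ b) = 0 := by
  have h1 : ∀ s : Bool, (Sum.inl (b, s) : (B × Bool) ⊕ E) ≠ Sum.inr e := by
    intro s hs
    cases hs
  unfold blk
  rw [map_add, map_add, pd_ne _ _ (h1 true), pd_ne _ _ (h1 false), MvPolynomial.pderiv_C_mul,
    MvPolynomial.pderiv_mul, MvPolynomial.pderiv_pow, MvPolynomial.pderiv_pow,
    MvPolynomial.pderiv_X_of_ne (h1 true), MvPolynomial.pderiv_X_of_ne (h1 false)]
  simp

theorem pd_blk_true (d : ℕ) (a : B → ℕ) (α ε γ : B → ZMod p) (b : B) :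
    MvPolynomial.pderiv (Sum.inl (b, true)) (blk (E := E) d a α ε γ b) =
      MvPolynomial.C ((d : ZMod p) * α b) * MvPolynomial.X (Sum.inl (b, true)) ^ (d - 1) +
      MvPolynomial.C (ε b * (a b : ZMod p)) * (MvPolynomial.X (Sum.inl (b, true)) ^ (a b - 1) *
        MvPolynomial.X (Sum.inl (b, false)) ^ (d - a b)) := by
  have h1 : (Sum.inl (b, false) : (B × Bool) ⊕ E) ≠ Sum.inl (b, true) := by
    intro hs
    exact Bool.false_ne_true (congrArg Prod.snd (Sum.inl.inj hs))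
  unfold blk
  rw [map_add, map_add, pd_eq, pd_ne _ _ h1, MvPolynomial.pderiv_C_mul,
    MvPolynomial.pderiv_mul, MvPolynomial.pderiv_pow, MvPolynomial.pderiv_pow,
    MvPolynomial.pderiv_X_self, MvPolynomial.pderiv_X_of_ne h1, map_mul MvPolynomial.C (ε b),
    map_natCast]
  ring

theorem pd_blk_false (d : ℕ) (a : B → ℕ) (α ε γ : B → ZMod p) (b : B) :
    MvPolynomial.pderiv (Sum.inl (b, false)) (blk (E := E) d a α ε γ b) =
      MvPolynomial.C (ε b * ((d - a b : ℕ) : ZMod p)) * (MvPolynomial.X (Sum.inl (b, true)) ^ (a b) *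
        MvPolynomial.X (Sum.inl (b, false)) ^ (d - a b - 1)) +
      MvPolynomial.C ((d : ZMod p) * γ b) * MvPolynomial.X (Sum.inl (b, false)) ^ (d - 1) := by
  have h1 : (Sum.inl (b, true) : (B × Bool) ⊕ E) ≠ Sum.inl (b, false) := by
    intro hs
    exact Bool.false_ne_true (congrArg Prod.snd (Sum.inl.inj hs)).symm
  unfold blk
  rw [map_add, map_add, pd_eq, pd_ne _ _ h1, MvPolynomial.pderiv_C_mul,
    MvPolynomial.pderiv_mul, MvPolynomial.pderiv_pow, MvPolynomial.pderiv_pow,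
    MvPolynomial.pderiv_X_self, MvPolynomial.pderiv_X_of_ne h1, map_mul MvPolynomial.C (ε b),
    map_natCast]
  ring

theorem pd_inl (d : ℕ) (a : B → ℕ) (α ε γ : B → ZMod p) (c : E → ZMod p) (b : B) (t : Bool) :
    MvPolynomial.pderiv (Sum.inl (b, t)) (H d a α ε γ c) =
      MvPolynomial.pderiv (Sum.inl (b, t)) (blk (E := E) d a α ε γ b) := by
  unfold H
  rw [map_add, map_sum, map_sum, Finset.sum_eq_single b, Finset.sum_eq_zero, add_zero]
  · intro e _
    exact pd_ne _ _ (by intro h; cases h) _ _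
  · intro b' _ hb
    exact pd_blk_ne d a α ε γ b b' t hb
  · intro h
    exact absurd (Finset.mem_univ b) h

theorem pd_inr (d : ℕ) (a : B → ℕ) (α ε γ : B → ZMod p) (c : E → ZMod p) (e : E) :
    MvPolynomial.pderiv (Sum.inr e) (H d a α ε γ c) =
      MvPolynomial.C ((d : ZMod p) * c e) * MvPolynomial.X (Sum.inr e) ^ (d - 1) := by
  unfold H
  rw [map_add, map_sum, map_sum, Finset.sum_eq_zero, Finset.sum_eq_single e, zero_add, pd_eq]
  · intro e' _ he
    exact pd_ne _ _ (fun h => he (Sum.inr.inj h)) _ _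
  · intro h
    exact absurd (Finset.mem_univ e) h
  · intro b _
    exact pd_blk_inr d a α ε γ b e

section ev

variable {A : Type} [CommRing A] [Algebra (ZMod p) A]

theorem ev1 (x : (B × Bool) ⊕ E → A) (c : ZMod p) (i : (B × Bool) ⊕ E) (n : ℕ) :
    MvPolynomial.aeval x (MvPolynomial.C c * MvPolynomial.X i ^ n) = algebraMap _ A c * x i ^ n := by
  rw [map_mul, map_pow, MvPolynomial.aeval_X, MvPolynomial.aeval_C]

theorem ev2 (x : (B × Bool) ⊕ E → A) (c : ZMod p) (i j : (B × Bool) ⊕ E) (n m : ℕ) :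
    MvPolynomial.aeval x (MvPolynomial.C c * (MvPolynomial.X i ^ n * MvPolynomial.X j ^ m)) =
      algebraMap _ A c * (x i ^ n * x j ^ m) := by
  rw [map_mul, map_mul, map_pow, map_pow, MvPolynomial.aeval_X, MvPolynomial.aeval_X,
    MvPolynomial.aeval_C]

theorem ev_true (x : (B × Bool) ⊕ E → A) (d : ℕ) (a : B → ℕ) (α ε γ : B → ZMod p) (c : E → ZMod p)
    (b : B) : MvPolynomial.aeval x (MvPolynomial.pderiv (Sum.inl (b, true)) (H d a α ε γ c)) =
      algebraMap _ A ((d : ZMod p) * α b) * x (Sum.inl (b, true)) ^ (d - 1) +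
      algebraMap _ A (ε b * (a b : ZMod p)) * (x (Sum.inl (b, true)) ^ (a b - 1) *
        x (Sum.inl (b, false)) ^ (d - a b)) := by
  rw [pd_inl, pd_blk_true, map_add, ev1, ev2]

theorem ev_false (x : (B × Bool) ⊕ E → A) (d : ℕ) (a : B → ℕ) (α ε γ : B → ZMod p) (c : E → ZMod p)
    (b : B) : MvPolynomial.aeval x (MvPolynomial.pderiv (Sum.inl (b, false)) (H d a α ε γ c)) =
      algebraMap _ A (ε b * ((d - a b : ℕ) : ZMod p)) * (x (Sum.inl (b, true)) ^ (a b) *
        x (Sum.inl (b, false)) ^ (d - a b - 1)) +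
      algebraMap _ A ((d : ZMod p) * γ b) * x (Sum.inl (b, false)) ^ (d - 1) := by
  rw [pd_inl, pd_blk_false, map_add, ev1, ev2]

theorem ev_inr (x : (B × Bool) ⊕ E → A) (d : ℕ) (a : B → ℕ) (α ε γ : B → ZMod p) (c : E → ZMod p)
    (e : E) : MvPolynomial.aeval x (MvPolynomial.pderiv (Sum.inr e) (H d a α ε γ c)) =
      algebraMap _ A ((d : ZMod p) * c e) * x (Sum.inr e) ^ (d - 1) := by
  rw [pd_inr, ev1]

theorem ev_H (x : (B × Bool) ⊕ E → A) (d : ℕ) (a : B → ℕ) (α ε γ : B → ZMod p) (c : E → ZMod p) :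
    MvPolynomial.aeval x (H d a α ε γ c) =
      ∑ b, (algebraMap _ A (α b) * x (Sum.inl (b, true)) ^ d +
        algebraMap _ A (ε b) * (x (Sum.inl (b, true)) ^ (a b) * x (Sum.inl (b, false)) ^ (d - a b)) +
        algebraMap _ A (γ b) * x (Sum.inl (b, false)) ^ d) +
      ∑ e, algebraMap _ A (c e) * x (Sum.inr e) ^ d := by
  unfold H
  rw [map_add, map_sum, map_sum]
  congr 1
  · refine Finset.sum_congr rfl fun b _ => ?_
    unfold blk
    rw [map_add, map_add, ev1, ev1, ev2]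
  · exact Finset.sum_congr rfl fun e _ => ev1 _ _ _ _

end ev

/-- no singular points -/
theorem H_smooth (d : ℕ) (hd : (d : ZMod p) ≠ 0) (hd2 : 2 ≤ d) (a : B → ℕ) (α ε γ : B → ZMod p)
    (c : E → ZMod p) (ha : ∀ b, a b ≤ d) (hc : ∀ e, c e ≠ 0)
    (hS : ∀ b, Sm p (a b) (d - a b) (α b) (ε b) (γ b))
    (x : (B × Bool) ⊕ E → AlgebraicClosure (ZMod p))
    (hx : ∀ i, MvPolynomial.aeval x (MvPolynomial.pderiv i (H d a α ε γ c)) = 0) : x = 0 := by
  have h1 : ∀ b, x (Sum.inl (b, true)) = 0 ∧ x (Sum.inl (b, false)) = 0 := by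
    intro b
    refine hS b _ _ ?_ ?_
    · have h := hx (Sum.inl (b, true))
      rw [ev_true] at h
      rw [Nat.add_sub_cancel' (ha b), mul_assoc]
      exact h
    · have h := hx (Sum.inl (b, false))
      rw [ev_false] at h
      rw [Nat.add_sub_cancel' (ha b), mul_assoc]
      exact h
  funext i
  rcases i with ⟨b, t⟩ | e
  · cases t
    · exact (h1 b).2
    · exact (h1 b).1
  · have h := hx (Sum.inr e)
    rw [ev_inr] at h
    rcases mul_eq_zero.1 h with h2 | h2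
    · exfalso
      have h3 := (algebraMap (ZMod p) (AlgebraicClosure (ZMod p))).injective
        (h2.trans (map_zero _).symm)
      exact mul_ne_zero hd (hc e) h3
    · exact pow_eq_zero_iff (by omega) |>.1 h2

/-- the `x`-coordinates on the plane -/
def exv : (B × Bool) ⊕ E → ZMod p
  | Sum.inl (_, true) => 1
  | Sum.inl (_, false) => 0
  | Sum.inr _ => 0

/-- the `z`-coordinates on the plane -/
def ezv : (B × Bool) ⊕ E → ZMod p
  | Sum.inl (_, true) => 0
  | Sum.inl (_, false) => 1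
  | Sum.inr _ => 1

/-- the curve of `Data` -/
def cv : (B × Bool) ⊕ E → (ZMod p)[X] := fun i => C (exv i) * X + C (ezv i)

omit [Fintype B] [DecidableEq B] [Fintype E] [DecidableEq E] in
theorem cv_true (b : B) : cv (p := p) (E := E) (Sum.inl (b, true)) = X := by
  simp [cv, exv, ezv]

omit [Fintype B] [DecidableEq B] [Fintype E] [DecidableEq E] in
theorem cv_false (b : B) : cv (p := p) (E := E) (Sum.inl (b, false)) = 1 := by
  simp [cv, exv, ezv]

omit [Fintype B] [DecidableEq B] [Fintype E] [DecidableEq E] in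
theorem cv_inr (e : E) : cv (p := p) (B := B) (Sum.inr e) = 1 := by
  simp [cv, exv, ezv]

/-- on the plane -/
theorem H_plane (d : ℕ) (a : B → ℕ) (α ε γ : B → ZMod p) (c : E → ZMod p) :
    MvPolynomial.aeval cv (H d a α ε γ c) =
      C (∑ b, α b) * X ^ d + ∑ b, C (ε b) * X ^ (a b) + C (∑ b, γ b + ∑ e, c e) := by
  rw [ev_H, Finset.sum_congr rfl (g := fun b : B => (C (α b) * X ^ d + C (ε b) * X ^ (a b) + C (γ b)))]
  · rw [Finset.sum_congr rfl (g := fun e : E => C (c e)), Finset.sum_add_distrib,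
      Finset.sum_add_distrib, ← Finset.sum_mul, map_add, map_sum, map_sum, map_sum]
    · ring
    · intro e _
      rw [cv_inr, one_pow, mul_one]
      rfl
  · intro b _
    rw [cv_true, cv_false, one_pow, one_pow, mul_one, mul_one]
    rfl

theorem D_true (d : ℕ) (a : B → ℕ) (α ε γ : B → ZMod p) (c : E → ZMod p) (b : B) :
    D (H d a α ε γ c) cv (Pi.single (Sum.inl (b, true)) 1) =
      C ((d : ZMod p) * α b) * X ^ (d - 1) + C (ε b * (a b : ZMod p)) * X ^ (a b - 1) := by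
  rw [D_single, ev_true, cv_true, cv_false, one_pow, mul_one]
  rfl

theorem D_false (d : ℕ) (a : B → ℕ) (α ε γ : B → ZMod p) (c : E → ZMod p) (b : B) :
    D (H d a α ε γ c) cv (Pi.single (Sum.inl (b, false)) 1) =
      C (ε b * ((d - a b : ℕ) : ZMod p)) * X ^ (a b) + C ((d : ZMod p) * γ b) := by
  rw [D_single, ev_false, cv_true, cv_false, one_pow, one_pow, mul_one, mul_one]
  rfl

theorem D_inr (d : ℕ) (a : B → ℕ) (α ε γ : B → ZMod p) (c : E → ZMod p) (e : E) :
    D (H d a α ε γ c) cv (Pi.single (Sum.inr e) 1) = C ((d : ZMod p) * c e) := by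
  rw [D_single, ev_inr, cv_inr, one_pow, mul_one]
  rfl

/-- levels `0` (with a variable `u_e`) -/
theorem level_inr (d : ℕ) (hd : (d : ZMod p) ≠ 0) (a : B → ℕ) (α ε γ : B → ZMod p) (c : E → ZMod p)
    (e : E) (hc : c e ≠ 0) : ∃ lam : (B × Bool) ⊕ E → ZMod p,
      X ^ 0 ∣ D (H d a α ε γ c) cv lam ∧ (D (H d a α ε γ c) cv lam).coeff 0 ≠ 0 := by
  refine ⟨Pi.single (Sum.inr e) 1, ?_, ?_⟩
  · rw [pow_zero]
    exact one_dvd _
  · rw [D_inr, coeff_C_zero]
    exact mul_ne_zero hd hc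

/-- levels `a_b - 1` -/
theorem level_true (d : ℕ) (a : B → ℕ) (α ε γ : B → ZMod p) (c : E → ZMod p)
    (b : B) (hε : ε b ≠ 0) (ha : ((a b : ℕ) : ZMod p) ≠ 0) (hab : a b < d) (hab1 : 1 ≤ a b) :
    ∃ lam : (B × Bool) ⊕ E → ZMod p,
      X ^ (a b - 1) ∣ D (H d a α ε γ c) cv lam ∧ (D (H d a α ε γ c) cv lam).coeff (a b - 1) ≠ 0 := by
  refine ⟨Pi.single (Sum.inl (b, true)) 1, ?_, ?_⟩
  · rw [D_true]
    exact dvd_add (Dvd.dvd.mul_left (pow_dvd_pow X (by omega)) _) (dvd_mul_left _ _)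
  · rw [D_true, coeff_add, coeff_C_mul_X_pow, coeff_C_mul_X_pow, if_neg (by omega), if_pos rfl,
      zero_add]
    exact mul_ne_zero hε ha

/-- levels `a_b`, the general form: a combination of derivatives is `C e * X ^ a + C e' * X ^ (d - 1)` -/
theorem level_of (d : ℕ) (F : MvPolynomial ((B × Bool) ⊕ E) (ZMod p)) (k : ℕ) (hk : k < d - 1)
    (lam : (B × Bool) ⊕ E → ZMod p) (e e' : ZMod p) (he : e ≠ 0)
    (h : D F cv lam = C e * X ^ k + C e' * X ^ (d - 1)) :
    X ^ k ∣ D F cv lam ∧ (D F cv lam).coeff k ≠ 0 := by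
  rw [h]
  refine ⟨dvd_add (dvd_mul_left _ _) (Dvd.dvd.mul_left (pow_dvd_pow X (by omega)) _), ?_⟩
  rw [coeff_add, coeff_C_mul_X_pow, coeff_C_mul_X_pow, if_pos rfl, if_neg (by omega), add_zero]
  exact he

/-- the assembly of the data -/
theorem data_mk (ρ d : ℕ) (hd : d = p + ρ + 1) (hρ : 1 ≤ ρ) (hρp : ρ + 3 ≤ p) (a : B → ℕ)
    (ha : ∀ b, ρ + 2 ≤ a b ∧ a b + 1 ≤ p) (α ε γ : B → ZMod p) (c : E → ZMod p)
    (hc : ∀ e, c e ≠ 0) (hS : ∀ b, Sm p (a b) (d - a b) (α b) (ε b) (γ b))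
    (θ : (B × Bool) ⊕ E) (hθ : exv (p := p) θ = 0 ∧ ezv (p := p) θ = 1) (α₀ γ₀ : ZMod p) (hα : α₀ ≠ 0)
    (hA : α₀ + ∑ b, α b ≠ 0) (hγ : γ₀ = ∑ b, γ b + ∑ e, c e)
    (hsep : (C α₀ * X ^ (p + ρ + 1) + X ^ (p + ρ) - ∑ b, C (ε b) * X ^ (a b) - C γ₀ : (ZMod p)[X]).Separable)
    (hcard : 2 * Fintype.card B + Fintype.card E + ρ = p)
    (hlev : ∀ k, k = 0 ∨ (ρ + 1 ≤ k ∧ k + 1 ≤ p) → ∃ lam : (B × Bool) ⊕ E → ZMod p,
      X ^ k ∣ D (H d a α ε γ c) cv lam ∧ (D (H d a α ε γ c) cv lam).coeff k ≠ 0) :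
    Data p d := by
  have hp0 : ((ρ + 1 : ℕ) : ZMod p) ≠ 0 := by
    rw [Ne, ZMod.natCast_eq_zero_iff]
    intro h
    exact absurd (Nat.le_of_dvd (by omega) h) (by omega)
  have hd0 : (d : ZMod p) ≠ 0 := by
    rw [hd, add_assoc, Nat.cast_add, ZMod.natCast_self, zero_add]
    exact hp0
  refine ⟨(B × Bool) ⊕ E, inferInstance, inferInstance, Finset.Icc 1 ρ, Finset.Ico p (d - 2),
    H d a α ε γ c, exv, ezv, θ,
    C α₀ * X ^ (p + ρ + 1) + X ^ (p + ρ) - ∑ b, C (ε b) * X ^ (a b) - C γ₀, α₀ + ∑ b, α b,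
    ?_, ?_, ?_, ?_, ?_, ?_, hθ.1, hθ.2, hA, ?_, hsep, ?_, ?_⟩
  · rw [Fintype.card_sum, Fintype.card_prod, Fintype.card_bool, Nat.card_Icc, Nat.card_Ico]
    omega
  · intro k hk
    rw [Finset.mem_Icc] at hk
    omega
  · intro k hk
    rw [Finset.mem_Ico] at hk
    omega
  · rw [Finset.disjoint_left]
    intro k hk hk'
    rw [Finset.mem_Icc] at hk
    rw [Finset.mem_Ico] at hk'
    omega
  · exact H_hom d a α ε γ c fun b => by have := ha b; omega
  · exact H_smooth d hd0 (by omega) a α ε γ c (fun b => by have := ha b; omega) hc hS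
  · have h1 : (X ^ (p + ρ) - ∑ b, C (ε b) * X ^ (a b) - C γ₀ : (ZMod p)[X]).degree <
        ((p + ρ + 1 : ℕ) : WithBot ℕ) := by
      refine lt_of_le_of_lt (degree_sub_le _ _) (max_lt (lt_of_le_of_lt (degree_sub_le _ _)
        (max_lt ?_ ?_)) ?_)
      · rw [degree_X_pow]
        exact_mod_cast (by omega : p + ρ < p + ρ + 1)
      · refine lt_of_le_of_lt (degree_sum_le _ _) ?_
        rw [Finset.sup_lt_iff (WithBot.bot_lt_coe _)]
        intro b _
        refine lt_of_le_of_lt (degree_C_mul_X_pow_le _ _) ?_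
        have := ha b
        exact_mod_cast (by omega : a b < p + ρ + 1)
      · refine lt_of_le_of_lt degree_C_le ?_
        exact_mod_cast (by omega : 0 < p + ρ + 1)
    have h2 : (C α₀ * X ^ (p + ρ + 1) + X ^ (p + ρ) - ∑ b, C (ε b) * X ^ (a b) - C γ₀ : (ZMod p)[X]) =
        C α₀ * X ^ (p + ρ + 1) + (X ^ (p + ρ) - ∑ b, C (ε b) * X ^ (a b) - C γ₀) := by ring
    have h3 : (C α₀ * X ^ (p + ρ + 1) : (ZMod p)[X]).degree = ((p + ρ + 1 : ℕ) : WithBot ℕ) :=
      degree_C_mul_X_pow _ hα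
    refine natDegree_eq_of_degree_eq_some ?_
    rw [h2, degree_add_eq_left_of_degree_lt (by rw [h3]; exact h1), h3, hd]
  · change _ + MvPolynomial.aeval cv _ = _
    rw [H_plane, hγ, map_add C α₀, hd]
    have h4 : p + ρ + 1 - 1 = p + ρ := rfl
    rw [h4]
    ring
  · intro k hk hk1 hk2
    rw [Finset.mem_Icc] at hk1
    rw [Finset.mem_Ico] at hk2
    exact hlev k (by omega)

/-- choice of an element different from two -/
theorem exists_ne2 (hp : 3 ≤ p) (u v : ZMod p) : ∃ x : ZMod p, x ≠ u ∧ x ≠ v := by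
  have h1 : ({u, v} : Finset (ZMod p)).card < Fintype.card (ZMod p) := by
    rw [ZMod.card]
    exact lt_of_le_of_lt (Finset.card_le_two) (by omega)
  obtain ⟨x, hx⟩ := Finset.exists_mem_notMem_of_card_lt_card (s := {u, v}) (t := Finset.univ)
    (by rw [Finset.card_univ]; exact h1)
  have h2 := hx.2
  rw [Finset.mem_insert, Finset.mem_singleton, not_or] at h2
  exact ⟨x, h2.1, h2.2⟩

end DCb

end Pool.Agent.SRC68

end
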