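import Pool.Agent.SRC68.Stm

/-!
# Project SRC: assembly of the cases
-/

set_option autoImplicit false

namespace Pool.Agent.SRC68

theorem t_MAIN (h1 : S_C1) (h2 : S_C2) (h3 : S_C3) (h4 : S_C4) (ha : S_DA) (hb : S_DB)
    (hc0 : S_DC0) (hc1 : S_DC1) (hq1 : S_Q1) (hq2 : S_Q2) : S_MAIN := by
  intro p hp n d hn hd hdn
  have hpp : p.Prime := hp.out
  have hp2 : 2 ≤ p := hpp.two_le
  rcases Nat.lt_or_ge d 3 with h | h
  · interval_cases d
    · exact hq1 p n hn
    · exact hq2 p n hn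
  by_cases hpd : p ∣ d
  · exact h1 p n d h hdn hpd
  by_cases hpd1 : p ∣ d - 1
  · exact h2 p n d h hdn hpd1
  have hodd : p ≠ 2 := by
    rintro rfl
    omega
  have hpodd : Odd p := hpp.odd_of_ne_two hodd
  have hp3 : 3 ≤ p := by omega
  by_cases hlt : d < p
  · exact h3 p n d h hdn hpd hpd1 (hb p d h hlt)
  have hne : d ≠ p := by
    rintro rfl
    exact hpd dvd_rfl
  have hne1 : d - 1 ≠ p := by
    intro h0
    exact hpd1 (h0 ▸ dvd_rfl)
  by_cases h2p : 2 * p ≤ d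
  · exact h3 p n d h hdn hpd hpd1 (ha p d h hpd hpd1 h2p)
  by_cases h2p1 : d = 2 * p - 1
  · exact h4 p n d hp3 h2p1 hdn
  rcases Nat.even_or_odd d with he | ho
  · exact h3 p n d h hdn hpd hpd1 (hc0 p d he (by omega) (by omega))
  · have h5 : d + 3 ≤ 2 * p := by
      obtain ⟨k, hk⟩ := ho
      omega
    exact h3 p n d h hdn hpd hpd1 (hc1 p d hpodd ho (by omega) h5)

end Pool.Agent.SRC68
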