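import Mathlib

/-!
# Project SRC (helper68, helper51), MP_fe9afc_ag: separably rationally connected Fano hypersurfaces over `F_p`

THEOREM: for every prime `p` and all `1 ≤ d ≤ n`, `n ≥ 2`, there is a smooth hypersurface of degree `d` in
`P ^ n` over `F_p` which contains a very free rational curve (full answer: yes).

Curve: the plane curve `A (x, y) + z B (x, y) = 0` of degree `d` with a point of multiplicity `d - 1`,
parametrized by `f = (b, T b, -a)`, `a = A (1, T)`, `b = B (1, T)`; the first order terms of the equation along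
the plane are `b ^ k r_k` (`r_k` a unit modulo `b`), `k = 0, …, d - 3`: then `f` is very free (`S_VF`).
Smoothness: if `p ∣ d (d - 1)` a variable which occurs (up to `p`-th powers) only in `w z ^ (d - 1)` gives
`z = 0`; otherwise joins of forms (`Data`), where the variables of the joined form are zero at a singular point.

Notation in the docstrings: `K` the algebraic closure of `ZMod p`; `T = X : K[X]`.
-/

set_option autoImplicit false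

open Polynomial

noncomputable section

namespace Pool.Agent.SRC68

/-- no singular points over `K` -/
def IsSmooth {ι k : Type} [Field k] (K : Type) [Field K] [Algebra k K] (F : MvPolynomial ι k) : Prop :=
  ∀ x : ι → K, MvPolynomial.aeval x F = 0 →
    (∀ i, MvPolynomial.aeval x (MvPolynomial.pderiv i F) = 0) → x = 0

/-- `f` is a morphism of degree `e` from `P ^ 1` to the hypersurface `F = 0` with ample `f ^ * T_X`: `f i` are
polynomials of degree at most `e`, one of them of degree `e`, without a common zero, and there are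
`dim X = card ι - 2` sections `v j` of `f ^ * T_X (-1)` (vectors of polynomials of degree `< e` in the kernel of
`dF (f)`) which are independent at the generic point (i.e. linearly independent together with `f`). -/
structure VeryFree {ι k : Type} [Fintype ι] [Field k] {K : Type} [Field K] [Algebra k K]
    (F : MvPolynomial ι k) (e : ℕ) (f : ι → K[X]) : Prop where
  deg : ∀ i, (f i).degree ≤ e
  top : ∃ i, (f i).coeff e ≠ 0
  nz : ∀ t : K, ∃ i, (f i).eval t ≠ 0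
  on : MvPolynomial.aeval f F = 0
  vf : ∃ v : Fin (Fintype.card ι - 2) → ι → K[X], (∀ j i, (v j i).degree < e) ∧
    (∀ j, ∑ i, v j i * MvPolynomial.aeval f (MvPolynomial.pderiv i F) = 0) ∧
    LinearIndependent K[X] (fun o : Option (Fin (Fintype.card ι - 2)) => o.elim f v)

/-- there is a very free curve -/
def SRC {ι k : Type} [Fintype ι] [Field k] (K : Type) [Field K] [Algebra k K]
    (F : MvPolynomial ι k) : Prop :=
  ∃ (e : ℕ) (f : ι → K[X]), VeryFree F e f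

/-- what is to be shown -/
def Good (p : ℕ) [Fact p.Prime] (n d : ℕ) : Prop :=
  ∃ F : MvPolynomial (Fin (n + 1)) (ZMod p), F.IsHomogeneous d ∧
    IsSmooth (AlgebraicClosure (ZMod p)) F ∧ SRC (AlgebraicClosure (ZMod p)) F

/-- **TR** (60 lines): transport to `Fin (n + 1)` by an equivalence `ι ≃ Fin (n + 1)`
(`MvPolynomial.rename`, `pderiv_rename`, `aeval_rename`; `F.IsHomogeneous` by `IsHomogeneous.rename_isHomogeneous`). -/
def S_TR : Prop :=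
  ∀ (p : ℕ) [Fact p.Prime] (n d : ℕ) (ι : Type) [Fintype ι] [DecidableEq ι] (F : MvPolynomial ι (ZMod p)),
    Fintype.card ι = n + 1 → F.IsHomogeneous d → IsSmooth (AlgebraicClosure (ZMod p)) F →
    SRC (AlgebraicClosure (ZMod p)) F → Good p n d

/-- derivative of `F` along the constant vector `e`, at `f` -/
def D {ι k K : Type} [Fintype ι] [Field k] [Field K] [Algebra k K] (F : MvPolynomial ι k) (f : ι → K[X])
    (e : ι → K) : K[X] := ∑ i, C (e i) * MvPolynomial.aeval f (MvPolynomial.pderiv i F)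

/-- the curve `b e_x + T b e_y - a e_z` -/
def crv {ι K : Type} [Field K] (a b : K[X]) (ex ey ez : ι → K) : ι → K[X] :=
  fun i => C (ex i) * b + C (ey i) * (X * b) - C (ez i) * a

/-- **VF** (200 lines): the criterion. `deg`: clear. `top`: the coefficient of `f i` at `d` is
`ey i * lc b - ez i * a_d`, and `ey`, `ez` are independent. `nz`: if `f (t) = 0` then `b (t) = a (t) = 0`, contradiction.
`vf`: `card ι - 2 = 1 + (d - 2) + card N` vectors: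
(1) `f' = ex b' + ey (b + T b') - ez a'` (entrywise derivative of `f`, degree `≤ d - 1`); with `q = b a' - a b'`:
`b' D ex + (b + T b') D ey - a' D ez = b ^ (d - 2) (b' (a b - T q) + (b + T b') q - a' b ^ 2) = 0`.
(2) the constant vectors `nu`.
(3) for `j < d - 2` a vector `V_j = αx ex + αy ey + αz ez + b lam_j + ∑ k > j, α_k lam_k` with `deg α_k ≤ d - 2`,
`deg αx, αy, αz ≤ d - 1`: `b D (lam_j) = b ^ (j + 1) r_j` is divisible by `b ^ (j + 1)`; choose successively `α_k`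
(`k = j + 1, …, d - 3`, `α_k` reduced modulo `b`) such that `b D (lam_j) + ∑ α_i D (lam_i)` (`i ≤ k`) is divisible by
`b ^ (k + 1)` (`r_k` is a unit modulo `b`). The sum is `b ^ (d - 2) c`, `deg c ≤ 3 (d - 1)` (as `D e` has degree at most
`d (d - 1)`: `F` is homogeneous and `deg f ≤ d`). CLAIM: every `c` of degree `≤ 3 (d - 1)` is
`αx (a b - T q) + αy q + αz b ^ 2` with `deg ≤ d - 1`: put `αx = β`, `αy = T β - g`: this is `β a b - g q + αz b ^ 2`; as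
`q ≡ - a b'` modulo `b` and `a b'` is a unit modulo `b`, there is `g`, `deg g < d - 1`, with `b ∣ c + g q`; `c + g q = b c'`,
`deg c' ≤ 2 d - 2`; and `β`, `deg β < d - 1`, with `b ∣ c' - β a`, `αz = (c' - β a) / b`, `deg αz ≤ d - 1`.
Independence: `ex, ey, ez, lam, nu` is a basis of `ι → K`; the first three coordinates of `f`, `f'` are `(b, T b, - a)`,
`(b', b + T b', - a')`, with the minor `b ^ 2 ≠ 0`; the `lam`-coordinates of the `V_j` are triangular with the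
diagonal `b`, those of `f`, `f'`, `nu` are zero. -/
def S_VF : Prop :=
  ∀ (k K : Type) [Field k] [Field K] [Algebra k K] (ι N : Type) [Fintype ι] [DecidableEq ι] [Fintype N]
    (F : MvPolynomial ι k) (d : ℕ) (a b : K[X]) (ex ey ez : ι → K) (lam : Fin (d - 2) → ι → K)
    (nu : N → ι → K) (r : Fin (d - 2) → K[X]),
    3 ≤ d → F.IsHomogeneous d → b.natDegree = d - 1 → a.degree ≤ d → IsCoprime a b →
    IsCoprime b (derivative b) → Fintype.card ι = d + 1 + Fintype.card N →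
    LinearIndependent K (Sum.elim ![ex, ey, ez] (Sum.elim lam nu)) →
    MvPolynomial.aeval (crv a b ex ey ez) F = 0 →
    D F (crv a b ex ey ez) ex =
      b ^ (d - 2) * (a * b - X * (b * derivative a - a * derivative b)) →
    D F (crv a b ex ey ez) ey = b ^ (d - 2) * (b * derivative a - a * derivative b) →
    D F (crv a b ex ey ez) ez = b ^ d →
    (∀ j, D F (crv a b ex ey ez) (lam j) = b ^ (j : ℕ) * r j ∧ IsCoprime (r j) b) →
    (∀ i, D F (crv a b ex ey ez) (nu i) = 0) →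
    VeryFree F d (crv a b ex ey ez)

/-- **C1** (200 lines, from `S_VF`, `S_TR`): `p ∣ d`. Variables `x, y, z, w_0`, `u_1, …, u_(n-3)`, where `u_k = w_k` for
`k ≤ d - 3`; `u_0 := x`.
`F = x ^ (d-1) y + z (x ^ (d-1) + y ^ (d-1)) + w_0 z ^ (d-1) + w_0 ^ d + ∑_{k=1}^{d-3} u_k z ^ (d-1-k) x ^ k
  + ∑_{k=1}^{n-3} u_(k-1) u_k ^ (d-1)`.
Smooth: `∂ w_0`: `z ^ (d-1) = 0` (`p ∣ d`), so `z = 0`, and the terms `u_k z ^ (d-1-k) x ^ k` vanish with their derivatives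
(`d - 1 - k ≥ 2`). `∂ y`: `x ^ (d-1) = 0`. `∂ z`: `x ^ (d-1) + y ^ (d-1) = 0`, `y = 0`. `∂ x`:
`(d-1) x ^ (d-2) y + u_1 ^ (d-1) = 0`, `u_1 = 0`; `∂ u_k`: `(d-1) u_(k-1) u_k ^ (d-2) + u_(k+1) ^ (d-1) = 0`, so all `u_k = 0`.
`F = w_0 ^ d = 0`.
Very free: `a = T`, `b = T ^ (d-1) + 1`, `ex, ey, ez, lam_0 = e_(w_0), lam_k = e_(u_k)` unit vectors, `nu` the other
`e_(u_k)` (`k ≥ d - 2`). `f = (b, T b, - T)`; `D (lam_k) = z ^ (d-1-k) x ^ k = (- T) ^ (d-1-k) b ^ k`; `D ex`, `D ey`, `D ez` are the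
derivatives of `x ^ (d-1) y + z (x ^ (d-1) + y ^ (d-1))` (all other terms are of order two in `w_0`, `u`, or have
the derivative zero there; `d - 1 ≥ 2`). `b' = - T ^ (d-2)`, coprime to `b`. -/
def S_C1 : Prop :=
  ∀ (p : ℕ) [Fact p.Prime] (n d : ℕ), 3 ≤ d → d ≤ n → p ∣ d → Good p n d

/-- **C2** (160 lines, from `S_VF`, `S_TR`): `p ∣ d - 1`. Variables `x, y, z, w_0, …, w_(d-3)`, `v_1, …, v_(n-d)`.
`F = x ^ d + z (y ^ (d-1) + y x ^ (d-2)) + ∑_{k=0}^{d-3} w_k z ^ (d-1-k) x ^ k + w_0 ^ (d-1) y + ∑_{k≥1} w_k ^ d + ∑ v_i ^ d`.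
Smooth: `∂ w_0`: `z ^ (d-1) + (d-1) w_0 ^ (d-2) y = z ^ (d-1) = 0`, `z = 0`; `∂ w_k` (`k ≥ 1`), `∂ v_i`: `w_k = v_i = 0`
(`d = 1` in the field); `∂ x`: `x ^ (d-1) = 0`; `∂ z`: `y ^ (d-1) = 0`; `∂ y`: `w_0 ^ (d-1) = 0`.
Very free: `a = 1`, `b = T ^ (d-1) + T`, `b' = 1`; unit vectors; `f = (b, T b, - 1)`,
`D (lam_k) = (-1) ^ (d-1-k) b ^ k`. -/
def S_C2 : Prop :=
  ∀ (p : ℕ) [Fact p.Prime] (n d : ℕ), 3 ≤ d → d ≤ n → p ∣ d - 1 → Good p n d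

/-- Data for `p ∤ d (d - 1)`: a form `H` of degree `d` in the variables `β` with no common zero of its derivatives;
on the plane the variables `β` are `ex x + ez z`; `K₁ ∪ K₂` are the levels which are treated by single variables `w_k`;
`h (X) = g (X, 1)` for the binary form `g (x, z)` with `g + H (ex x + ez z) = A₀ x ^ d + z x ^ (d - 1)`. -/
def Data (p : ℕ) [Fact p.Prime] (d : ℕ) : Prop :=
  ∃ (β : Type) (_ : Fintype β) (_ : DecidableEq β) (K₁ K₂ : Finset ℕ) (H : MvPolynomial β (ZMod p))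
    (ex ez : β → ZMod p) (θ : β) (h : (ZMod p)[X]) (A₀ : ZMod p),
    Fintype.card β + K₁.card + K₂.card = d - 2 ∧
    (∀ k ∈ K₁, 1 ≤ k ∧ k + p + 1 ≤ d) ∧ (∀ k ∈ K₂, p ≤ k ∧ k + 3 ≤ d) ∧ Disjoint K₁ K₂ ∧
    H.IsHomogeneous d ∧
    (∀ c : β → AlgebraicClosure (ZMod p), (∀ i, MvPolynomial.aeval c (MvPolynomial.pderiv i H) = 0) →
      c = 0) ∧
    ex θ = 0 ∧ ez θ = 1 ∧ A₀ ≠ 0 ∧ h.natDegree = d ∧ h.Separable ∧
    h + MvPolynomial.aeval (fun i => C (ex i) * X + C (ez i)) H = C A₀ * X ^ d + X ^ (d - 1) ∧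
    ∀ k < d - 2, k ∉ K₁ → k ∉ K₂ → ∃ lam : β → ZMod p,
      X ^ k ∣ D H (fun i => C (ex i) * X + C (ez i)) lam ∧
      (D H (fun i => C (ex i) * X + C (ez i)) lam).coeff k ≠ 0

/-- **C3** (300 lines, from `S_VF`, `S_TR`): `p ∤ d (d - 1)`, from `Data`. Index type
`Fin 3 ⊕ K₁ ⊕ K₂ ⊕ β ⊕ Fin (n - d)`. With `g (x, z) = ∑_{i ≤ d} h_i x ^ i z ^ (d - i)`:
`F = z y ^ (d-1) + g (x, z) + ∑_{k ∈ K₁} (w_k θ ^ p x ^ k z ^ (d-1-k-p) + w_k ^ d)
  + ∑_{k ∈ K₂} (w_k z ^ (d-1-k) y ^ p x ^ (k-p) + w_k ^ d) + H (β) + ∑ v_i ^ d`.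
Smooth (`F (P) = 0` is not needed): `∂ β_i`: `H_i = 0` (the `θ ^ p` have derivative zero), so `β = 0`, `θ = 0`, and the
terms with `θ ^ p` vanish with their derivatives (`p ≥ 2`). `∂ w_k`, `k ∈ K₁`: `w_k = 0`; `v_i = 0`. `∂ y`:
`(d-1) z y ^ (d-2) = 0` (the `y ^ p` have derivative zero). If `z = 0`: the `K₂`-terms vanish with their derivatives
(`d - 1 - k ≥ 2`), so `w_k = 0`; `∂ x`: `d h_d x ^ (d-1) = 0`, `x = 0`; `∂ z`: `y ^ (d-1) = 0`. If `y = 0`: the `K₂`-terms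
vanish with their derivatives, `w_k = 0`; `∂ x g = ∂ z g = 0`; if `z ≠ 0` then `h' (x / z) = 0`, and `d g = x g_x + z g_z` gives
`h (x / z) = 0`, contradiction to separable; so `z = 0` and `d h_d x ^ (d-1) = 0`.
Very free: `a = A₀` (constant), `b = T ^ (d-1) + 1`; `ey` = unit vector of `y`; `ex` = unit vector of `x` plus `ex` on `β`;
`ez` = unit vector of `z` plus `ez` on `β`; `lam_k` for `k ∈ K₁ ∪ K₂`: unit vector of `w_k`, otherwise the `lam` of `Data`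
on `β`; `nu`: the `v_i`. With `(x, y, z) = (b, T b, - A₀)`: `D (lam_k) = z ^ (d-1-k) x ^ k` for `k ∈ K₁`,
`z ^ (d-1-k) y ^ p x ^ (k-p) = (-A₀) ^ (d-1-k) T ^ p b ^ k` for `k ∈ K₂`, and for the others
`∑_j δ_j b ^ j (-A₀) ^ (d-1-j)` where `∑ δ_j X ^ j` is the polynomial in `Data`, of degree `≤ d - 1`, so it is
`b ^ k (δ_k (-A₀) ^ (d-1-k) + b (…))`. `D ex`, `D ey`, `D ez` are the derivatives of
`P = A₀ x ^ d + z (x ^ (d-1) + y ^ (d-1))` (restriction of `F` to the plane; chain rule for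
`MvPolynomial.bind₁`, by `MvPolynomial.induction_on`): `A₀ b ^ (d-2) (d b - (d-1))`, `- (d-1) A₀ T ^ (d-2) b ^ (d-2)`, `b ^ d`. -/
def S_C3 : Prop :=
  ∀ (p : ℕ) [Fact p.Prime] (n d : ℕ), 3 ≤ d → d ≤ n → ¬ p ∣ d → ¬ p ∣ d - 1 → Data p d → Good p n d

/-- **C4** (300 lines, from `S_VF`, `S_TR`): `d = 2 p - 1`, `p` odd; in the field `d = -1`, `d - 1 = -2`. Variables
`x, y, z, u_0, u_1, w` (level `p - 1`), `w_k` (`2 ≤ k ≤ p - 2`), `w_k` (`p ≤ k ≤ d - 3 = 2 p - 4`), `v_1, …, v_(n-d)`.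
`F = z y ^ (d-1) + x ^ d - z ^ d + w x ^ (p-1) z ^ (p-1) - w ^ d + z (u_1 - u_0) ^ p x ^ (p-2) - u_1 ^ p (z + x) ^ (p-1)
  + u_1 ^ d + u_0 ^ d + ∑_{k=2}^{p-2} (w_k u_0 ^ p x ^ k z ^ (p-2-k) + w_k ^ d)
  + ∑_{k=p}^{2p-4} (w_k z ^ (d-1-k) y ^ p x ^ (k-p) + w_k ^ d) + ∑ v_i ^ d`.
Smooth: `∂ u_0`, `∂ u_1`: `u_0 = u_1 = 0` (`p`-th powers have derivative zero), so all the terms with `u` vanish
with their derivatives; `w_k = 0` (`k ≤ p - 2`), `v = 0`; `∂ y`: `-2 z y ^ (d-2) = 0`. `z = 0`: `w_k = 0`, `∂ x`: `x = 0`,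
`∂ w`: `w = 0`, `∂ z`: `y = 0`. `y = 0`: `w_k = 0` and `- x ^ (d-1) - w x ^ (p-2) z ^ (p-1) = 0`, `z ^ (d-1) - w x ^ (p-1) z ^ (p-2) = 0`,
`x ^ (p-1) z ^ (p-1) + w ^ (d-1) = 0`. With `M = w x ^ (p-1) z ^ (p-1)`: `x ^ d = - M`, `z ^ d = M`, `w ^ d = - M`, so
`M ^ d = w ^ d x ^ (d (p-1)) z ^ (d (p-1)) = - M ^ d` (`p - 1` is even, `2 (p-1) + 1 = d`), `M = 0`.
On the plane `u_0 = z`, `u_1 = z + x`, the other new variables zero, `F` is
`P = x ^ d + z (x ^ (d-1) + y ^ (d-1))` (`d - 1 - p = p - 2`, `p + p - 1 = d`). Very free: `a = 1`, `b = T ^ (d-1) + 1`,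
`ex = e_x + e_(u_1)`, `ez = e_z + e_(u_0) + e_(u_1)`, `ey = e_y`; `x = b`, `z = -1`: level `0`: `e_(u_0)`: `D = d z ^ (d-1) = -1`
(constant); level `1`: `e_(u_1) - e_(u_0)`: `D = d ((z + x) ^ (d-1) - z ^ (d-1)) = b r`, `r = d (d-1) z ^ (d-2) + b (…)`;
level `p - 1`: `e_w`: `D = x ^ (p-1) z ^ (p-1)`; the others as in C3: `u_0 ^ p x ^ k z ^ (p-2-k) = z ^ (d-1-k) x ^ k` (`d - 1 - k - p = p - 2 - k`)
and `z ^ (d-1-k) y ^ p x ^ (k-p)`. The number of these levels is `2 + 1 + (p - 3) + (p - 3) = d - 2`; for `p = 3`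
the two sums are empty. -/
def S_C4 : Prop :=
  ∀ (p : ℕ) [Fact p.Prime] (n d : ℕ), 3 ≤ p → d = 2 * p - 1 → d ≤ n → Good p n d

/-- **DA** (100 lines): `d ≥ 2 p`. `β = Fin 1`, `H = c X_0 ^ d`, `ex = 0`, `ez = 1`, `K₁ = {1, …, p - 1}`,
`K₂ = {p, …, d - 3}`, `A₀ = 1`, `h = X ^ d + X ^ (d-1) - c`: the roots of `h' = X ^ (d-2) (d X + (d-1))` are `0` and
`x₁ = - (d-1) / d`, the values of `h` there `- c`, `x₁ ^ (d-1) / d - c`; choose `c ≠ 0`, `c ≠ x₁ ^ (d-1) / d` (`p ≥ 3`, as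
`p ∤ d (d - 1)`). Level `0`: `D = c d`. -/
def S_DA : Prop :=
  ∀ (p : ℕ) [Fact p.Prime] (d : ℕ), 3 ≤ d → ¬ p ∣ d → ¬ p ∣ d - 1 → 2 * p ≤ d → Data p d

/-- **DB** (200 lines): `d < p`. `β = Fin (d - 2)`, `K₁ = K₂ = ∅`, `ez = 1`, `ex k = k`, `θ = 0`,
`H = ∑ c_k X_k ^ d`, `c_k = 1` for `k ≥ 1`, `h = A₀ X ^ d + X ^ (d-1) - ∑_{k ≥ 1} (1 + k X) ^ d - c`, `c = c_0`. Choose `A₀`
different from `0` and `∑ k ^ d`; then `h` has degree `d`, `h'` has at most `d - 1` roots in `K`, and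
`c ∈ F_p`, `c ≠ 0` different from the values of `h + c` there (`p - 1 > d - 1`): `h` is separable. Valuations:
`D (lam) = ∑_k lam_k c_k d (1 + k X) ^ (d-1)` has the coefficients `d binom (d-1, i) ∑_k lam_k c_k k ^ i`; as the numbers
`0, 1, …, d - 3` are different in `F_p`, there are `lam` with `∑_k lam_k c_k k ^ i = [i = k₀]` for all `i ≤ d - 3`
(Vandermonde), and `p ∤ binom (d-1, k₀)`. -/
def S_DB : Prop :=
  ∀ (p : ℕ) [Fact p.Prime] (d : ℕ), 3 ≤ d → d < p → Data p d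

/-- the binary form `α X ^ (a+b) + ε X ^ a Y ^ b + γ Y ^ (a+b)` has no singular zeros -/
def Sm (p : ℕ) [Fact p.Prime] (a b : ℕ) (α ε γ : ZMod p) : Prop :=
  ∀ x y : AlgebraicClosure (ZMod p),
    algebraMap (ZMod p) (AlgebraicClosure (ZMod p)) ((a + b : ℕ) * α) * x ^ (a + b - 1) +
      algebraMap (ZMod p) (AlgebraicClosure (ZMod p)) (ε * a) * x ^ (a - 1) * y ^ b = 0 →
    algebraMap (ZMod p) (AlgebraicClosure (ZMod p)) (ε * b) * x ^ a * y ^ (b - 1) +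
      algebraMap (ZMod p) (AlgebraicClosure (ZMod p)) ((a + b : ℕ) * γ) * y ^ (a + b - 1) = 0 →
    x = 0 ∧ y = 0

/-- **BL** (150 lines). `d = a + b`, `p ∤ d`, `a, b < p`; `g = gcd (a, b)`, `a = g a'`, `b = g b'`. If the derivatives vanish at
`(x, y) ≠ 0` then `x, y ≠ 0` and with `M = x ^ a y ^ b`: `d α x ^ d = - ε a M`, `d γ y ^ d = - ε b M`; as
`(x ^ d) ^ a' (y ^ d) ^ b' = M ^ (d / g)` and `M ≠ 0`: `(d α) ^ a' (d γ) ^ b' = (- ε a) ^ a' (- ε b) ^ b'`. So for given `α` the bad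
`γ ≠ 0` satisfy `γ ^ b' = const`. If `p - 1 ∤ b'` (true if `b ≤ p - 2`, or `a = b`, `b' = 1`) there is `ζ ≠ 0` with `ζ ^ b' ≠ 1`, so
one of `γ`, `ζ γ` is not bad for every `γ ≠ 0`; as `p - 1 ≥ 4` at least two `γ ≠ 0` are not bad (if only `γ₁` is
not bad then `ζ γ = γ₁` for all `γ ≠ 0, γ₁`). The second part is symmetric. -/
def S_BL : Prop :=
  ∀ (p : ℕ) [Fact p.Prime] (a b : ℕ) (ε : ZMod p), 5 ≤ p → 2 ≤ a → a < p → 2 ≤ b → b < p →
    ¬ p ∣ a + b → ε ≠ 0 →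
    ((b + 2 ≤ p ∨ a = b) → ∀ α γ' : ZMod p, α ≠ 0 → ∃ γ : ZMod p, γ ≠ 0 ∧ γ ≠ γ' ∧ Sm p a b α ε γ) ∧
    ((a + 2 ≤ p ∨ a = b) → ∀ γ α' : ZMod p, γ ≠ 0 → ∃ α : ZMod p, α ≠ 0 ∧ α ≠ α' ∧ Sm p a b α ε γ)

/-- **DR** (150 lines). `d = p + ρ + 1`. Let `a₁ = min S`; `d - a₁ ≤ p - 1`, and `d - a ∈ [ρ + 2, p - 1]` is not divisible by `p`
for all `a ∈ S`. First choose `α`, `ε` (`≠ 0`) such that `h₀ = α X ^ d + X ^ (d-1) - ∑ ε_a X ^ a` satisfies
`h₀ (1) = h₀' (1) = 0`: `(d - a₁) α = - (d - 1) + a₁ + ∑_{a ≠ a₁} ε_a (a - a₁)`, `ε_(a₁) = α + 1 - ∑_{a ≠ a₁} ε_a`. If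
`S = {a₁}`: `α = - (d - 1 - a₁) / (d - a₁)`, `ε = 1 / (d - a₁)`, not zero. Otherwise let `a₂ ∈ S` be another element, `ε_a = 1` for
the other ones; `α` and `ε_(a₁)` are affine functions of `e = ε_(a₂)` with the slopes `(a₂ - a₁) / (d - a₁)`,
`(a₂ - d) / (d - a₁)`, not zero: choose `e ≠ 0` such that both are not zero (`p ≥ 5`). Then
`h₀' = X ^ (a₁ - 1) h₁`, `deg h₁ = d - a₁ ≤ p - 1`, and `h₁ (1) = 0`; the values of `h₀` at the roots of `h₁` other than `1` are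
at most `p - 2` elements, so there is `γ ∈ F_p`, `γ ≠ 0`, different from them; `h₀ - γ` has no multiple root in `K`
(at `0` its value is `- γ`, at `1` too). -/
def S_DR : Prop :=
  ∀ (p : ℕ) [Fact p.Prime] (ρ : ℕ) (S : Finset ℕ), 5 ≤ p → 1 ≤ ρ → ρ + 3 ≤ p → S.Nonempty →
    (∀ a ∈ S, ρ + 2 ≤ a ∧ a + 1 ≤ p) →
    ∃ (α γ : ZMod p) (ε : ℕ → ZMod p), α ≠ 0 ∧ γ ≠ 0 ∧ (∀ a ∈ S, ε a ≠ 0) ∧
      (C α * X ^ (p + ρ + 1) + X ^ (p + ρ) - ∑ a ∈ S, C (ε a) * X ^ a - C γ : (ZMod p)[X]).Separable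

/-- **DC0** (250 lines, from `S_BL`, `S_DR`): `d = p + ρ + 1` even, `1 ≤ ρ ≤ p - 3`; `r = (p - 1 - ρ) / 2 ≥ 1`,
`a_b = ρ + 2 + 2 b` (`b < r`), so `a_(r-1) = p - 1`. `β = Option (Fin r × Bool)`: variables `u`, `r_b`, `s_b`;
`H = c u ^ d + ∑_b (α_b r_b ^ d + ε_b r_b ^ (a_b) s_b ^ (d - a_b) + γ_b s_b ^ d)`; on the plane `u = s_b = z`, `r_b = x`; `θ = u`.
`K₁ = {1, …, ρ}`, `K₂ = {p, …, d - 3}`. `S_DR` for `S = {a_b}` gives `α`, `γ`, `ε_b := ε (a_b)`. Put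
`A₀ = α + ∑ α_b`, `c = γ - ∑ γ_b`, `h = α X ^ d + X ^ (d-1) - ∑ ε_b X ^ (a_b) - γ`. By `S_BL` choose `α_b, γ_b ≠ 0` with
`Sm p (a_b) (d - a_b)`: for `b < r - 1` any (second part: `a_b ≤ p - 3`), for `b = r - 1` (`a_b = p - 1`, `d - a_b = ρ + 2 ≤ p - 2` if
`r ≥ 2`, `a = b` if `r = 1`: first part) such that `A₀ ≠ 0` and `c ≠ 0`. Levels: `0`: `lam = e_u`, `D = c d`; `a_b - 1`:
`e_(r_b)`, `D = d α_b X ^ (d-1) + ε_b a_b X ^ (a_b - 1)`; `a_b`: `e_(s_b) - (γ_b / c) e_u`, `D = ε_b (d - a_b) X ^ (a_b)`. -/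
def S_DC0 : Prop :=
  ∀ (p : ℕ) [Fact p.Prime] (d : ℕ), Even d → p + 2 ≤ d → d + 2 ≤ 2 * p → Data p d

/-- **DC1** (250 lines, from `S_BL`, `S_DR`): `d = p + ρ + 1` odd, `p` odd, so `ρ` is odd, `1 ≤ ρ ≤ p - 4`; `r = (p - ρ) / 2 ≥ 2`,
`a_0 = ρ + 2`, `a_b = ρ + 1 + 2 b` (`1 ≤ b < r`), so `a_1 = ρ + 3`, `a_(r-1) = p - 1`. `β = Fin r × Bool`: variables `r_b`, `s_b`;
`H = ∑_b (α_b r_b ^ d + ε_b r_b ^ (a_b) s_b ^ (d - a_b) + γ_b s_b ^ d)`, on the plane `r_b = x`, `s_b = z`; `θ = s_0`. `K₁ = {1, …, ρ}`,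
`K₂ = {p, …, d - 3}`. As in DC0, but `∑ γ_b = γ`: choose `(α_b, γ_b)` for `b ≥ 2` (`α_b = 1`), then
(`α_1 = 1`) `γ_1` such that `γ_0 := γ - ∑_{b ≥ 1} γ_b ≠ 0` (first part of `S_BL`; `d - a_b ≤ p - 2` for `b ≥ 1`), then `α_0` such that
`A₀ = α + ∑ α_b ≠ 0` (second part, `a_0 ≤ p - 2`). Levels: `0`: `e_(s_0)`, `D = ε_0 (d - a_0) X ^ (a_0) + d γ_0`; `a_b - 1`: `e_(r_b)`; `a_b`
(`b ≥ 1`): `e_(s_b) - (γ_b / γ_0) e_(s_0) + κ e_(r_1)`, where `κ` cancels `X ^ (a_0)` (`a_1 - 1 = a_0`):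
`D = ε_b (d - a_b) X ^ (a_b) + (…) X ^ (d-1)`. These are the levels `0, ρ + 1, …, p - 1`. -/
def S_DC1 : Prop :=
  ∀ (p : ℕ) [Fact p.Prime] (d : ℕ), Odd p → Odd d → p + 2 ≤ d → d + 3 ≤ 2 * p → Data p d

/-- **Q1** (80 lines): `d = 1`. `F = x_0`, `f = (0, 1, T, 0, …)`, `e = 1`, `v` = the constant vectors `e_2, …, e_n`. -/
def S_Q1 : Prop := ∀ (p : ℕ) [Fact p.Prime] (n : ℕ), 2 ≤ n → Good p n 1

/-- **Q2** (150 lines, from `S_TR`): `d = 2`. `n` even: `F = x_0 x_2 - x_1 ^ 2 + ∑ v_i v'_i` (`(n - 2) / 2` pairs), `f = (1, T, T ^ 2, 0)`,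
`e = 2`, `v` = `f' = (0, 1, 2 T, 0)` and the unit vectors of the `v_i`, `v'_i`. `n` odd: `F = x_0 x_2 - x_1 x_3 + ∑ v_i v'_i`,
`f = (1, T, T ^ 2, T, 0)`, `dF (f) = (T ^ 2, - T, 1, - T)` (in the order `x_0, x_1, x_2, x_3`), `v` = `(0, 1, T, 0)`, `(0, 0, T, 1)`
and the unit vectors. Smooth in all characteristics (`F = - x_1 ^ 2` at a common zero of the derivatives if
`n` is even). -/
def S_Q2 : Prop := ∀ (p : ℕ) [Fact p.Prime] (n : ℕ), 2 ≤ n → Good p n 2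

/-- the theorem -/
def S_MAIN : Prop :=
  ∀ (p : ℕ) [Fact p.Prime] (n d : ℕ), 2 ≤ n → 1 ≤ d → d ≤ n → Good p n d

end Pool.Agent.SRC68

end
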